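import Mathlib

/-!
# Meromorphic functions sharing two limit values with the derivative: basic definitions

`F : ℂ → OnePoint ℂ` is a function into the Riemann sphere.
-/

open Filter Topology Metric Set

namespace MP_35e7b7_an

/-- The point `1 / h` of the Riemann sphere, for a complex number `h` (so `1 / 0 = ∞`). -/
noncomputable def sinv (h : ℂ) : OnePoint ℂ :=
  open Classical in if h = 0 then OnePoint.infty else ((h⁻¹ : ℂ) : OnePoint ℂ)

/-- `F` is holomorphic at `z` as a map into the Riemann sphere: near `z` it is either a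
holomorphic function, or the reciprocal of a holomorphic function vanishing at `z`. -/
def HolAt (F : ℂ → OnePoint ℂ) (z : ℂ) : Prop :=
  (∃ h : ℂ → ℂ, AnalyticAt ℂ h z ∧ ∀ᶠ w in 𝓝 z, F w = ((h w : ℂ) : OnePoint ℂ)) ∨
  (∃ h : ℂ → ℂ, AnalyticAt ℂ h z ∧ h z = 0 ∧ ∀ᶠ w in 𝓝 z, F w = sinv (h w))

/-- Meromorphic functions on the plane: holomorphic maps `ℂ → Ĉ`, not identically `∞`. -/
def IsMero (F : ℂ → OnePoint ℂ) : Prop :=
  (∀ z, HolAt F z) ∧ ∃ z, F z ≠ OnePoint.infty

/-- The finite value of a point of the sphere (junk value `0` at `∞`). -/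
noncomputable def toC (x : OnePoint ℂ) : ℂ := x.elim 0 id

/-- The derivative of a meromorphic function, as a function into the sphere: it is `∞` at the
poles of `F` and the usual derivative elsewhere. -/
noncomputable def mderiv (F : ℂ → OnePoint ℂ) (z : ℂ) : OnePoint ℂ :=
  open Classical in
  if F z = OnePoint.infty then OnePoint.infty
  else ((deriv (fun w => toC (F w)) z : ℂ) : OnePoint ℂ)

/-- `F` is a rational function. -/
def IsRational (F : ℂ → OnePoint ℂ) : Prop :=
  ∃ p q : Polynomial ℂ, IsCoprime p q ∧ q ≠ 0 ∧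
    ∀ z, F z = open Classical in
      if q.eval z = 0 then OnePoint.infty else ((p.eval z / q.eval z : ℂ) : OnePoint ℂ)

/-- `c` is a shared limit value of `F` and `G`. -/
def SharedLimitValue (F G : ℂ → OnePoint ℂ) (c : OnePoint ℂ) : Prop :=
  ∀ z : ℕ → ℂ, Tendsto (fun n => ‖z n‖) atTop atTop →
    (Tendsto (fun n => F (z n)) atTop (𝓝 c) ↔ Tendsto (fun n => G (z n)) atTop (𝓝 c))

/-- The analytic description of a meromorphic function by its finite part `g` and its set of
poles `P`. -/
structure GoodFn (g : ℂ → ℂ) (P : Set ℂ) : Prop where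
  closed : IsClosed P
  anal : ∀ z ∉ P, AnalyticAt ℂ g z
  blow : ∀ p ∈ P, ∀ K : ℝ, ∀ᶠ w in 𝓝[≠] p, w ∉ P ∧ K < ‖g w‖

/-- `1 / (g - b)`, with value `0` at the poles. -/
noncomputable def phi (g : ℂ → ℂ) (P : Set ℂ) (b : ℂ) (z : ℂ) : ℂ :=
  open Classical in if z ∈ P then 0 else (g z - b)⁻¹

lemma phi_of_mem {g : ℂ → ℂ} {P : Set ℂ} {b z : ℂ} (hz : z ∈ P) : phi g P b z = 0 := by
  simp [phi, hz]

lemma phi_of_not_mem {g : ℂ → ℂ} {P : Set ℂ} {b z : ℂ} (hz : z ∉ P) :
    phi g P b z = (g z - b)⁻¹ := by
  simp [phi, hz]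

lemma GoodFn.differentiableAt {g : ℂ → ℂ} {P : Set ℂ} (h : GoodFn g P) {z : ℂ} (hz : z ∉ P) :
    DifferentiableAt ℂ g z := (h.anal z hz).differentiableAt

lemma GoodFn.eventually_not_mem {g : ℂ → ℂ} {P : Set ℂ} (h : GoodFn g P) {z : ℂ} (hz : z ∉ P) :
    ∀ᶠ w in 𝓝 z, w ∉ P := h.closed.isOpen_compl.mem_nhds hz

/-- `phi` is analytic away from the `b`-points. -/
lemma GoodFn.phi_anal {g : ℂ → ℂ} {P : Set ℂ} (h : GoodFn g P) (b : ℂ) {z : ℂ}
    (hz : z ∉ P → g z ≠ b) : AnalyticAt ℂ (phi g P b) z := by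
  by_cases hzP : z ∈ P
  · apply Complex.analyticAt_of_differentiable_on_punctured_nhds_of_continuousAt
    · filter_upwards [h.blow z hzP (‖b‖ + 1)] with w hw
      have hgb : g w - b ≠ 0 := by
        intro h0
        have : g w = b := sub_eq_zero.mp h0
        rw [this] at hw
        linarith [hw.2]
      have hd : DifferentiableAt ℂ (fun u => (g u - b)⁻¹) w :=
        ((h.differentiableAt hw.1).sub_const b).inv hgb
      refine hd.congr_of_eventuallyEq ?_
      filter_upwards [h.eventually_not_mem hw.1] with u hu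
      rw [phi_of_not_mem hu]
    · rw [ContinuousAt, phi_of_mem hzP, Metric.tendsto_nhds]
      intro ε hε
      have h1 : ∀ᶠ w in 𝓝[≠] z, dist (phi g P b w) 0 < ε := by
        filter_upwards [h.blow z hzP (‖b‖ + ε⁻¹ + 1)] with w hw
        rw [phi_of_not_mem hw.1, dist_zero_right, norm_inv]
        have h2 : ε⁻¹ < ‖g w - b‖ := by
          have := norm_sub_norm_le (g w) b
          linarith [hw.2]
        exact inv_lt_of_inv_lt₀ hε h2
      have h3 : ∀ᶠ w in 𝓝 z, w ≠ z → dist (phi g P b w) 0 < ε := by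
        simpa [eventually_nhdsWithin_iff] using h1
      filter_upwards [h3] with w hw
      by_cases hwz : w = z
      · subst hwz
        simpa [phi_of_mem hzP] using hε
      · exact hw hwz
  · have hgb : g z - b ≠ 0 := sub_ne_zero.mpr (hz hzP)
    have : AnalyticAt ℂ (fun u => (g u - b)⁻¹) z :=
      ((h.anal z hzP).sub analyticAt_const).inv hgb
    refine this.congr ?_
    filter_upwards [h.eventually_not_mem hzP] with u hu
    rw [phi_of_not_mem hu]

/-- Walking along a segment: if `g` is finite and `|g - b| ≤ K` at `z` and `|g'| ≤ B` wherever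
`|g - b| ≤ 2 K` in the disc, then `g` is finite with `|g - b| < 2 K` in the disc of radius
`ρ` with `B ρ ≤ K`. -/
lemma GoodFn.grow {g : ℂ → ℂ} {P : Set ℂ} (h : GoodFn g P) {b z : ℂ} {K L B ρ : ℝ}
    (hz : z ∉ P) (hK : ‖g z - b‖ ≤ K) (hKL : K < L)
    (hB : ∀ w ∈ ball z ρ, w ∉ P → ‖g w - b‖ ≤ L → ‖deriv g w‖ ≤ B) (hB0 : 0 ≤ B)
    (hρ : K + B * ρ ≤ L) :
    ∀ w ∈ ball z ρ, w ∉ P ∧ ‖g w - b‖ ≤ K + B * dist w z := by
  intro w hw
  by_cases hρ0 : ρ ≤ 0
  · simp [ball_eq_empty.mpr hρ0] at hw
  push Not at hρ0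
  -- the path
  set γ : ℝ → ℂ := fun t => z + t * (w - z) with hγ
  have hγc : Continuous γ := by fun_prop
  have hγball : ∀ t ∈ Icc (0 : ℝ) 1, γ t ∈ ball z ρ := by
    intro t ht
    rw [mem_ball, dist_eq_norm]
    have : γ t - z = t * (w - z) := by simp [hγ]
    rw [this, norm_mul, Complex.norm_real, Real.norm_eq_abs, abs_of_nonneg ht.1]
    have h1 : ‖w - z‖ < ρ := by rwa [mem_ball, dist_eq_norm] at hw
    calc t * ‖w - z‖ ≤ 1 * ‖w - z‖ := by
          apply mul_le_mul_of_nonneg_right ht.2 (norm_nonneg _)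
      _ < ρ := by linarith
  set c : ℝ := dist w z with hc
  have hcρ : c < ρ := mem_ball.mp hw
  have hc0 : 0 ≤ c := dist_nonneg
  -- the set of good times
  let S : Set ℝ := {t | t ∈ Icc (0 : ℝ) 1 ∧ γ t ∉ P ∧ ‖g (γ t) - b‖ ≤ K + B * (t * c)}
  -- closedness within the interval via limit argument: use continuous induction
  have hS : Icc (0 : ℝ) 1 ⊆ {t | γ t ∉ P ∧ ‖g (γ t) - b‖ ≤ K + B * (t * c)} := by
    -- Let T be the set of t such that the property holds on [0,t]
    by_contra hcon
    rw [Set.not_subset] at hcon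
    obtain ⟨t₁, ht₁, hbad⟩ := hcon
    let Bad : Set ℝ := {t | t ∈ Icc (0 : ℝ) 1 ∧ ¬ (γ t ∉ P ∧ ‖g (γ t) - b‖ ≤ K + B * (t * c))}
    have hBne : Bad.Nonempty := ⟨t₁, ht₁, hbad⟩
    have hBbdd : BddBelow Bad := ⟨0, fun t ht => ht.1.1⟩
    set s := sInf Bad with hs
    have hs0 : 0 ≤ s := le_csInf hBne (fun t ht => ht.1.1)
    have hs1 : s ≤ 1 := (csInf_le hBbdd ⟨ht₁, hbad⟩).trans ht₁.2
    have hgood : ∀ t, 0 ≤ t → t < s → γ t ∉ P ∧ ‖g (γ t) - b‖ ≤ K + B * (t * c) := by
      intro t ht0 hts
      by_contra hb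
      exact absurd (csInf_le hBbdd (show t ∈ Bad from ⟨⟨ht0, (hts.le.trans hs1)⟩, hb⟩))
        (not_le.mpr hts)
    -- first: γ s ∉ P
    have hsI : s ∈ Icc (0 : ℝ) 1 := ⟨hs0, hs1⟩
    have hsP : γ s ∉ P := by
      intro hP
      have hs0' : 0 < s := by
        rcases hs0.eq_or_lt with h0 | h0
        · exfalso
          rw [← h0] at hP
          apply hz
          simpa [hγ] using hP
        · exact h0
      by_cases hwz : w = z
      · apply hz
        have : γ s = z := by simp [hγ, hwz]
        rwa [this] at hP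
      have hbl := h.blow _ hP (‖b‖ + L + 1)
      have htend : Tendsto γ (𝓝[<] s) (𝓝[≠] (γ s)) := by
        apply tendsto_nhdsWithin_iff.mpr
        refine ⟨(hγc.tendsto s).mono_left nhdsWithin_le_nhds, ?_⟩
        filter_upwards [self_mem_nhdsWithin] with t ht
        have : t ≠ s := ne_of_lt ht
        intro heq
        apply this
        have h2 : (t : ℂ) * (w - z) = s * (w - z) := by
          simpa [hγ] using heq
        have h3 : (t : ℂ) = s := mul_right_cancel₀ (sub_ne_zero.mpr hwz) h2
        exact_mod_cast h3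
      have hev := htend.eventually hbl
      have hev2 : ∀ᶠ t in 𝓝[<] s, 0 ≤ t ∧ t < s := by
        filter_upwards [self_mem_nhdsWithin, nhdsWithin_le_nhds (Ioi_mem_nhds hs0')] with t ht ht'
        exact ⟨le_of_lt ht', ht⟩
      obtain ⟨t, ⟨_, ht1⟩, ht2, ht3⟩ := (hev.and hev2).exists
      have h4 := (hgood t ht2 ht3).2
      have h5 : ‖g (γ t) - b‖ ≤ L := by
        refine h4.trans (le_trans ?_ hρ)
        have : t * c ≤ ρ := by
          have : t * c ≤ 1 * c := mul_le_mul_of_nonneg_right (ht3.le.trans hs1) hc0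
          linarith
        have := mul_le_mul_of_nonneg_left this hB0
        linarith
      have h6 : ‖g (γ t)‖ ≤ ‖g (γ t) - b‖ + ‖b‖ := by
        have := norm_add_le (g (γ t) - b) b
        simpa using this
      linarith
    -- derivative bound on [0, s]
    have hder : ∀ t ∈ Icc (0 : ℝ) s, HasDerivAt (fun t : ℝ => g (γ t)) (deriv g (γ t) * (w - z)) t := by
      intro t ht
      have htP : γ t ∉ P := by
        rcases ht.2.eq_or_lt with h0 | h0
        · rw [h0]; exact hsP
        · exact (hgood t ht.1 h0).1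
      have h1 : HasDerivAt g (deriv g (γ t)) (γ t) := (h.differentiableAt htP).hasDerivAt
      have h2 : HasDerivAt γ (w - z) t := by
        have h3 : HasDerivAt (fun t : ℝ => (t : ℂ)) 1 t := Complex.ofRealCLM.hasDerivAt
        have h4 := (h3.mul_const (w - z)).const_add z
        simpa [hγ] using h4
      exact h1.comp t h2
    have hcont : ContinuousOn (fun t : ℝ => g (γ t)) (Icc 0 s) := fun t ht =>
      (hder t ht).continuousAt.continuousWithinAt
    -- at s the bound is ≤ L by continuity
    have hbound : ∀ t ∈ Ico (0 : ℝ) s, ‖deriv g (γ t) * (w - z)‖ ≤ B * c := by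
      intro t ht
      have h4 := hgood t ht.1 ht.2
      have h5 : ‖g (γ t) - b‖ ≤ L := by
        refine h4.2.trans (le_trans ?_ hρ)
        have : t * c ≤ ρ := by
          have : t * c ≤ 1 * c := mul_le_mul_of_nonneg_right (ht.2.le.trans hs1) hc0
          linarith
        have := mul_le_mul_of_nonneg_left this hB0
        linarith
      rw [norm_mul, ← dist_eq_norm w z]
      apply mul_le_mul_of_nonneg_right _ hc0
      exact hB _ (hγball t ⟨ht.1, ht.2.le.trans hs1⟩) h4.1 h5
    have hmv : ‖g (γ s) - g (γ 0)‖ ≤ B * c * (s - 0) := by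
      apply norm_image_sub_le_of_norm_deriv_right_le_segment hcont
        (f' := fun t => deriv g (γ t) * (w - z)) _ hbound s ⟨hs0, le_rfl⟩
      intro t ht
      exact (hder t ⟨ht.1, ht.2.le⟩).hasDerivWithinAt
    have hγ0 : γ 0 = z := by simp [hγ]
    rw [hγ0] at hmv
    have hsbound : ‖g (γ s) - b‖ ≤ K + B * (s * c) := by
      have : g (γ s) - b = (g (γ s) - g z) + (g z - b) := by ring
      rw [this]
      refine (norm_add_le _ _).trans ?_
      nlinarith [hmv, hK]
    have hsL : ‖g (γ s) - b‖ < L ∨ s = 1 := by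
      rcases hs1.eq_or_lt with h1 | h1
      · exact Or.inr h1
      · left
        rcases hB0.eq_or_lt with hB' | hB'
        · rw [← hB'] at hsbound
          linarith
        · refine lt_of_le_of_lt hsbound (lt_of_lt_of_le ?_ hρ)
          have : s * c < ρ := by
            have : s * c ≤ 1 * c := mul_le_mul_of_nonneg_right hs1 hc0
            linarith
          have := mul_lt_mul_of_pos_left this hB'
          linarith
    -- s is not bad
    have hsgood : γ s ∉ P ∧ ‖g (γ s) - b‖ ≤ K + B * (s * c) := ⟨hsP, hsbound⟩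
    rcases hsL with hsL | hs1'
    · -- continue beyond s
      have hev1 : ∀ᶠ t in 𝓝 s, γ t ∉ P :=
        hγc.continuousAt.eventually (h.eventually_not_mem hsP)
      have hcs : ContinuousAt (fun t : ℝ => ‖g (γ t) - b‖) s :=
        ((hder s ⟨hs0, le_rfl⟩).continuousAt.sub continuousAt_const).norm
      have hev2 : ∀ᶠ t in 𝓝 s, ‖g (γ t) - b‖ < L := hcs.eventually (gt_mem_nhds hsL)
      obtain ⟨ε, hε, hball⟩ := Metric.eventually_nhds_iff.mp (hev1.and hev2)
      -- any t in [s, s+ε) ∩ [0,1] is good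
      have hext : ∀ t, s ≤ t → t < s + ε → t ≤ 1 → γ t ∉ P ∧ ‖g (γ t) - b‖ ≤ K + B * (t * c) := by
        intro t hst htε ht1
        have htP : γ t ∉ P := (hball (by rw [Real.dist_eq, abs_of_nonneg (by linarith)]; linarith)).1
        refine ⟨htP, ?_⟩
        have hder' : ∀ u ∈ Icc (0 : ℝ) t,
            HasDerivAt (fun t : ℝ => g (γ t)) (deriv g (γ u) * (w - z)) u := by
          intro u hu
          rcases le_or_gt u s with hus | hus
          · exact hder u ⟨hu.1, hus⟩
          · have huP : γ u ∉ P :=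
              (hball (by rw [Real.dist_eq, abs_of_nonneg (by linarith)]; linarith [hu.2])).1
            have h1 : HasDerivAt g (deriv g (γ u)) (γ u) := (h.differentiableAt huP).hasDerivAt
            have h2 : HasDerivAt γ (w - z) u := by
              have h3 : HasDerivAt (fun t : ℝ => (t : ℂ)) 1 u := Complex.ofRealCLM.hasDerivAt
              have h4 := (h3.mul_const (w - z)).const_add z
              simpa [hγ] using h4
            exact h1.comp u h2
        have hb' : ∀ u ∈ Ico (0 : ℝ) t, ‖deriv g (γ u) * (w - z)‖ ≤ B * c := by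
          intro u hu
          rcases lt_or_ge u s with hus | hus
          · exact hbound u ⟨hu.1, hus⟩
          · have h7 := hball (y := u)
              (by rw [Real.dist_eq, abs_of_nonneg (by linarith)]; linarith [hu.2])
            rw [norm_mul, ← dist_eq_norm w z]
            apply mul_le_mul_of_nonneg_right _ hc0
            exact hB _ (hγball u ⟨hu.1, hu.2.le.trans ht1⟩) h7.1 h7.2.le
        have hmv' : ‖g (γ t) - g (γ 0)‖ ≤ B * c * (t - 0) := by
          apply norm_image_sub_le_of_norm_deriv_right_le_segment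
            (f' := fun t => deriv g (γ t) * (w - z)) (a := 0) (b := t) _ _ hb' t
            ⟨hs0.trans hst, le_rfl⟩
          · exact fun u hu => (hder' u hu).continuousAt.continuousWithinAt
          · exact fun u hu => (hder' u ⟨hu.1, hu.2.le⟩).hasDerivWithinAt
        rw [hγ0] at hmv'
        have : g (γ t) - b = (g (γ t) - g z) + (g z - b) := by ring
        rw [this]
        refine (norm_add_le _ _).trans ?_
        nlinarith [hmv', hK]
      have : s + ε ≤ s ∨ 1 < s + ε := by
        by_contra hcc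
        push Not at hcc
        have : s + ε ≤ sInf Bad := by
          apply le_csInf hBne
          intro t ht
          by_contra hlt
          push Not at hlt
          rcases lt_or_ge t s with h1 | h1
          · exact ht.2 (hgood t ht.1.1 h1)
          · exact ht.2 (hext t h1 hlt ht.1.2)
        linarith
      rcases this with h1 | h1
      · linarith
      · -- all of [0,1] is good, contradiction
        apply hbad
        rcases lt_or_ge t₁ s with h2 | h2
        · exact hgood t₁ ht₁.1 h2
        · exact hext t₁ h2 (by linarith [ht₁.2]) ht₁.2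
    · apply hbad
      rcases lt_or_ge t₁ s with h2 | h2
      · exact hgood t₁ ht₁.1 h2
      · have : t₁ = s := le_antisymm (ht₁.2.trans hs1'.ge) h2
        rw [this]; exact hsgood
  have h1 := hS (show (1 : ℝ) ∈ Icc (0 : ℝ) 1 by simp)
  have hγ1 : γ 1 = w := by simp [hγ]
  simp only [Set.mem_ofPred_eq, hγ1] at h1
  refine ⟨h1.1, ?_⟩
  simpa using h1.2

end MP_35e7b7_an
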