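import Mathlib
import Pool.Agent.Lib.MP_35e7b7_an.Basic

/-!
# Chains of `b`-points

If the derivative is close to `b ≠ 0` where `g` is close to `b` (near `∞`), then there are
`b`-points near the points where `g` is close to `b`.  If moreover `g (β ± 2πi)` is close to `b`
for the `b`-points `β` near `∞`, then there is a chain of `b`-points.
-/

open Filter Topology Metric Set

namespace MP_35e7b7_an

section near

variable {g : ℂ → ℂ} {P : Set ℂ} {b : ℂ}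

/-- Local picture near a point where `g` is close to `b`. -/
lemma GoodFn.local_b (h : GoodFn g P) (hb : b ≠ 0) {δ R : ℝ} (hδ : 0 < δ)
    (h2 : ∀ z ∉ P, R < ‖z‖ → ‖g z - b‖ < δ → ‖deriv g z - b‖ ≤ ‖b‖ / 2) {η : ℝ} (hη : 0 < η) :
    ∃ ρ > 0, ∃ δ' > 0, ρ ≤ 1 ∧ ρ ≤ η ∧ ∀ z ∉ P, R + 1 < ‖z‖ → ‖g z - b‖ < δ' →
      (∀ w ∈ ball z ρ, w ∉ P ∧ ‖g w - b‖ ≤ ‖g z - b‖ + 3 * ‖b‖ / 2 * dist w z) ∧
      ∃ β ∉ P, dist β z < ρ ∧ g β = b := by
  have hna : 0 < ‖b‖ := norm_pos_iff.2 hb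
  -- the radius
  set ρ : ℝ := min (min 1 η) (δ / (6 * ‖b‖)) with hρ
  have hρ0 : 0 < ρ := by
    rw [hρ]
    positivity
  have hρ1 : ρ ≤ 1 := (min_le_left _ _).trans (min_le_left _ _)
  have hρη : ρ ≤ η := (min_le_left _ _).trans (min_le_right _ _)
  have hBρ : 3 * ‖b‖ / 2 * ρ ≤ δ / 4 := by
    calc 3 * ‖b‖ / 2 * ρ ≤ 3 * ‖b‖ / 2 * (δ / (6 * ‖b‖)) := by
          gcongr
          exact min_le_right _ _
      _ = δ / 4 := by
          field_simp
          ring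
  have hnd : ∀ w ∉ P, R < ‖w‖ → ‖g w - b‖ < δ → ‖deriv g w‖ ≤ 3 * ‖b‖ / 2 := by
    intro w hw hwR hwa
    have h3 := h2 w hw hwR hwa
    have h4 : ‖deriv g w‖ ≤ ‖deriv g w - b‖ + ‖b‖ := by
      simpa using norm_add_le (deriv g w - b) b
    linarith
  have hnorm : ∀ z w : ℂ, R + 1 < ‖z‖ → w ∈ ball z ρ → R < ‖w‖ := by
    intro z w hz hw
    have h3 : ‖z‖ ≤ ‖w‖ + dist w z := by
      rw [dist_comm, dist_eq_norm]
      simpa using norm_add_le w (z - w)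
    have h4 := mem_ball.1 hw
    linarith
  -- growth
  have hgrow : ∀ z ∉ P, R + 1 < ‖z‖ → ‖g z - b‖ < δ / 4 → ∀ w ∈ ball z ρ,
      w ∉ P ∧ ‖g w - b‖ ≤ ‖g z - b‖ + 3 * ‖b‖ / 2 * dist w z ∧ ‖g w - b‖ < δ := by
    intro z hz hzR hza w hw
    have h3 := h.grow (b := b) (K := ‖g z - b‖) (L := δ / 2) (B := 3 * ‖b‖ / 2) (ρ := ρ) hz le_rfl
      (by linarith) (fun w hw0 hw1 hw2 => hnd w hw1 (hnorm z w hzR hw0) (by linarith))
      (by positivity) (by linarith) w hw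
    refine ⟨h3.1, h3.2, h3.2.trans_lt ?_⟩
    have h4 : 3 * ‖b‖ / 2 * dist w z ≤ 3 * ‖b‖ / 2 * ρ := by
      have := (mem_ball.1 hw).le
      gcongr
    linarith
  set r : ℝ := ρ / 2 with hr
  have hr0 : 0 < r := by positivity
  refine ⟨ρ, hρ0, min (δ / 4) (‖b‖ * r / 4), lt_min (by positivity) (by positivity), hρ1, hρη, ?_⟩
  intro z hz hzR hza
  have hza1 : ‖g z - b‖ < δ / 4 := hza.trans_le (min_le_left _ _)
  have hza2 : ‖g z - b‖ < ‖b‖ * r / 4 := hza.trans_le (min_le_right _ _)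
  have hG := hgrow z hz hzR hza1
  refine ⟨fun w hw => ⟨(hG w hw).1, (hG w hw).2.1⟩, ?_⟩
  -- mean value estimate for `g w - b w`
  have hmv : ∀ w₁ ∈ ball z ρ, ∀ w₂ ∈ ball z ρ,
      ‖(g w₂ - b * w₂) - (g w₁ - b * w₁)‖ ≤ ‖b‖ / 2 * ‖w₂ - w₁‖ := by
    intro w₁ hw₁ w₂ hw₂
    refine Convex.norm_image_sub_le_of_norm_hasDerivWithin_le (𝕜 := ℂ)
      (f := fun w => g w - b * w) (f' := fun w => deriv g w - b * 1) (s := ball z ρ)
      (fun w hw => ?_) (fun w hw => ?_) (convex_ball z ρ) hw₁ hw₂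
    · exact (((h.differentiableAt (hG w hw).1).hasDerivAt).sub
        ((hasDerivAt_id w).const_mul b)).hasDerivWithinAt
    · rw [mul_one]
      exact h2 w (hG w hw).1 (hnorm z w hzR hw) (hG w hw).2.2
  have hlow : ∀ w₁ ∈ ball z ρ, ∀ w₂ ∈ ball z ρ, ‖b‖ / 2 * ‖w₂ - w₁‖ ≤ ‖g w₂ - g w₁‖ := by
    intro w₁ hw₁ w₂ hw₂
    have h3 := hmv w₁ hw₁ w₂ hw₂
    have h4 : b * (w₂ - w₁) = (g w₂ - g w₁) - ((g w₂ - b * w₂) - (g w₁ - b * w₁)) := by ring
    have h5 : ‖b‖ * ‖w₂ - w₁‖ ≤ ‖g w₂ - g w₁‖ + ‖(g w₂ - b * w₂) - (g w₁ - b * w₁)‖ := by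
      rw [← norm_mul, h4]
      exact norm_sub_le _ _
    linarith
  have hzz : z ∈ ball z ρ := mem_ball_self hρ0
  have hrρ : closedBall z r ⊆ ball z ρ := closedBall_subset_ball (by rw [hr]; linarith)
  have h3 : DiffContOnCl ℂ g (ball z r) := by
    refine DifferentiableOn.diffContOnCl (fun w hw => ?_)
    have hw' : w ∈ ball z ρ := hrρ (closure_ball_subset_closedBall hw)
    exact (h.differentiableAt (hG w hw').1).differentiableWithinAt
  have h4 : ∀ w ∈ sphere z r, ‖b‖ * r / 2 ≤ ‖g w - g z‖ := by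
    intro w hw
    have h5 := hlow z hzz w (hrρ (sphere_subset_closedBall hw))
    rw [← dist_eq_norm w z, mem_sphere.1 hw] at h5
    linarith
  have h5 : ∃ᶠ w in 𝓝 z, g w ≠ g z := by
    have h6 : ∀ᶠ w in 𝓝[≠] z, g w ≠ g z := by
      have h7 : ∀ᶠ w in 𝓝[≠] z, w ∈ ball z ρ := nhdsWithin_le_nhds (ball_mem_nhds z hρ0)
      filter_upwards [h7, self_mem_nhdsWithin] with w hw hwz
      intro heq
      have h8 := hlow z hzz w hw
      rw [heq, sub_self, norm_zero] at h8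
      have h9 : 0 < ‖w - z‖ := norm_pos_iff.2 (sub_ne_zero.2 hwz)
      have : 0 < ‖b‖ / 2 * ‖w - z‖ := by positivity
      linarith
    exact h6.frequently.filter_mono nhdsWithin_le_nhds
  have h6 := h3.ball_subset_image_closedBall hr0 h4 h5
  have h7 : b ∈ ball (g z) (‖b‖ * r / 2 / 2) := by
    rw [mem_ball, dist_comm, dist_eq_norm]
    linarith
  obtain ⟨ζ, hζ, hgζ⟩ := h6 h7
  exact ⟨ζ, (hG ζ (hrρ hζ)).1, mem_ball.1 (hrρ hζ), hgζ⟩

end near

section chain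

variable {g : ℂ → ℂ} {P : Set ℂ} {b : ℂ}

/-- The lower bound for the chain. -/
lemma chain_norm_lower {β β₀ : ℂ} {s : ℝ} (hs : s = 1 ∨ s = -1) (hsβ : 0 ≤ s * β₀.im) {k : ℕ}
    (hk : ‖β - β₀ - 2 * Real.pi * Complex.I * s * k‖ ≤ k / 10) : ‖β₀‖ ≤ 2 * ‖β‖ := by
  have hpi := Real.pi_gt_three
  have hk0 : (0 : ℝ) ≤ k := Nat.cast_nonneg k
  have hre : |(β - β₀ - 2 * Real.pi * Complex.I * s * k).re| ≤ k / 10 :=
    (Complex.abs_re_le_norm _).trans hk
  have him : |(β - β₀ - 2 * Real.pi * Complex.I * s * k).im| ≤ k / 10 :=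
    (Complex.abs_im_le_norm _).trans hk
  have hre' : (β - β₀ - 2 * Real.pi * Complex.I * s * k).re = β.re - β₀.re := by
    simp
  have him' : (β - β₀ - 2 * Real.pi * Complex.I * s * k).im = β.im - β₀.im - 2 * Real.pi * s * k := by
    simp
  rw [hre'] at hre
  rw [him'] at him
  have h1 : |β₀.re| - k / 10 ≤ |β.re| := by
    have := abs_sub_abs_le_abs_sub β₀.re β.re
    rw [abs_sub_comm] at this
    linarith
  have h2 : |β₀.im| + 6 * k - k / 10 ≤ |β.im| := by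
    have h3 : |β₀.im| = s * β₀.im := by
      rw [← abs_of_nonneg hsβ, abs_mul]
      rcases hs with hs | hs <;> simp [hs]
    have h4 : s * β.im ≤ |β.im| := by
      refine (le_abs_self _).trans ?_
      rw [abs_mul]
      rcases hs with hs | hs <;> simp [hs]
    have h5 : s * (β.im - β₀.im - 2 * Real.pi * s * k) = s * β.im - s * β₀.im - 2 * Real.pi * k := by
      rcases hs with hs | hs <;> rw [hs] <;> ring
    have h6 : -(k / 10 : ℝ) ≤ s * (β.im - β₀.im - 2 * Real.pi * s * k) := by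
      have h7 : |s * (β.im - β₀.im - 2 * Real.pi * s * k)| ≤ k / 10 := by
        rw [abs_mul]
        rcases hs with hs | hs <;> simpa [hs] using him
      exact (abs_le.1 h7).1
    have h8 : 6 * (k : ℝ) ≤ 2 * Real.pi * k := by
      have : (6 : ℝ) ≤ 2 * Real.pi := by linarith
      gcongr
    linarith
  have h3 := Complex.abs_re_le_norm β
  have h4 := Complex.abs_im_le_norm β
  have h5 := Complex.norm_le_abs_re_add_abs_im β₀
  have h6 := abs_nonneg β₀.re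
  have h7 := abs_nonneg β₀.im
  linarith

/-- Chains of `b`-points.  -/
theorem chain_main (h : GoodFn g P) (hb : b ≠ 0)
    (h2 : ∃ δ > 0, ∃ R : ℝ, ∀ z ∉ P, R < ‖z‖ → ‖g z - b‖ < δ → ‖deriv g z - b‖ ≤ ‖b‖ / 2)
    (hE : ∀ ε > 0, ∃ R : ℝ, ∀ β ∉ P, R < ‖β‖ → g β = b →
      (β + 2 * Real.pi * Complex.I ∉ P ∧ ‖g (β + 2 * Real.pi * Complex.I) - b‖ < ε) ∧
      (β - 2 * Real.pi * Complex.I ∉ P ∧ ‖g (β - 2 * Real.pi * Complex.I) - b‖ < ε))
    (hCW : ∀ ε > 0, ∀ R : ℝ, ∃ z ∉ P, R < ‖z‖ ∧ ‖g z - b‖ < ε) (R' : ℝ) :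
    ∃ β : ℕ → ℂ, (∀ k, β k ∉ P ∧ R' < ‖β k‖ ∧ g (β k) = b) ∧
      (∀ j k : ℕ, 6 * |(j : ℝ) - k| ≤ ‖β j - β k‖) ∧
      (∃ B : ℝ, ∀ k : ℕ, ‖β k‖ ≤ 7 * k + B) ∧
      ∀ δ > 0, ∃ ρ > 0, ∀ k, ∀ z, dist z (β k) < ρ → z ∉ P ∧ ‖g z - b‖ ≤ δ := by
  obtain ⟨δ, hδ, R, h2⟩ := h2
  have hbn : 0 < ‖b‖ := norm_pos_iff.2 hb
  obtain ⟨ρ, hρ, δ', hδ', hρ1, hρη, hloc⟩ := h.local_b hb hδ h2 (η := 1 / 10) (by norm_num)
  obtain ⟨R₁, hR₁⟩ := hE δ' hδ'
  -- the threshold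
  set R₂ : ℝ := max (max (|R| + 10) |R₁|) |R'| with hR₂
  have hR₂R : |R| + 10 ≤ R₂ := (le_max_left _ _).trans (le_max_left _ _)
  have hR₂R₁ : |R₁| ≤ R₂ := (le_max_right _ _).trans (le_max_left _ _)
  have hR₂R' : |R'| ≤ R₂ := le_max_right _ _
  have hR₂0 : 0 ≤ R₂ := (abs_nonneg _).trans hR₂R'
  -- one step, in both directions
  have hstep : ∀ s : ℝ, (s = 1 ∨ s = -1) → ∀ β ∉ P, R₂ < ‖β‖ → g β = b →
      ∃ β' ∉ P, g β' = b ∧ ‖β' - β - 2 * Real.pi * Complex.I * s‖ ≤ 1 / 10 := by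
    intro s hs β hβ hβR hgβ
    have h3 := hR₁ β hβ (lt_of_le_of_lt ((le_abs_self _).trans hR₂R₁) hβR) hgβ
    have h4 : β + 2 * Real.pi * Complex.I * s ∉ P ∧
        ‖g (β + 2 * Real.pi * Complex.I * s) - b‖ < δ' := by
      rcases hs with hs | hs
      · simpa [hs] using h3.1
      · rw [hs]
        have : β + 2 * Real.pi * Complex.I * ((-1 : ℝ) : ℂ) = β - 2 * Real.pi * Complex.I := by
          push_cast
          ring
        rw [this]
        exact h3.2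
    have h5 : R + 1 < ‖β + 2 * Real.pi * Complex.I * s‖ := by
      have h6 : ‖β‖ ≤ ‖β + 2 * Real.pi * Complex.I * s‖ + ‖2 * Real.pi * Complex.I * s‖ := by
        simpa using norm_sub_le (β + 2 * Real.pi * Complex.I * s) (2 * Real.pi * Complex.I * s)
      have h7 : ‖(2 * Real.pi * Complex.I * s : ℂ)‖ ≤ 8 := by
        have h8 : ‖((s : ℝ) : ℂ)‖ = 1 := by
          rcases hs with hs | hs <;> simp [hs]
        rw [norm_mul, h8, mul_one, norm_mul, Complex.norm_I, mul_one, norm_mul, Complex.norm_real,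
          Real.norm_eq_abs, abs_of_pos Real.pi_pos]
        have := Real.pi_lt_four
        simp only [Complex.norm_ofNat]
        linarith
      have := le_abs_self R
      linarith
    obtain ⟨-, β', hβ', hd, hgβ'⟩ := hloc _ h4.1 h5 h4.2
    refine ⟨β', hβ', hgβ', ?_⟩
    rw [dist_eq_norm] at hd
    have h9 : β' - β - 2 * Real.pi * Complex.I * s = β' - (β + 2 * Real.pi * Complex.I * s) := by
      ring
    rw [h9]
    linarith
  -- the starting point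
  obtain ⟨z, hz, hzR, hgz⟩ := hCW δ' hδ' (2 * R₂ + 1)
  have hzR1 : R + 1 < ‖z‖ := by
    have := le_abs_self R
    linarith
  obtain ⟨-, β₀, hβ₀, hdβ₀, hgβ₀⟩ := hloc z hz hzR1 hgz
  have hβ₀R : 2 * R₂ < ‖β₀‖ := by
    have h3 : ‖z‖ ≤ ‖β₀‖ + dist β₀ z := by
      rw [dist_comm, dist_eq_norm]
      simpa using norm_add_le β₀ (z - β₀)
    linarith
  obtain ⟨s, hs, hsβ⟩ : ∃ s : ℝ, (s = 1 ∨ s = -1) ∧ 0 ≤ s * β₀.im := by
    rcases le_total 0 β₀.im with h3 | h3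
    · exact ⟨1, Or.inl rfl, by linarith⟩
    · exact ⟨-1, Or.inr rfl, by linarith⟩
  -- the recursion
  have hnext : ∀ β : ℂ, ∃ β' : ℂ, β ∉ P → R₂ < ‖β‖ → g β = b →
      β' ∉ P ∧ g β' = b ∧ ‖β' - β - 2 * Real.pi * Complex.I * s‖ ≤ 1 / 10 := by
    intro β
    by_cases h3 : β ∉ P ∧ R₂ < ‖β‖ ∧ g β = b
    · obtain ⟨β', h4, h5, h6⟩ := hstep s hs β h3.1 h3.2.1 h3.2.2
      exact ⟨β', fun _ _ _ => ⟨h4, h5, h6⟩⟩
    · exact ⟨0, fun h4 h5 h6 => absurd ⟨h4, h5, h6⟩ h3⟩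
  choose next hnext using hnext
  set β : ℕ → ℂ := fun k => next^[k] β₀ with hβdef
  have hβ0 : β 0 = β₀ := rfl
  have hβs : ∀ k, β (k + 1) = next (β k) := fun k => Function.iterate_succ_apply' next k β₀
  have hprop : ∀ k : ℕ, β k ∉ P ∧ g (β k) = b ∧
      ‖β k - β₀ - 2 * Real.pi * Complex.I * s * k‖ ≤ k / 10 := by
    intro k
    induction k with
    | zero => simpa [hβ0] using ⟨hβ₀, hgβ₀⟩
    | succ k ih =>
      have h3 := chain_norm_lower hs hsβ ih.2.2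
      have h4 : R₂ < ‖β k‖ := by linarith
      obtain ⟨h5, h6, h7⟩ := hnext (β k) ih.1 h4 ih.2.1
      rw [hβs]
      refine ⟨h5, h6, ?_⟩
      have h8 : next (β k) - β₀ - 2 * Real.pi * Complex.I * s * ((k + 1 : ℕ) : ℂ) =
          (next (β k) - β k - 2 * Real.pi * Complex.I * s) +
          (β k - β₀ - 2 * Real.pi * Complex.I * s * k) := by
        push_cast
        ring
      rw [h8]
      refine (norm_add_le _ _).trans ?_
      push_cast
      linarith [ih.2.2]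
  have hnorm : ∀ k, R₂ < ‖β k‖ := fun k => by
    have h3 := chain_norm_lower hs hsβ (hprop k).2.2
    linarith
  have hstep' : ∀ j n : ℕ, ‖β (j + n) - β j - 2 * Real.pi * Complex.I * s * n‖ ≤ n / 10 := by
    intro j n
    induction n with
    | zero => simp
    | succ n ih =>
      obtain ⟨h5, h6, h7⟩ := hnext (β (j + n)) (hprop _).1 (hnorm _) (hprop _).2.1
      rw [← add_assoc, hβs]
      have h8 : next (β (j + n)) - β j - 2 * Real.pi * Complex.I * s * ((n + 1 : ℕ) : ℂ) =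
          (next (β (j + n)) - β (j + n) - 2 * Real.pi * Complex.I * s) +
          (β (j + n) - β j - 2 * Real.pi * Complex.I * s * n) := by
        push_cast
        ring
      rw [h8]
      refine (norm_add_le _ _).trans ?_
      push_cast
      linarith [ih]
  have hns : ∀ n : ℕ, ‖(2 * Real.pi * Complex.I * s * n : ℂ)‖ = 2 * Real.pi * n := by
    intro n
    have h8 : ‖((s : ℝ) : ℂ)‖ = 1 := by
      rcases hs with hs | hs <;> simp [hs]
    rw [norm_mul, norm_mul, h8, mul_one, norm_mul, Complex.norm_I, mul_one, norm_mul,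
      Complex.norm_real, Real.norm_eq_abs, abs_of_pos Real.pi_pos]
    simp
  have hlow : ∀ j n : ℕ, 6 * (n : ℝ) ≤ ‖β (j + n) - β j‖ := by
    intro j n
    have h3 := hstep' j n
    have h4 : ‖(2 * Real.pi * Complex.I * s * n : ℂ)‖ ≤
        ‖β (j + n) - β j‖ + ‖β (j + n) - β j - 2 * Real.pi * Complex.I * s * n‖ := by
      have := norm_sub_le (β (j + n) - β j) (β (j + n) - β j - 2 * Real.pi * Complex.I * s * n)
      simpa using this
    rw [hns] at h4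
    have h5 : (6.2 : ℝ) * n ≤ 2 * Real.pi * n := by
      have := Real.pi_gt_d2
      have h6 : (6.2 : ℝ) ≤ 2 * Real.pi := by linarith
      gcongr
    have h6 : (0 : ℝ) ≤ n := Nat.cast_nonneg n
    linarith
  refine ⟨β, fun k => ⟨(hprop k).1, lt_of_le_of_lt ((le_abs_self _).trans hR₂R') (hnorm k),
    (hprop k).2.1⟩, ?_, ⟨‖β₀‖, ?_⟩, ?_⟩
  · intro j k
    rcases le_total j k with hjk | hjk
    · obtain ⟨n, rfl⟩ := Nat.exists_eq_add_of_le hjk
      rw [norm_sub_rev]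
      have h3 : |(j : ℝ) - ((j + n : ℕ) : ℝ)| = n := by
        push_cast
        rw [show (j : ℝ) - (j + n) = -n by ring, abs_neg, abs_of_nonneg (Nat.cast_nonneg n)]
      rw [h3]
      exact hlow j n
    · obtain ⟨n, rfl⟩ := Nat.exists_eq_add_of_le hjk
      have h3 : |((k + n : ℕ) : ℝ) - (k : ℝ)| = n := by
        push_cast
        rw [show (k : ℝ) + n - k = n by ring, abs_of_nonneg (Nat.cast_nonneg n)]
      rw [h3]
      exact hlow k n
  · intro k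
    have h3 := (hprop k).2.2
    have h4 : ‖β k‖ ≤ ‖β k - β₀ - 2 * Real.pi * Complex.I * s * k‖ + ‖β₀‖ +
        ‖(2 * Real.pi * Complex.I * s * k : ℂ)‖ := by
      have h5 : β k = (β k - β₀ - 2 * Real.pi * Complex.I * s * k) + β₀ +
        (2 * Real.pi * Complex.I * s * k) := by ring
      calc ‖β k‖ = ‖(β k - β₀ - 2 * Real.pi * Complex.I * s * k) + β₀ +
            (2 * Real.pi * Complex.I * s * k)‖ := by rw [← h5]
        _ ≤ _ := norm_add₃_le
    rw [hns] at h4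
    have h5 : 2 * Real.pi * k ≤ (6.4 : ℝ) * k := by
      have := Real.pi_lt_d2
      have h6 : 2 * Real.pi ≤ (6.4 : ℝ) := by linarith
      gcongr
    have h6 : (0 : ℝ) ≤ k := Nat.cast_nonneg k
    linarith
  · intro δ₁ hδ₁
    refine ⟨min ρ (δ₁ / (3 * ‖b‖ / 2)), lt_min hρ (by positivity), fun k z hz => ?_⟩
    have h3 : R + 1 < ‖β k‖ := by
      have := le_abs_self R
      linarith [hnorm k]
    have h4 : ‖g (β k) - b‖ < δ' := by
      rw [(hprop k).2.1]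
      simpa using hδ'
    obtain ⟨h5, -⟩ := hloc (β k) (hprop k).1 h3 h4
    have h6 := h5 z (mem_ball.2 (hz.trans_le (min_le_left _ _)))
    refine ⟨h6.1, h6.2.trans ?_⟩
    rw [(hprop k).2.1, sub_self, norm_zero, zero_add]
    have h7 := (hz.trans_le (min_le_right _ _)).le
    rw [le_div_iff₀ (by positivity)] at h7
    linarith

end chain

end MP_35e7b7_an
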