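import Mathlib
import Pool.Agent.Lib.MP_35e7b7_an.Basic
import Pool.Agent.Lib.MP_35e7b7_an.Chain

/-!
# The difference `1/(g' - b) - 1/(g - b)` tends to zero
-/

open Filter Topology Metric Set

namespace MP_35e7b7_an

section deriv

variable {g : ℂ → ℂ} {P : Set ℂ}

lemma GoodFn.tendsto_cobounded (h : GoodFn g P) {p : ℂ} (hp : p ∈ P) :
    Tendsto g (𝓝[≠] p) (Bornology.cobounded ℂ) := by
  rw [← tendsto_norm_atTop_iff_cobounded, Filter.tendsto_atTop]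
  intro K
  filter_upwards [h.blow p hp K] with w hw
  exact hw.2.le

lemma GoodFn.meromorphicAt (h : GoodFn g P) (p : ℂ) : MeromorphicAt g p := by
  by_cases hp : p ∈ P
  · have h1 : AnalyticAt ℂ (phi g P 0) p := h.phi_anal 0 (fun h1 => absurd hp h1)
    have h2 : MeromorphicAt (phi g P 0)⁻¹ p := h1.meromorphicAt.inv
    refine h2.congr ?_
    filter_upwards [h.blow p hp 0] with w hw
    rw [Pi.inv_apply, phi_of_not_mem hw.1, sub_zero, inv_inv]
  · exact (h.anal p hp).meromorphicAt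

/-- The derivative has poles at the poles of `g`. -/
lemma GoodFn.deriv (h : GoodFn g P) : GoodFn (deriv g) P where
  closed := h.closed
  anal := fun z hz => (h.anal z hz).deriv
  blow := by
    intro p hp K
    have h1 : meromorphicOrderAt g p < 0 :=
      (tendsto_cobounded_iff_meromorphicOrderAt_neg (h.meromorphicAt p)).1 (h.tendsto_cobounded hp)
    obtain ⟨n, hn⟩ := WithTop.ne_top_iff_exists.1 h1.ne_top
    have hn0 : n < 0 := by
      rw [← hn] at h1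
      exact_mod_cast h1
    have h2 : meromorphicOrderAt (_root_.deriv g) p = ↑(n - 1) :=
      meromorphicOrderAt_deriv_eq_sub_one (by exact_mod_cast hn0.ne) hn.symm
    have h3 : meromorphicOrderAt (_root_.deriv g) p < 0 := by
      rw [h2]
      exact_mod_cast (by omega : n - 1 < 0)
    have h4 := tendsto_cobounded_of_meromorphicOrderAt_neg h3
    rw [← tendsto_norm_atTop_iff_cobounded] at h4
    filter_upwards [h4.eventually (eventually_gt_atTop K), h.blow p hp K] with w hw1 hw2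
    exact ⟨hw2.1, hw1⟩

end deriv

section concl

variable {g : ℂ → ℂ} {P : Set ℂ} {b : ℂ}

/-- The statement of the Phragmén–Lindelöf lemma with charges. -/
def PLStatement : Prop :=
  ∀ (U : Set ℂ) (Ψ : ℂ → ℂ) (C : ℝ) (β : ℕ → ℂ) (ρ B : ℝ), IsOpen U → DifferentiableOn ℂ Ψ U →
    ContinuousOn Ψ (closure U) → (∀ z ∈ closure U, ‖Ψ z‖ ≤ C) →
    (∀ ε > 0, ∃ R : ℝ, ∀ z ∈ frontier U, R < ‖z‖ → ‖Ψ z‖ ≤ ε) → 0 < ρ →
    (∀ z ∈ U, ∀ k, ρ ≤ ‖z - β k‖) → (∀ j k : ℕ, 6 * |(j : ℝ) - k| ≤ ‖β j - β k‖) →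
    (∀ k : ℕ, ‖β k‖ ≤ 7 * k + B) → ∀ η > 0, ∃ R : ℝ, ∀ z ∈ U, R < ‖z‖ → ‖Ψ z‖ ≤ η

lemma GoodFn.isOpen_lt (h : GoodFn g P) (δ : ℝ) : IsOpen {z | z ∉ P ∧ ‖g z - b‖ < δ} := by
  rw [isOpen_iff_mem_nhds]
  rintro z ⟨hz, hz1⟩
  have h1 : ContinuousAt (fun w => ‖g w - b‖) z :=
    ((h.differentiableAt hz).continuousAt.sub continuousAt_const).norm
  filter_upwards [h.eventually_not_mem hz, h1.eventually (gt_mem_nhds hz1)] with w hw1 hw2
  exact ⟨hw1, hw2⟩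

lemma GoodFn.isOpen_gt (h : GoodFn g P) (δ : ℝ) : IsOpen {z | z ∈ P ∨ δ < ‖g z - b‖} := by
  rw [isOpen_iff_mem_nhds]
  intro z hz
  by_cases hzP : z ∈ P
  · have h1 := h.blow z hzP (‖b‖ + δ)
    rw [eventually_nhdsWithin_iff] at h1
    filter_upwards [h1] with w hw
    by_cases hwz : w = z
    · rw [hwz]
      exact Or.inl hzP
    · right
      have h2 := (hw hwz).2
      have h3 : ‖g w‖ ≤ ‖g w - b‖ + ‖b‖ := by simpa using norm_add_le (g w - b) b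
      linarith
  · have hz1 : δ < ‖g z - b‖ := hz.resolve_left hzP
    have h1 : ContinuousAt (fun w => ‖g w - b‖) z :=
      ((h.differentiableAt hzP).continuousAt.sub continuousAt_const).norm
    filter_upwards [h1.eventually (lt_mem_nhds hz1)] with w hw2
    exact Or.inr hw2

/-- Step 5: the difference of the reciprocals tends to zero away from the `b`-points. -/
theorem concl_main (hPL : PLStatement) (h : GoodFn g P) (hb : b ≠ 0)
    (hfwd : ∃ δ > 0, ∃ R : ℝ, ∀ z ∉ P, R < ‖z‖ → ‖g z - b‖ < δ → ‖deriv g z - b‖ ≤ ‖b‖ / 2)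
    (hbwd : ∀ ε > 0, ∃ δ > 0, ∃ R : ℝ, ∀ z ∉ P, R < ‖z‖ → ‖deriv g z - b‖ < δ → ‖g z - b‖ < ε)
    (hE1 : ∀ ε > 0, ∃ R : ℝ, ∀ β ∉ P, R < ‖β‖ → g β = b →
      (β + 2 * Real.pi * Complex.I ∉ P ∧ ‖g (β + 2 * Real.pi * Complex.I) - b‖ < ε) ∧
      (β - 2 * Real.pi * Complex.I ∉ P ∧ ‖g (β - 2 * Real.pi * Complex.I) - b‖ < ε))
    (hE2 : ∃ δ₀ > 0, ∀ ε > 0, ∃ R : ℝ, ∀ z ∉ P, R < ‖z‖ → ‖g z - b‖ ≤ δ₀ →
      ‖deriv g z - g z‖ < ε)
    (hCW : ∀ ε > 0, ∀ R : ℝ, ∃ z ∉ P, R < ‖z‖ ∧ ‖g z - b‖ < ε)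
    {δ : ℝ} (hδ : 0 < δ) {η : ℝ} (hη : 0 < η) :
    ∃ R : ℝ, ∀ z, R < ‖z‖ → (z ∈ P ∨ δ < ‖g z - b‖) →
      ‖phi (deriv g) P b z - phi g P b z‖ ≤ η := by
  obtain ⟨δ₀, hδ₀, hE2⟩ := hE2
  -- a smaller `δ`
  set d : ℝ := min δ δ₀ with hd
  have hd0 : 0 < d := lt_min hδ hδ₀
  have hdδ : d ≤ δ := min_le_left _ _
  have hdδ₀ : d ≤ δ₀ := min_le_right _ _
  obtain ⟨δ₁, hδ₁, R₁, hR₁⟩ := hbwd d hd0
  obtain ⟨β, hβ, hβsep, ⟨B, hB⟩, hβloc⟩ := chain_main h hb hfwd hE1 hCW 0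
  obtain ⟨ρ, hρ, hβρ⟩ := hβloc d hd0
  set R₃ : ℝ := |R₁| + 1 with hR₃
  set U : Set ℂ := {z | R₃ < ‖z‖} ∩ {z | z ∈ P ∨ d < ‖g z - b‖} with hU
  set V : Set ℂ := {z | R₃ ≤ ‖z‖ ∧ (z ∈ P ∨ d ≤ ‖g z - b‖)} with hV
  have hUo : IsOpen U := (isOpen_lt continuous_const continuous_norm).inter (h.isOpen_gt d)
  have hVc : IsClosed V := by
    have h1 : IsOpen ({z : ℂ | ‖z‖ < R₃} ∪ {z | z ∉ P ∧ ‖g z - b‖ < d}) :=
      (isOpen_lt continuous_norm continuous_const).union (h.isOpen_lt d)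
    have h2 : V = ({z : ℂ | ‖z‖ < R₃} ∪ {z | z ∉ P ∧ ‖g z - b‖ < d})ᶜ := by
      ext z
      simp only [hV, mem_ofPred_eq, mem_compl_iff, mem_union, not_or, not_lt, not_and]
      refine and_congr_right fun _ => ?_
      constructor
      · rintro (h3 | h3) h4
        · exact absurd h3 h4
        · exact h3
      · intro h3
        by_cases h4 : z ∈ P
        · exact Or.inl h4
        · exact Or.inr (h3 h4)
    rw [h2]
    exact h1.isClosed_compl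
  have hUV : closure U ⊆ V := by
    refine closure_minimal ?_ hVc
    rintro z ⟨h1, h2⟩
    refine ⟨le_of_lt h1, ?_⟩
    rcases h2 with h2 | h2
    · exact Or.inl h2
    · exact Or.inr (le_of_lt h2)
  -- bounds on `V`
  have hVb : ∀ z ∈ V, z ∉ P → d ≤ ‖g z - b‖ ∧ δ₁ ≤ ‖deriv g z - b‖ := by
    rintro z ⟨h1, h2⟩ hz
    have h3 := h2.resolve_left hz
    refine ⟨h3, ?_⟩
    by_contra h4
    push Not at h4
    have h5 := hR₁ z hz (by have := le_abs_self R₁; linarith) h4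
    linarith
  set Ψ : ℂ → ℂ := fun z => phi (deriv g) P b z - phi g P b z with hΨ
  have hΨa : ∀ z ∈ V, AnalyticAt ℂ Ψ z := by
    intro z hz
    refine (h.deriv.phi_anal b fun hzP hgz => ?_).sub (h.phi_anal b fun hzP hgz => ?_)
    · have h1 := (hVb z hz hzP).2
      rw [hgz, sub_self, norm_zero] at h1
      linarith
    · have h1 := (hVb z hz hzP).1
      rw [hgz, sub_self, norm_zero] at h1
      linarith
  have hΨb : ∀ z ∈ V, ‖Ψ z‖ ≤ δ₁⁻¹ + d⁻¹ := by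
    intro z hz
    by_cases hzP : z ∈ P
    · rw [hΨ]
      simp only [phi_of_mem hzP, sub_zero, norm_zero]
      positivity
    · rw [hΨ]
      simp only [phi_of_not_mem hzP]
      refine (norm_sub_le _ _).trans ?_
      rw [norm_inv, norm_inv]
      have h1 := hVb z hz hzP
      exact add_le_add (inv_anti₀ hδ₁ h1.2) (inv_anti₀ hd0 h1.1)
  have hUfr : ∀ z ∈ frontier U, R₃ < ‖z‖ → z ∉ P ∧ ‖g z - b‖ = d := by
    intro z hz hzR
    have hzV := hUV hz.1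
    have hzU : z ∉ U := by
      rw [hUo.frontier_eq] at hz
      exact hz.2
    have h1 : ¬ (z ∈ P ∨ d < ‖g z - b‖) := fun h2 => hzU ⟨hzR, h2⟩
    push Not at h1
    exact ⟨h1.1, le_antisymm h1.2 (hzV.2.resolve_left h1.1)⟩
  have hΨfr : ∀ ε > 0, ∃ R : ℝ, ∀ z ∈ frontier U, R < ‖z‖ → ‖Ψ z‖ ≤ ε := by
    intro ε hε
    obtain ⟨R, hR⟩ := hE2 (ε * (δ₁ * d)) (by positivity)
    refine ⟨max R R₃, fun z hz hzR => ?_⟩
    obtain ⟨hzP, hzd⟩ := hUfr z hz ((le_max_right _ _).trans_lt hzR)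
    have h1 := hR z hzP ((le_max_left _ _).trans_lt hzR) (by rw [hzd]; exact hdδ₀)
    have h2 := hVb z (hUV hz.1) hzP
    have h3 : g z - b ≠ 0 := by
      rw [← norm_pos_iff]
      linarith [h2.1]
    have h4 : deriv g z - b ≠ 0 := by
      rw [← norm_pos_iff]
      linarith [h2.2]
    have h5 : Ψ z = (g z - deriv g z) / ((deriv g z - b) * (g z - b)) := by
      rw [hΨ]
      simp only [phi_of_not_mem hzP]
      field_simp
      ring
    rw [h5, norm_div, norm_mul, norm_sub_rev, div_le_iff₀ (by rw [← norm_mul]; exact norm_pos_iff.2 (mul_ne_zero h4 h3))]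
    refine h1.le.trans ?_
    have := h2.1
    have := h2.2
    gcongr
  have hUρ : ∀ z ∈ U, ∀ k, ρ ≤ ‖z - β k‖ := by
    intro z hz k
    by_contra h1
    push Not at h1
    rw [← dist_eq_norm] at h1
    have h2 := hβρ k z h1
    rcases hz.2 with h3 | h3
    · exact h2.1 h3
    · exact absurd h2.2 (not_le.2 h3)
  obtain ⟨R, hR⟩ := hPL U Ψ (δ₁⁻¹ + d⁻¹) β ρ B hUo
    (fun z hz => (hΨa z (hUV (subset_closure hz))).differentiableAt.differentiableWithinAt)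
    (fun z hz => (hΨa z (hUV hz)).continuousAt.continuousWithinAt)
    (fun z hz => hΨb z (hUV hz)) hΨfr hρ hUρ hβsep hB η hη
  refine ⟨max R R₃, fun z hzR hz => hR z ⟨(le_max_right _ _).trans_lt hzR, ?_⟩
    ((le_max_left _ _).trans_lt hzR)⟩
  rcases hz with hz | hz
  · exact Or.inl hz
  · exact Or.inr (hdδ.trans_lt hz)

end concl

end MP_35e7b7_an
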