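import Mathlib
import Pool.Agent.Lib.MP_35e7b7_an.Basic
import Pool.Agent.Lib.MP_35e7b7_an.Concl

/-!
# From the analytic description to maps into the sphere
-/

open Filter Topology Metric Set

namespace MP_35e7b7_an

section sphere

/-- Gluing a function and a set of poles to a map into the sphere. -/
noncomputable def sph (g : ℂ → ℂ) (P : Set ℂ) (z : ℂ) : OnePoint ℂ :=
  open Classical in if z ∈ P then OnePoint.infty else ((g z : ℂ) : OnePoint ℂ)

variable {g : ℂ → ℂ} {P : Set ℂ} {b : ℂ}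

lemma sph_of_mem {z : ℂ} (hz : z ∈ P) : sph g P z = OnePoint.infty := by simp [sph, hz]

lemma sph_of_not_mem {z : ℂ} (hz : z ∉ P) : sph g P z = ((g z : ℂ) : OnePoint ℂ) := by
  simp [sph, hz]

lemma toC_coe (w : ℂ) : toC (w : OnePoint ℂ) = w := rfl

lemma eq_sph (F : ℂ → OnePoint ℂ) (z : ℂ) :
    F z = sph (fun w => toC (F w)) {w | F w = OnePoint.infty} z := by
  by_cases hz : F z = OnePoint.infty
  · rw [sph_of_mem (show z ∈ {w | F w = OnePoint.infty} from hz), hz]
  · rw [sph_of_not_mem (show z ∉ {w | F w = OnePoint.infty} from hz)]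
    obtain ⟨w, hw⟩ := OnePoint.ne_infty_iff_exists.1 hz
    rw [← hw, toC_coe]

lemma mderiv_eq_sph (F : ℂ → OnePoint ℂ) (z : ℂ) :
    mderiv F z = sph (deriv (fun w => toC (F w))) {w | F w = OnePoint.infty} z := rfl

lemma tendsto_sph_coe {z : ℕ → ℂ} {c : ℂ} :
    Tendsto (fun n => sph g P (z n)) atTop (𝓝 (c : OnePoint ℂ)) ↔
      ∀ ε > 0, ∀ᶠ n in atTop, z n ∉ P ∧ ‖g (z n) - c‖ < ε := by
  rw [OnePoint.nhds_coe_eq]
  constructor
  · intro h ε hε
    have h1 : ((↑) : ℂ → OnePoint ℂ) '' ball c ε ∈ map ((↑) : ℂ → OnePoint ℂ) (𝓝 c) :=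
      image_mem_map (ball_mem_nhds c hε)
    filter_upwards [h h1] with n hn
    obtain ⟨w, hw, hwn⟩ := hn
    replace hwn : (w : OnePoint ℂ) = sph g P (z n) := hwn
    by_cases hz : z n ∈ P
    · rw [sph_of_mem hz] at hwn
      exact absurd hwn (OnePoint.coe_ne_infty w)
    · rw [sph_of_not_mem hz] at hwn
      have := OnePoint.coe_injective hwn
      refine ⟨hz, ?_⟩
      rw [← this, ← dist_eq_norm]
      exact hw
  · intro h s hs
    obtain ⟨ε, hε, hball⟩ := Metric.mem_nhds_iff.1 (mem_map.1 hs)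
    rw [mem_map]
    filter_upwards [h ε hε] with n hn
    rw [mem_preimage, sph_of_not_mem hn.1]
    apply hball
    rw [mem_ball, dist_eq_norm]
    exact hn.2

lemma tendsto_sph_infty {z : ℕ → ℂ} :
    Tendsto (fun n => sph g P (z n)) atTop (𝓝 OnePoint.infty) ↔
      ∀ K : ℝ, ∀ᶠ n in atTop, z n ∈ P ∨ K < ‖g (z n)‖ := by
  rw [OnePoint.nhds_infty_eq, Filter.coclosedCompact_eq_cocompact, ← Metric.cobounded_eq_cocompact]
  have hbas := hasBasis_cobounded_norm (E := ℂ)
  constructor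
  · intro h K
    have h1 : insert OnePoint.infty (((↑) : ℂ → OnePoint ℂ) '' {w | K < ‖w‖}) ∈
        map ((↑) : ℂ → OnePoint ℂ) (Bornology.cobounded ℂ) ⊔ pure OnePoint.infty := by
      refine mem_sup.2 ⟨?_, ?_⟩
      · refine mem_of_superset (image_mem_map (hbas.mem_of_mem (i := K + 1) trivial)) ?_
        rintro _ ⟨w, hw, rfl⟩
        refine mem_insert_of_mem _ ⟨w, ?_, rfl⟩
        have hw' : K + 1 ≤ ‖w‖ := hw
        show K < ‖w‖
        linarith
      · exact mem_pure.2 (mem_insert _ _)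
    filter_upwards [h h1] with n hn
    by_cases hz : z n ∈ P
    · exact Or.inl hz
    · right
      rw [mem_preimage, sph_of_not_mem hz] at hn
      rcases hn with hn | ⟨w, hw, hwn⟩
      · exact absurd hn (OnePoint.coe_ne_infty _)
      · rw [← OnePoint.coe_injective hwn]
        exact hw
  · intro h s hs
    obtain ⟨hs1, hs2⟩ := mem_sup.1 hs
    obtain ⟨K, -, hK⟩ := hbas.mem_iff.1 (mem_map.1 hs1)
    rw [mem_map]
    filter_upwards [h K] with n hn
    rw [mem_preimage]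
    by_cases hz : z n ∈ P
    · rw [sph_of_mem hz]
      exact mem_pure.1 hs2
    · rw [sph_of_not_mem hz]
      exact hK (le_of_lt (hn.resolve_left hz))

lemma tendsto_phi_of_coe {z : ℕ → ℂ} {c : ℂ} (hc : c ≠ b) :
    (∀ ε > 0, ∀ᶠ n in atTop, z n ∉ P ∧ ‖g (z n) - c‖ < ε) ↔
      Tendsto (fun n => phi g P b (z n)) atTop (𝓝 (c - b)⁻¹) := by
  have hcb : c - b ≠ 0 := sub_ne_zero.2 hc
  constructor
  · intro h
    have h1 : Tendsto (fun n => g (z n)) atTop (𝓝 c) := by
      rw [Metric.tendsto_nhds]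
      intro ε hε
      filter_upwards [h ε hε] with n hn
      rw [dist_eq_norm]
      exact hn.2
    have h2 : Tendsto (fun n => (g (z n) - b)⁻¹) atTop (𝓝 (c - b)⁻¹) :=
      (h1.sub_const b).inv₀ hcb
    refine h2.congr' ?_
    filter_upwards [h 1 one_pos] with n hn
    rw [phi_of_not_mem hn.1]
  · intro h ε hε
    have h0 : (c - b)⁻¹ ≠ 0 := inv_ne_zero hcb
    have h1 : Tendsto (fun n => (phi g P b (z n))⁻¹ + b) atTop (𝓝 ((c - b)⁻¹⁻¹ + b)) :=
      (h.inv₀ h0).add_const b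
    rw [inv_inv, sub_add_cancel, Metric.tendsto_nhds] at h1
    have h2 : ∀ᶠ n in atTop, phi g P b (z n) ≠ 0 := h.eventually_ne h0
    filter_upwards [h1 ε hε, h2] with n hn1 hn2
    have hzP : z n ∉ P := fun hz => hn2 (phi_of_mem hz)
    refine ⟨hzP, ?_⟩
    rw [phi_of_not_mem hzP, inv_inv, sub_add_cancel, dist_eq_norm] at hn1
    exact hn1

lemma tendsto_phi_of_infty {z : ℕ → ℂ} :
    (∀ K : ℝ, ∀ᶠ n in atTop, z n ∈ P ∨ K < ‖g (z n)‖) ↔
      (∃ δ > 0, ∀ᶠ n in atTop, z n ∈ P ∨ δ < ‖g (z n) - b‖) ∧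
      Tendsto (fun n => phi g P b (z n)) atTop (𝓝 0) := by
  have hnb : ∀ w : ℂ, ‖w‖ ≤ ‖w - b‖ + ‖b‖ := fun w => by simpa using norm_add_le (w - b) b
  have hnb' : ∀ w : ℂ, ‖w - b‖ ≤ ‖w‖ + ‖b‖ := fun w => norm_sub_le w b
  constructor
  · intro h
    refine ⟨⟨1, one_pos, ?_⟩, ?_⟩
    · filter_upwards [h (1 + ‖b‖)] with n hn
      rcases hn with hn | hn
      · exact Or.inl hn
      · right
        linarith [hnb (g (z n))]
    · rw [Metric.tendsto_nhds]
      intro ε hε
      filter_upwards [h (ε⁻¹ + ‖b‖)] with n hn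
      by_cases hz : z n ∈ P
      · rw [phi_of_mem hz, dist_self]
        exact hε
      · rw [phi_of_not_mem hz, dist_zero_right, norm_inv]
        have h1 := hn.resolve_left hz
        have h2 : ε⁻¹ < ‖g (z n) - b‖ := by linarith [hnb (g (z n))]
        exact inv_lt_of_inv_lt₀ hε h2
  · rintro ⟨⟨δ, hδ, h1⟩, h2⟩ K
    rw [Metric.tendsto_nhds] at h2
    have hK : 0 < (|K| + ‖b‖ + 1)⁻¹ := by positivity
    filter_upwards [h1, h2 _ hK] with n hn1 hn2
    by_cases hz : z n ∈ P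
    · exact Or.inl hz
    · right
      have h3 := hn1.resolve_left hz
      rw [phi_of_not_mem hz, dist_zero_right, norm_inv] at hn2
      have h4 : |K| + ‖b‖ + 1 < ‖g (z n) - b‖ := by
        have h5 : 0 < ‖g (z n) - b‖ := by linarith
        exact (inv_lt_inv₀ h5 (by positivity)).1 hn2
      have := hnb' (g (z n))
      have := le_abs_self K
      linarith

/-- The final deduction, in terms of `g` and `P`. -/
theorem shared_of_concl
    (hfwd : ∀ ε > 0, ∃ δ > 0, ∃ R : ℝ, ∀ z ∉ P, R < ‖z‖ → ‖g z - b‖ < δ → ‖deriv g z - b‖ < ε)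
    (hbwd : ∀ ε > 0, ∃ δ > 0, ∃ R : ℝ, ∀ z ∉ P, R < ‖z‖ → ‖deriv g z - b‖ < δ → ‖g z - b‖ < ε)
    (hconcl : ∀ δ > 0, ∀ η > 0, ∃ R : ℝ, ∀ z, R < ‖z‖ → (z ∈ P ∨ δ < ‖g z - b‖) →
      ‖phi (deriv g) P b z - phi g P b z‖ ≤ η)
    (c : OnePoint ℂ) {z : ℕ → ℂ} (hz : Tendsto (fun n => ‖z n‖) atTop atTop) :
    Tendsto (fun n => sph g P (z n)) atTop (𝓝 c) ↔
      Tendsto (fun n => sph (deriv g) P (z n)) atTop (𝓝 c) := by
  have hev : ∀ R : ℝ, ∀ᶠ n in atTop, R < ‖z n‖ := fun R => hz.eventually (eventually_gt_atTop R)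
  -- transfer of the distance condition
  have htr : ∀ {u v : ℂ → ℂ}, (∀ ε > 0, ∃ δ > 0, ∃ R : ℝ, ∀ z ∉ P, R < ‖z‖ → ‖u z - b‖ < δ →
      ‖v z - b‖ < ε) → (∃ δ > 0, ∀ᶠ n in atTop, z n ∈ P ∨ δ < ‖v (z n) - b‖) →
      (∃ δ > 0, ∀ᶠ n in atTop, z n ∈ P ∨ δ < ‖u (z n) - b‖) := by
    rintro u v huv ⟨δ, hδ, h1⟩
    obtain ⟨δ', hδ', R, hR⟩ := huv δ hδ
    refine ⟨δ' / 2, by positivity, ?_⟩
    filter_upwards [h1, hev R] with n hn1 hn2
    by_cases hzP : z n ∈ P
    · exact Or.inl hzP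
    · right
      by_contra h2
      push Not at h2
      have h3 := hR (z n) hzP hn2 (by linarith)
      have h4 := hn1.resolve_left hzP
      linarith
  have hdiff : (∃ δ > 0, ∀ᶠ n in atTop, z n ∈ P ∨ δ < ‖g (z n) - b‖) →
      Tendsto (fun n => phi (deriv g) P b (z n) - phi g P b (z n)) atTop (𝓝 0) := by
    rintro ⟨δ, hδ, h1⟩
    rw [Metric.tendsto_nhds]
    intro ε hε
    obtain ⟨R, hR⟩ := hconcl δ hδ (ε / 2) (by positivity)
    filter_upwards [h1, hev R] with n hn1 hn2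
    rw [dist_zero_right]
    have := hR (z n) hn2 hn1
    linarith
  -- the key equivalence
  have hkey : (∃ δ > 0, ∀ᶠ n in atTop, z n ∈ P ∨ δ < ‖g (z n) - b‖) → ∀ x : ℂ,
      (Tendsto (fun n => phi g P b (z n)) atTop (𝓝 x) ↔
        Tendsto (fun n => phi (deriv g) P b (z n)) atTop (𝓝 x)) := by
    intro h1 x
    have h2 := hdiff h1
    constructor
    · intro h3
      have h4 := h3.add h2
      simpa using h4
    · intro h3
      have h4 := h3.sub h2
      simpa using h4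
  have haway : ∀ {u : ℂ → ℂ} {x : ℂ}, x ≠ b → (∀ ε > 0, ∀ᶠ n in atTop, z n ∉ P ∧
      ‖u (z n) - x‖ < ε) → ∃ δ > 0, ∀ᶠ n in atTop, z n ∈ P ∨ δ < ‖u (z n) - b‖ := by
    intro u x hx h1
    have hxb : 0 < ‖x - b‖ := norm_pos_iff.2 (sub_ne_zero.2 hx)
    refine ⟨‖x - b‖ / 2, by positivity, ?_⟩
    filter_upwards [h1 (‖x - b‖ / 2) (by positivity)] with n hn
    right
    have h2 : ‖x - b‖ ≤ ‖u (z n) - b‖ + ‖u (z n) - x‖ := by
      have := norm_sub_le (u (z n) - b) (u (z n) - x)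
      simpa using this
    linarith [hn.2]
  induction c using OnePoint.rec with
  | infty =>
    rw [tendsto_sph_infty, tendsto_sph_infty, tendsto_phi_of_infty (b := b),
      tendsto_phi_of_infty (b := b)]
    constructor
    · rintro ⟨h1, h2⟩
      exact ⟨htr hbwd h1, (hkey h1 0).1 h2⟩
    · rintro ⟨h1, h2⟩
      have h3 := htr hfwd h1
      exact ⟨h3, (hkey h3 0).2 h2⟩
  | coe c =>
    rw [tendsto_sph_coe, tendsto_sph_coe]
    by_cases hcb : c = b
    · subst hcb
      constructor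
      · intro h1 ε hε
        obtain ⟨δ, hδ, R, hR⟩ := hfwd ε hε
        filter_upwards [h1 δ hδ, hev R] with n hn1 hn2
        exact ⟨hn1.1, hR _ hn1.1 hn2 hn1.2⟩
      · intro h1 ε hε
        obtain ⟨δ, hδ, R, hR⟩ := hbwd ε hε
        filter_upwards [h1 δ hδ, hev R] with n hn1 hn2
        exact ⟨hn1.1, hR _ hn1.1 hn2 hn1.2⟩
    · constructor
      · intro h1
        have h2 := haway hcb h1
        rw [tendsto_phi_of_coe hcb] at h1 ⊢
        exact (hkey h2 _).1 h1
      · intro h1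
        have h2 := htr hfwd (haway hcb h1)
        rw [tendsto_phi_of_coe hcb] at h1 ⊢
        exact (hkey h2 _).2 h1

end sphere

section mero

lemma sinv_zero : sinv 0 = OnePoint.infty := by simp [sinv]

lemma sinv_of_ne {x : ℂ} (hx : x ≠ 0) : sinv x = ((x⁻¹ : ℂ) : OnePoint ℂ) := by
  simp [sinv, hx]

/-- A meromorphic function is described by its finite part and its set of poles. -/
lemma IsMero.goodFn {F : ℂ → OnePoint ℂ} (hF : IsMero F) :
    GoodFn (fun w => toC (F w)) {w | F w = OnePoint.infty} := by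
  obtain ⟨hhol, z₀, hz₀⟩ := hF
  -- `F` is not `∞` on an open set
  set A : Set ℂ := {z | ∀ᶠ w in 𝓝 z, F w = OnePoint.infty} with hA
  have hAself : ∀ w ∈ A, F w = OnePoint.infty := fun w hw =>
    (show ∀ᶠ u in 𝓝 w, F u = OnePoint.infty from hw).self_of_nhds
  have hAopen : IsOpen A := by
    rw [isOpen_iff_mem_nhds]
    intro z hz
    exact eventually_eventually_nhds.2 hz
  have hAclosed : IsClosed A := by
    rw [← isOpen_compl_iff, isOpen_iff_mem_nhds]
    intro z hz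
    rcases hhol z with ⟨h, -, hFh⟩ | ⟨h, hh, hz0, hFh⟩
    · filter_upwards [hFh] with w hw hwA
      have h1 : F w = OnePoint.infty := hAself w hwA
      rw [h1] at hw
      exact OnePoint.infty_ne_coe _ hw
    · have hne : ∀ᶠ w in 𝓝[≠] z, h w ≠ 0 := by
        rcases hh.eventually_eq_zero_or_eventually_ne_zero with h1 | h1
        · exfalso
          apply hz
          filter_upwards [h1, hFh] with w hw1 hw2
          rw [hw2, hw1, sinv_zero]
        · exact h1
      rw [eventually_nhdsWithin_iff] at hne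
      filter_upwards [hne, hFh] with w hw1 hw2
      by_cases hwz : w = z
      · rw [hwz]
        exact hz
      · intro hwA
        have h1 : F w = OnePoint.infty := hAself w hwA
        rw [sinv_of_ne (hw1 hwz), h1] at hw2
        exact OnePoint.infty_ne_coe _ hw2
  have hAempty : A = ∅ := by
    rcases isClopen_iff.1 ⟨hAclosed, hAopen⟩ with h1 | h1
    · exact h1
    · exfalso
      have h2 : z₀ ∈ A := by rw [h1]; exact mem_univ _
      exact hz₀ (hAself z₀ h2)
  refine ⟨?_, ?_, ?_⟩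
  · rw [← isOpen_compl_iff, isOpen_iff_mem_nhds]
    intro z hz
    rcases hhol z with ⟨h, -, hFh⟩ | ⟨h, hh, hz0, hFh⟩
    · filter_upwards [hFh] with w hw hw1
      have hw1' : F w = OnePoint.infty := hw1
      rw [hw1'] at hw
      exact OnePoint.infty_ne_coe _ hw
    · exfalso
      apply hz
      show F z = OnePoint.infty
      rw [hFh.self_of_nhds, hz0, sinv_zero]
  · intro z hz
    rcases hhol z with ⟨h, hh, hFh⟩ | ⟨h, hh, hz0, hFh⟩
    · refine hh.congr ?_
      filter_upwards [hFh] with w hw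
      rw [hw, toC_coe]
    · exfalso
      apply hz
      show F z = OnePoint.infty
      rw [hFh.self_of_nhds, hz0, sinv_zero]
  · intro z hz K
    have hz' : F z = OnePoint.infty := hz
    rcases hhol z with ⟨h, hh, hFh⟩ | ⟨h, hh, hz0, hFh⟩
    · exfalso
      have h1 := hFh.self_of_nhds
      rw [hz'] at h1
      exact OnePoint.infty_ne_coe _ h1
    · have hne : ∀ᶠ w in 𝓝[≠] z, h w ≠ 0 := by
        rcases hh.eventually_eq_zero_or_eventually_ne_zero with h1 | h1
        · exfalso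
          have h2 : z ∈ A := by
            filter_upwards [h1, hFh] with w hw1 hw2
            rw [hw2, hw1, sinv_zero]
          rw [hAempty] at h2
          exact h2
        · exact h1
      have hsmall : ∀ᶠ w in 𝓝[≠] z, ‖h w‖ < (|K| + 1)⁻¹ := by
        have h1 : ContinuousAt (fun w => ‖h w‖) z := hh.continuousAt.norm
        have h2 : ‖h z‖ < (|K| + 1)⁻¹ := by
          rw [hz0, norm_zero]
          positivity
        exact (h1.eventually (gt_mem_nhds h2)).filter_mono nhdsWithin_le_nhds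
      filter_upwards [hne, hsmall, hFh.filter_mono nhdsWithin_le_nhds] with w hw1 hw2 hw3
      rw [sinv_of_ne hw1] at hw3
      refine ⟨?_, ?_⟩
      · intro h1
        have h1' : F w = OnePoint.infty := h1
        rw [h1'] at hw3
        exact OnePoint.infty_ne_coe _ hw3
      · rw [hw3, toC_coe, norm_inv]
        have h1 : |K| + 1 < ‖h w‖⁻¹ := by
          rw [lt_inv_comm₀ (by positivity) (norm_pos_iff.2 hw1)]
          exact hw2
        have := le_abs_self K
        linarith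

/-- Sequences give `ε`-`δ` statements near infinity. -/
lemma eps_of_seq {u v : ℂ → ℂ} {P : Set ℂ} {b : ℂ}
    (h : ∀ z : ℕ → ℂ, Tendsto (fun n => ‖z n‖) atTop atTop →
      Tendsto (fun n => sph u P (z n)) atTop (𝓝 (b : OnePoint ℂ)) →
      Tendsto (fun n => sph v P (z n)) atTop (𝓝 (b : OnePoint ℂ))) :
    ∀ ε > 0, ∃ δ > 0, ∃ R : ℝ, ∀ z ∉ P, R < ‖z‖ → ‖u z - b‖ < δ → ‖v z - b‖ < ε := by
  intro ε hε
  by_contra hcon
  push Not at hcon
  have h1 : ∀ n : ℕ, ∃ z ∉ P, (n : ℝ) < ‖z‖ ∧ ‖u z - b‖ < 1 / ((n : ℝ) + 1) ∧ ε ≤ ‖v z - b‖ := by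
    intro n
    obtain ⟨z, hz, h2, h3, h4⟩ := hcon (1 / ((n : ℝ) + 1)) (by positivity) n
    exact ⟨z, hz, h2, h3, h4⟩
  choose z hz hzn hzu hzv using h1
  have hzt : Tendsto (fun n => ‖z n‖) atTop atTop :=
    tendsto_atTop_mono (fun n => (hzn n).le) tendsto_natCast_atTop_atTop
  have h2 : Tendsto (fun n => sph u P (z n)) atTop (𝓝 (b : OnePoint ℂ)) := by
    rw [tendsto_sph_coe]
    intro ε' hε'
    have h3 : ∀ᶠ n : ℕ in atTop, 1 / ((n : ℝ) + 1) < ε' :=
      tendsto_one_div_add_atTop_nhds_zero_nat.eventually (gt_mem_nhds hε')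
    filter_upwards [h3] with n hn
    exact ⟨hz n, (hzu n).trans hn⟩
  have h3 := h z hzt h2
  rw [tendsto_sph_coe] at h3
  obtain ⟨n, hn⟩ := (h3 ε hε).exists
  exact absurd hn.2 (not_lt.2 (hzv n))

lemma SharedLimitValue.fwd {F : ℂ → OnePoint ℂ} {b : ℂ}
    (h : SharedLimitValue F (mderiv F) (b : OnePoint ℂ)) :
    ∀ ε > 0, ∃ δ > 0, ∃ R : ℝ, ∀ z ∉ {w | F w = OnePoint.infty}, R < ‖z‖ →
      ‖toC (F z) - b‖ < δ → ‖deriv (fun w => toC (F w)) z - b‖ < ε := by
  refine eps_of_seq (u := fun w => toC (F w)) (v := deriv (fun w => toC (F w))) ?_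
  intro z hz h1
  have h2 := (h z hz).1 (h1.congr fun n => (eq_sph F (z n)).symm)
  exact h2

lemma SharedLimitValue.bwd {F : ℂ → OnePoint ℂ} {b : ℂ}
    (h : SharedLimitValue F (mderiv F) (b : OnePoint ℂ)) :
    ∀ ε > 0, ∃ δ > 0, ∃ R : ℝ, ∀ z ∉ {w | F w = OnePoint.infty}, R < ‖z‖ →
      ‖deriv (fun w => toC (F w)) z - b‖ < δ → ‖toC (F z) - b‖ < ε := by
  refine eps_of_seq (u := deriv (fun w => toC (F w))) (v := fun w => toC (F w)) ?_
  intro z hz h1
  have h2 := (h z hz).2 h1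
  exact h2.congr fun n => eq_sph F (z n)

/-- The final deduction for maps into the sphere. -/
theorem shared_all {F : ℂ → OnePoint ℂ} {b : ℂ}
    (h : SharedLimitValue F (mderiv F) (b : OnePoint ℂ))
    (hconcl : ∀ δ > 0, ∀ η > 0, ∃ R : ℝ, ∀ z, R < ‖z‖ →
      (z ∈ {w | F w = OnePoint.infty} ∨ δ < ‖toC (F z) - b‖) →
      ‖phi (deriv (fun w => toC (F w))) {w | F w = OnePoint.infty} b z -
        phi (fun w => toC (F w)) {w | F w = OnePoint.infty} b z‖ ≤ η) (c : OnePoint ℂ) :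
    SharedLimitValue F (mderiv F) c := by
  intro z hz
  have h1 := shared_of_concl (g := fun w => toC (F w)) (P := {w | F w = OnePoint.infty}) (b := b)
    h.fwd h.bwd hconcl c hz
  have h2 : (fun n => F (z n)) =
      fun n => sph (fun w => toC (F w)) {w | F w = OnePoint.infty} (z n) :=
    funext fun n => eq_sph F (z n)
  rw [h2]
  exact h1

end mero

end MP_35e7b7_an
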