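import Mathlib
import Pool.Agent.Lib.MP_35e7b7_an.Sphere

/-!
# Non-rational meromorphic functions come near every value near infinity
-/

open Filter Topology Metric Set

namespace MP_35e7b7_an

section polynomial_growth

/-- An entire function of polynomial growth is a polynomial. -/
lemma poly_of_growth (N : ℕ) : ∀ (E : ℂ → ℂ), Differentiable ℂ E →
    (∃ C : ℝ, ∀ z, ‖E z‖ ≤ C * (1 + ‖z‖) ^ N) → ∃ q : Polynomial ℂ, ∀ z, E z = q.eval z := by
  induction N with
  | zero =>
    rintro E hE ⟨C, hC⟩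
    refine ⟨Polynomial.C (E 0), fun z => ?_⟩
    rw [Polynomial.eval_C]
    refine hE.apply_eq_apply_of_bounded (isBounded_iff_forall_norm_le.2 ⟨C, ?_⟩) z 0
    rintro _ ⟨z, rfl⟩
    simpa using hC z
  | succ N ih =>
    rintro E hE ⟨C, hC⟩
    have h1 : Differentiable ℂ (dslope E 0) := by
      rw [← differentiableOn_univ, Complex.differentiableOn_dslope univ_mem]
      exact hE.differentiableOn
    have hC0 : 0 ≤ C := by
      have := (norm_nonneg _).trans (hC 0)
      simpa using this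
    obtain ⟨D, hD⟩ := (isCompact_closedBall (0 : ℂ) 1).exists_bound_of_continuousOn
      h1.continuous.continuousOn
    have hD0 : 0 ≤ D := (norm_nonneg _).trans (hD 0 (mem_closedBall_self zero_le_one))
    have hb : ∀ z, ‖dslope E 0 z‖ ≤ (4 * C + D) * (1 + ‖z‖) ^ N := by
      intro z
      have hpow : (1 : ℝ) ≤ (1 + ‖z‖) ^ N := one_le_pow₀ (by linarith [norm_nonneg z])
      by_cases hz : ‖z‖ ≤ 1
      · have h2 := hD z (by rwa [mem_closedBall_zero_iff])
        calc ‖dslope E 0 z‖ ≤ D := h2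
          _ ≤ D * (1 + ‖z‖) ^ N := le_mul_of_one_le_right hD0 hpow
          _ ≤ (4 * C + D) * (1 + ‖z‖) ^ N := by
              gcongr
              linarith
      · push Not at hz
        have hz0 : 0 < ‖z‖ := by linarith
        have h2 := sub_smul_dslope E 0 z
        rw [sub_zero, smul_eq_mul] at h2
        have h3 : ‖z‖ * ‖dslope E 0 z‖ ≤ C * (1 + ‖z‖) ^ (N + 1) + C := by
          rw [← norm_mul, h2]
          refine (norm_sub_le _ _).trans (add_le_add (hC z) ?_)
          simpa using hC 0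
        have h4 : C * (1 + ‖z‖) ^ (N + 1) + C ≤ ‖z‖ * (4 * C * (1 + ‖z‖) ^ N) := by
          have h5 : (1 + ‖z‖) ^ (N + 1) = (1 + ‖z‖) ^ N * (1 + ‖z‖) := pow_succ _ _
          rw [h5]
          have h6 : C ≤ C * (1 + ‖z‖) ^ N := le_mul_of_one_le_right hC0 hpow
          have h7 : 0 ≤ C * (1 + ‖z‖) ^ N := by positivity
          nlinarith
        have h8 : ‖dslope E 0 z‖ ≤ 4 * C * (1 + ‖z‖) ^ N :=
          le_of_mul_le_mul_left (h3.trans h4) hz0
        calc ‖dslope E 0 z‖ ≤ 4 * C * (1 + ‖z‖) ^ N := h8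
          _ ≤ (4 * C + D) * (1 + ‖z‖) ^ N := by
              gcongr
              linarith
    obtain ⟨q, hq⟩ := ih (dslope E 0) h1 ⟨4 * C + D, hb⟩
    refine ⟨Polynomial.C (E 0) + Polynomial.X * q, fun z => ?_⟩
    have h2 := sub_smul_dslope E 0 z
    rw [sub_zero, smul_eq_mul, hq z] at h2
    rw [Polynomial.eval_add, Polynomial.eval_C, Polynomial.eval_mul, Polynomial.eval_X, h2]
    ring

/-- Polynomials have polynomial growth. -/
lemma growth_of_poly (p : Polynomial ℂ) :
    ∃ C : ℝ, 0 ≤ C ∧ ∀ z, ‖p.eval z‖ ≤ C * (1 + ‖z‖) ^ p.natDegree := by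
  refine ⟨∑ i ∈ Finset.range (p.natDegree + 1), ‖p.coeff i‖,
    Finset.sum_nonneg fun i _ => norm_nonneg _, fun z => ?_⟩
  rw [Polynomial.eval_eq_sum_range, Finset.sum_mul]
  refine (norm_sum_le _ _).trans (Finset.sum_le_sum fun i hi => ?_)
  rw [norm_mul, norm_pow]
  have h1 : i ≤ p.natDegree := by
    have := Finset.mem_range.1 hi
    omega
  have h2 : ‖z‖ ^ i ≤ (1 + ‖z‖) ^ p.natDegree := by
    calc ‖z‖ ^ i ≤ (1 + ‖z‖) ^ i := by
          gcongr
          linarith
      _ ≤ (1 + ‖z‖) ^ p.natDegree := pow_le_pow_right₀ (by linarith [norm_nonneg z]) h1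
  gcongr

/-- Reduction of a fraction. -/
lemma exists_coprime (p q : Polynomial ℂ) (hq : q ≠ 0) :
    ∃ d p' q' : Polynomial ℂ, p = d * p' ∧ q = d * q' ∧ IsCoprime p' q' ∧ q' ≠ 0 := by
  classical
  set d := EuclideanDomain.gcd p q with hd
  obtain ⟨p', hp'⟩ := EuclideanDomain.gcd_dvd_left p q
  obtain ⟨q', hq'⟩ := EuclideanDomain.gcd_dvd_right p q
  have hd0 : d ≠ 0 := by
    intro h0
    apply hq
    rw [hq', ← hd, h0, zero_mul]
  refine ⟨d, p', q', hp', hq', ?_, ?_⟩
  · have h1 := EuclideanDomain.gcd_eq_gcd_ab p q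
    refine ⟨EuclideanDomain.gcdA p q, EuclideanDomain.gcdB p q, ?_⟩
    have h2 : d * (EuclideanDomain.gcdA p q * p' + EuclideanDomain.gcdB p q * q') = d * 1 := by
      calc d * (EuclideanDomain.gcdA p q * p' + EuclideanDomain.gcdB p q * q')
          = (d * p') * EuclideanDomain.gcdA p q + (d * q') * EuclideanDomain.gcdB p q := by ring
        _ = p * EuclideanDomain.gcdA p q + q * EuclideanDomain.gcdB p q := by
            rw [hd, ← hp', ← hq']
        _ = d * 1 := by rw [← h1, mul_one]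
    exact mul_left_cancel₀ hd0 h2
  · intro h0
    apply hq
    rw [hq', h0, mul_zero]

end polynomial_growth

section cw

variable {g : ℂ → ℂ} {P : Set ℂ} {b : ℂ}

/-- A meromorphic function that stays away from `b` near infinity is rational. -/
theorem cw_aux (h : GoodFn g P) {ε R : ℝ} (hε : 0 < ε)
    (hfar : ∀ z ∉ P, R < ‖z‖ → ε ≤ ‖g z - b‖) :
    ∃ p q : Polynomial ℂ, IsCoprime p q ∧ q ≠ 0 ∧
      ∀ z, (z ∈ P → q.eval z = 0) ∧ (z ∉ P → q.eval z ≠ 0 ∧ g z = p.eval z / q.eval z) := by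
  -- poles are isolated
  have hPne : ∀ z, ∀ᶠ w in 𝓝[≠] z, w ∉ P := by
    intro z
    by_cases hz : z ∈ P
    · filter_upwards [h.blow z hz 0] with w hw using hw.1
    · exact (h.eventually_not_mem hz).filter_mono nhdsWithin_le_nhds
  -- a point with `g ≠ b`
  obtain ⟨z₁, hz₁P, hz₁R, hz₁b⟩ : ∃ z, z ∉ P ∧ R < ‖z‖ ∧ g z ≠ b := by
    have h1 : ∀ᶠ w in 𝓝[≠] ((|R| + 1 : ℝ) : ℂ), R < ‖w‖ := by
      have h2 : R < ‖((|R| + 1 : ℝ) : ℂ)‖ := by
        rw [Complex.norm_real, Real.norm_eq_abs, abs_of_pos (by positivity)]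
        linarith [le_abs_self R]
      exact (continuous_norm.continuousAt.eventually (lt_mem_nhds h2)).filter_mono
        nhdsWithin_le_nhds
    obtain ⟨w, hw1, hw2⟩ := ((hPne ((|R| + 1 : ℝ) : ℂ)).and h1).exists
    refine ⟨w, hw1, hw2, fun h3 => ?_⟩
    have h4 := hfar w hw1 hw2
    rw [h3, sub_self, norm_zero] at h4
    linarith
  -- `b`-points are isolated
  set u : ℂ → ℂ := fun z => g z - b with hu
  have hum : ∀ z, MeromorphicAt u z := fun z => (h.meromorphicAt z).sub (MeromorphicAt.const b z)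
  have huo : ∀ z, ∀ᶠ w in 𝓝[≠] z, u w ≠ 0 := by
    intro z
    rw [← meromorphicOrderAt_ne_top_iff_eventually_ne_zero (hum z)]
    refine MeromorphicOn.meromorphicOrderAt_ne_top_of_isPreconnected (U := univ) (x := z₁)
      (fun w _ => hum w) isPreconnected_univ (mem_univ _) (mem_univ _) ?_
    rw [meromorphicOrderAt_ne_top_iff_eventually_ne_zero (hum z₁)]
    have h1 : ContinuousAt u z₁ := (h.differentiableAt hz₁P).continuousAt.sub continuousAt_const
    exact (h1.eventually_ne (sub_ne_zero.2 hz₁b)).filter_mono nhdsWithin_le_nhds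
  set Z : Set ℂ := {z | z ∉ P ∧ g z = b} with hZ
  have hZsub : Z ⊆ closedBall 0 R := by
    rintro z ⟨hz1, hz2⟩
    rw [mem_closedBall_zero_iff]
    by_contra h1
    push Not at h1
    have h2 := hfar z hz1 h1
    rw [hz2, sub_self, norm_zero] at h2
    linarith
  have hZfin : Z.Finite := by
    by_contra hinf
    obtain ⟨x, -, hx⟩ := Set.Infinite.exists_accPt_of_subset_isCompact hinf
      (isCompact_closedBall (0 : ℂ) R) hZsub
    rw [accPt_iff_frequently_nhdsNE] at hx
    obtain ⟨w, hw1, hw2⟩ := (hx.and_eventually (huo x)).exists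
    exact hw2 (sub_eq_zero.2 hw1.2)
  -- the function `φ`
  set φ : ℂ → ℂ := phi g P b with hφ
  have hφm : ∀ z, MeromorphicAt φ z := by
    intro z
    refine (hum z).inv.congr ?_
    filter_upwards [hPne z] with w hw
    rw [hφ, phi_of_not_mem hw]
    rfl
  choose n hn using hφm
  set p : Polynomial ℂ := ∏ β ∈ hZfin.toFinset, (Polynomial.X - Polynomial.C β) ^ n β with hp
  have hpeval : ∀ z, p.eval z = ∏ β ∈ hZfin.toFinset, (z - β) ^ n β := by
    intro z
    rw [hp, Polynomial.eval_prod]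
    refine Finset.prod_congr rfl fun β _ => ?_
    simp
  have hpne : ∀ z ∉ Z, p.eval z ≠ 0 := by
    intro z hz
    rw [hpeval, Finset.prod_ne_zero_iff]
    intro β hβ
    refine pow_ne_zero _ (sub_ne_zero.2 ?_)
    rintro rfl
    exact hz (hZfin.mem_toFinset.1 hβ)
  have hEa : ∀ z, AnalyticAt ℂ (fun w => p.eval w * φ w) z := by
    intro z
    by_cases hz : z ∈ Z
    · have hz' : z ∈ hZfin.toFinset := hZfin.mem_toFinset.2 hz
      have h1 : (fun w => p.eval w * φ w) = fun w =>
          (∏ β ∈ hZfin.toFinset.erase z, (w - β) ^ n β) * ((w - z) ^ n z • φ w) := by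
        funext w
        rw [hpeval, ← Finset.mul_prod_erase _ _ hz', smul_eq_mul]
        ring
      rw [h1]
      refine AnalyticAt.mul ?_ (hn z)
      have h2 : Differentiable ℂ (fun w : ℂ => ∏ β ∈ hZfin.toFinset.erase z, (w - β) ^ n β) := by
        fun_prop
      exact h2.analyticAt z
    · refine AnalyticAt.mul ?_ (h.phi_anal b fun hz1 hz2 => hz ⟨hz1, hz2⟩)
      exact (Polynomial.differentiable p).analyticAt z
  obtain ⟨C, hC0, hC⟩ := growth_of_poly p
  set N := p.natDegree with hN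
  obtain ⟨q, hq⟩ : ∃ q : Polynomial ℂ, ∀ z, p.eval z * φ z = q.eval z := by
    refine poly_of_growth N _ (fun z => (hEa z).differentiableAt) ?_
    have hcont : Continuous (fun w => p.eval w * φ w) :=
      continuous_iff_continuousAt.2 fun z => (hEa z).continuousAt
    obtain ⟨D, hD⟩ := (isCompact_closedBall (0 : ℂ) R).exists_bound_of_continuousOn
      hcont.continuousOn
    refine ⟨C * ε⁻¹ + |D|, fun z => ?_⟩
    have hpow : (1 : ℝ) ≤ (1 + ‖z‖) ^ N := one_le_pow₀ (by linarith [norm_nonneg z])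
    by_cases hz : ‖z‖ ≤ R
    · have h1 := hD z (by rwa [mem_closedBall_zero_iff])
      calc ‖p.eval z * φ z‖ ≤ |D| := h1.trans (le_abs_self D)
        _ ≤ |D| * (1 + ‖z‖) ^ N := le_mul_of_one_le_right (abs_nonneg D) hpow
        _ ≤ (C * ε⁻¹ + |D|) * (1 + ‖z‖) ^ N := by
            gcongr
            have : 0 ≤ C * ε⁻¹ := by positivity
            linarith
    · push Not at hz
      have h1 : ‖φ z‖ ≤ ε⁻¹ := by
        by_cases hzP : z ∈ P
        · rw [hφ, phi_of_mem hzP, norm_zero]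
          positivity
        · rw [hφ, phi_of_not_mem hzP, norm_inv]
          exact inv_anti₀ hε (hfar z hzP hz)
      calc ‖p.eval z * φ z‖ ≤ (C * (1 + ‖z‖) ^ N) * ε⁻¹ := by
            rw [norm_mul]
            have := hC z
            gcongr
        _ = (C * ε⁻¹) * (1 + ‖z‖) ^ N := by ring
        _ ≤ (C * ε⁻¹ + |D|) * (1 + ‖z‖) ^ N := by
            gcongr
            linarith [abs_nonneg D]
  have hq0 : q ≠ 0 := by
    intro h0
    have h1 := hq z₁
    rw [h0, Polynomial.eval_zero, hφ, phi_of_not_mem hz₁P] at h1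
    exact mul_ne_zero (hpne z₁ fun h2 => hz₁b h2.2) (inv_ne_zero (sub_ne_zero.2 hz₁b)) h1
  obtain ⟨d, p₁, q₁, hpd, hqd, hcop, hq₁⟩ := exists_coprime p q hq0
  have hdne : ∀ z ∉ Z, d.eval z ≠ 0 := by
    intro z hz h0
    apply hpne z hz
    rw [hpd, Polynomial.eval_mul, h0, zero_mul]
  -- off the poles
  have hoff : ∀ z ∉ P, g z ≠ b → q₁.eval z * (g z - b) = p₁.eval z := by
    intro z hzP hzb
    have hzZ : z ∉ Z := fun h1 => hzb h1.2
    have h1 := hq z
    have hgb : g z - b ≠ 0 := sub_ne_zero.2 hzb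
    rw [hφ, phi_of_not_mem hzP, hpd, hqd, Polynomial.eval_mul, Polynomial.eval_mul] at h1
    have h2 : d.eval z * (q₁.eval z * (g z - b)) = d.eval z * p₁.eval z := by
      have h3 : d.eval z * p₁.eval z = d.eval z * q₁.eval z * (g z - b) := by
        rw [← h1]
        field_simp
      rw [h3]
      ring
    exact mul_left_cancel₀ (hdne z hzZ) h2
  have hoff' : ∀ z ∉ P, q₁.eval z * (g z - b) = p₁.eval z := by
    intro z hzP
    have h1 : Tendsto (fun w => q₁.eval w * (g w - b)) (𝓝[≠] z) (𝓝 (q₁.eval z * (g z - b))) := by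
      have h2 : ContinuousAt (fun w => q₁.eval w * (g w - b)) z :=
        (Polynomial.continuous q₁).continuousAt.mul
          ((h.differentiableAt hzP).continuousAt.sub continuousAt_const)
      exact h2.tendsto.mono_left nhdsWithin_le_nhds
    have h3 : Tendsto (fun w => p₁.eval w) (𝓝[≠] z) (𝓝 (p₁.eval z)) :=
      ((Polynomial.continuous p₁).tendsto z).mono_left nhdsWithin_le_nhds
    refine tendsto_nhds_unique (h1.congr' ?_) h3
    filter_upwards [hPne z, huo z] with w hw1 hw2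
    exact hoff w hw1 (sub_ne_zero.1 hw2)
  have hcop' : ∀ z, q₁.eval z = 0 → p₁.eval z ≠ 0 := by
    intro z h1 h2
    obtain ⟨r, s, hrs⟩ := hcop
    have h3 := congrArg (Polynomial.eval z) hrs
    rw [Polynomial.eval_add, Polynomial.eval_mul, Polynomial.eval_mul, h1, h2, mul_zero, mul_zero,
      add_zero, Polynomial.eval_one] at h3
    exact zero_ne_one h3
  refine ⟨p₁ + q₁ * Polynomial.C b, q₁, hcop.add_mul_left_left _, hq₁, fun z => ⟨fun hz => ?_,
    fun hz => ?_⟩⟩
  · have hzZ : z ∉ Z := fun h1 => h1.1 hz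
    have h1 := hq z
    rw [hφ, phi_of_mem hz, mul_zero, hqd, Polynomial.eval_mul] at h1
    exact (mul_eq_zero.1 h1.symm).resolve_left (hdne z hzZ)
  · have h1 := hoff' z hz
    have h2 : q₁.eval z ≠ 0 := by
      intro h0
      apply hcop' z h0
      rw [← h1, h0, zero_mul]
    refine ⟨h2, ?_⟩
    rw [eq_div_iff h2, Polynomial.eval_add, Polynomial.eval_mul, Polynomial.eval_C, ← h1]
    ring

/-- A non-rational meromorphic function comes near every value near infinity. -/
theorem cw_main {F : ℂ → OnePoint ℂ} (hF : IsMero F) (hFr : ¬ IsRational F) (b : ℂ) {ε : ℝ}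
    (hε : 0 < ε) (R : ℝ) : ∃ z, R < ‖z‖ ∧ F z ≠ OnePoint.infty ∧ ‖toC (F z) - b‖ < ε := by
  by_contra hcon
  push Not at hcon
  obtain ⟨p, q, hcop, hq, hpq⟩ := cw_aux (b := b) (R := R) hF.goodFn hε
    (fun z hz hzR => hcon z hzR hz)
  apply hFr
  refine ⟨p, q, hcop, hq, fun z => ?_⟩
  by_cases hz : F z = OnePoint.infty
  · rw [if_pos ((hpq z).1 hz), hz]
  · obtain ⟨h1, h2⟩ := (hpq z).2 hz
    rw [if_neg h1, ← h2]
    obtain ⟨w, hw⟩ := OnePoint.ne_infty_iff_exists.1 hz
    rw [← hw, toC_coe]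

end cw

end MP_35e7b7_an
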