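import Mathlib
import Pool.Agent.Lib.MP_35e7b7_an.Basic

/-!
# Case (i): two nonzero shared values

Let `g` be (the finite part of) a meromorphic function on the plane with `|g'| ≤ C (1 + |g|²)`,
such that `g z = c ↔ g' z = c` for `c = a, b`, where `a ≠ b` are nonzero, and such that `g'` is
close to `c` where `g` is close to `c`.  If `g` is not constant then `g z = c e^z`.
-/

open Filter Topology Metric Set

namespace MP_35e7b7_an

section liouville

/-- A function that is holomorphic and bounded away from a set without accumulation points is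
constant there. -/
lemma const_of_bounded_off {ψ : ℂ → ℂ} {E : Set ℂ} (hE : ∀ z, ∀ᶠ w in 𝓝[≠] z, w ∉ E)
    (hd : ∀ z ∉ E, DifferentiableAt ℂ ψ z) {C : ℝ} (hC : ∀ z ∉ E, ‖ψ z‖ ≤ C) :
    ∃ K, ∀ z ∉ E, ψ z = K := by
  set Ψ : ℂ → ℂ := fun z => limUnder (𝓝[≠] z) ψ with hΨ
  have hΨE : ∀ z ∉ E, Ψ z = ψ z := by
    intro z hz
    exact ((hd z hz).continuousAt.tendsto.mono_left nhdsWithin_le_nhds).limUnder_eq
  have hloc : ∀ z, ∃ ε > 0, ∀ w ∈ ball z ε, w ≠ z → w ∉ E := by
    intro z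
    have := hE z
    rw [eventually_nhdsWithin_iff, Metric.eventually_nhds_iff] at this
    obtain ⟨ε, hε, h⟩ := this
    exact ⟨ε, hε, fun w hw hwz => h hw hwz⟩
  have hΨd : Differentiable ℂ Ψ := by
    intro z
    obtain ⟨ε, hε, hz⟩ := hloc z
    have h1 : DifferentiableOn ℂ (Function.update ψ z (limUnder (𝓝[≠] z) ψ)) (ball z ε) := by
      apply Complex.differentiableOn_update_limUnder_of_bddAbove (ball_mem_nhds z hε)
      · intro w hw
        exact (hd w (hz w hw.1 hw.2)).differentiableWithinAt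
      · refine ⟨C, ?_⟩
        rintro _ ⟨w, hw, rfl⟩
        exact hC w (hz w hw.1 hw.2)
    have h2 := (h1.differentiableAt (ball_mem_nhds z hε))
    refine h2.congr_of_eventuallyEq ?_
    filter_upwards [ball_mem_nhds z hε] with w hw
    by_cases hwz : w = z
    · subst hwz
      simp [hΨ]
    · rw [Function.update_of_ne hwz, hΨE w (hz w hw hwz)]
  have hbdd : Bornology.IsBounded (range Ψ) := by
    rw [isBounded_iff_forall_norm_le]
    refine ⟨C, ?_⟩
    rintro _ ⟨z, rfl⟩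
    by_contra hlt
    push Not at hlt
    have hcont : ContinuousAt (fun w => ‖Ψ w‖) z := (hΨd z).continuousAt.norm
    have h1 : ∀ᶠ w in 𝓝[≠] z, C < ‖Ψ w‖ :=
      (hcont.eventually (lt_mem_nhds hlt)).filter_mono nhdsWithin_le_nhds
    obtain ⟨w, hw1, hw2⟩ := (h1.and (hE z)).exists
    rw [hΨE w hw2] at hw1
    linarith [hC w hw2]
  refine ⟨Ψ 0, fun z hz => ?_⟩
  rw [← hΨE z hz]
  exact hΨd.apply_eq_apply_of_bounded hbdd z 0

end liouville

section riccati

/-- A solution of a linear homogeneous equation that vanishes somewhere vanishes everywhere. -/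
lemma linear_ode {u c : ℂ → ℂ} (hc : Differentiable ℂ c)
    (hu : ∀ z, HasDerivAt u (c z * u z) z) :
    ∃ A : ℂ → ℂ, (∀ z, HasDerivAt A (c z) z) ∧ ∀ z z₀, u z = u z₀ * Complex.exp (A z - A z₀) := by
  obtain ⟨A, hA⟩ := hc.isExactOn_univ
  have hA' : ∀ z, HasDerivAt A (c z) z := fun z => hA z (mem_univ _)
  refine ⟨A, hA', fun z z₀ => ?_⟩
  have hd : ∀ w, HasDerivAt (fun w => u w * Complex.exp (-A w)) 0 w := by
    intro w
    have h1 : HasDerivAt (fun w => u w * Complex.exp (-A w))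
        (c w * u w * Complex.exp (-A w) + u w * (Complex.exp (-A w) * (-(c w)))) w :=
      (hu w).mul ((hA' w).neg.cexp)
    refine h1.congr_deriv ?_
    ring
  have hconst := is_const_of_deriv_eq_zero (fun w => (hd w).differentiableAt)
    (fun w => (hd w).deriv) z z₀
  have hconst' : u z * Complex.exp (-A z) = u z₀ * Complex.exp (-A z₀) := hconst
  calc u z = (u z * Complex.exp (-A z)) * Complex.exp (A z) := by
        rw [mul_assoc, ← Complex.exp_add]
        simp
    _ = u z₀ * Complex.exp (A z - A z₀) := by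
        rw [hconst', mul_assoc, ← Complex.exp_add]
        congr 2
        ring

/-- Entire solutions of a Riccati equation with constant coefficients and a nonzero quadratic
term are constant. -/
lemma riccati_const {Y : ℂ → ℂ} {α r₁ r₂ : ℂ} (hα : α ≠ 0)
    (hY : ∀ z, HasDerivAt Y (α * (Y z - r₁) * (Y z - r₂)) z) : ∀ z, Y z = Y 0 := by
  have hYd : Differentiable ℂ Y := fun z => (hY z).differentiableAt
  -- if `Y` takes the value `r₁` it is constant
  have key : ∀ r s : ℂ, (∀ z, HasDerivAt Y (α * (Y z - r) * (Y z - s)) z) → ∀ z₀, Y z₀ = r →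
      ∀ z, Y z = Y 0 := by
    intro r s hrs z₀ hz₀
    have h1 : ∀ z, HasDerivAt (fun z => Y z - r) ((α * (Y z - s)) * (Y z - r)) z := by
      intro z
      refine ((hrs z).sub_const r).congr_deriv ?_
      ring
    obtain ⟨A, -, hA⟩ := linear_ode (c := fun z => α * (Y z - s))
      ((hYd.sub_const s).const_mul α) h1
    have h2 : ∀ z, Y z = r := by
      intro z
      have := hA z z₀
      rw [hz₀, sub_self, zero_mul] at this
      exact sub_eq_zero.1 this
    intro z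
    rw [h2, h2]
  by_cases h1 : ∃ z₀, Y z₀ = r₁
  · obtain ⟨z₀, hz₀⟩ := h1
    exact key r₁ r₂ hY z₀ hz₀
  by_cases h2 : ∃ z₀, Y z₀ = r₂
  · obtain ⟨z₀, hz₀⟩ := h2
    exact key r₂ r₁ (fun z => (hY z).congr_deriv (by ring)) z₀ hz₀
  push Not at h1 h2
  exfalso
  have h1' : ∀ z, Y z - r₁ ≠ 0 := fun z => sub_ne_zero.2 (h1 z)
  have h2' : ∀ z, Y z - r₂ ≠ 0 := fun z => sub_ne_zero.2 (h2 z)
  by_cases hr : r₁ = r₂
  · subst hr
    have hn : ∀ z, HasDerivAt (fun z => (Y z - r₁)⁻¹ + α * z) 0 z := by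
      intro z
      have h3 := (((hY z).sub_const r₁).inv (h1' z)).add ((hasDerivAt_id z).const_mul α)
      refine h3.congr_deriv ?_
      have := h1' z
      field_simp
      ring
    have hconst : ∀ z, (Y z - r₁)⁻¹ + α * z = (Y 0 - r₁)⁻¹ + α * 0 := fun z =>
      is_const_of_deriv_eq_zero (fun w => (hn w).differentiableAt) (fun w => (hn w).deriv) z 0
    have h4 := hconst ((Y 0 - r₁)⁻¹ / α)
    rw [mul_div_cancel₀ _ hα, mul_zero, add_zero] at h4
    have h5 : (Y ((Y 0 - r₁)⁻¹ / α) - r₁)⁻¹ = 0 := by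
      have := add_eq_right.1 h4
      exact this
    exact inv_ne_zero (h1' _) h5
  · have hr' : α * (r₁ - r₂) ≠ 0 := mul_ne_zero hα (sub_ne_zero.2 hr)
    have hm : ∀ z, HasDerivAt (fun z => (Y z - r₁) / (Y z - r₂))
        ((α * (r₁ - r₂)) * ((Y z - r₁) / (Y z - r₂))) z := by
      intro z
      have h3 := ((hY z).sub_const r₁).div ((hY z).sub_const r₂) (h2' z)
      refine h3.congr_deriv ?_
      have := h2' z
      field_simp
      ring
    have hd : ∀ w, HasDerivAt (fun w => (Y w - r₁) / (Y w - r₂) *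
        Complex.exp (-(α * (r₁ - r₂) * w))) 0 w := by
      intro w
      have h4 : HasDerivAt (fun w => -(α * (r₁ - r₂) * w)) (-(α * (r₁ - r₂) * 1)) w :=
        ((hasDerivAt_id w).const_mul (α * (r₁ - r₂))).neg
      have h5 := (hm w).mul h4.cexp
      refine h5.congr_deriv ?_
      ring
    have hconst : ∀ z, (Y z - r₁) / (Y z - r₂) * Complex.exp (-(α * (r₁ - r₂) * z))
        = (Y 0 - r₁) / (Y 0 - r₂) * Complex.exp (-(α * (r₁ - r₂) * 0)) := fun z =>
      is_const_of_deriv_eq_zero (fun w => (hd w).differentiableAt) (fun w => (hd w).deriv) z 0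
    -- the value `1` is taken
    have hm0 : (Y 0 - r₁) / (Y 0 - r₂) ≠ 0 := div_ne_zero (h1' 0) (h2' 0)
    set m₀ := (Y 0 - r₁) / (Y 0 - r₂) with hm₀
    have h6 := hconst (-Complex.log m₀ / (α * (r₁ - r₂)))
    rw [mul_div_cancel₀ _ hr', neg_neg, mul_zero, neg_zero, Complex.exp_zero, mul_one,
      Complex.exp_log hm0] at h6
    have h7 : (Y (-Complex.log m₀ / (α * (r₁ - r₂))) - r₁) /
        (Y (-Complex.log m₀ / (α * (r₁ - r₂))) - r₂) = 1 := by
      exact mul_right_cancel₀ hm0 (by rw [h6, one_mul])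
    rw [div_eq_one_iff_eq (h2' _)] at h7
    exact hr (sub_right_injective h7)

end riccati

section near

variable {g : ℂ → ℂ} {P : Set ℂ}

/-- Near the points where `g` is close to a nonzero shared value `a`, the quotient
`(g' - g) / (g - a)` is bounded. -/
lemma GoodFn.near_bound (h : GoodFn g P) {a : ℂ} (ha : a ≠ 0)
    (h1 : ∀ z ∉ P, g z = a → deriv g z = a)
    (h2 : ∃ δ > 0, ∀ z ∉ P, ‖g z - a‖ < δ → ‖deriv g z - a‖ ≤ ‖a‖ / 2) :
    ∃ δ > 0, ∃ C : ℝ, ∀ z ∉ P, ‖g z - a‖ < δ → ‖deriv g z - g z‖ ≤ C * ‖g z - a‖ := by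
  obtain ⟨δ, hδ, h2⟩ := h2
  have hna : 0 < ‖a‖ := norm_pos_iff.2 ha
  -- the radius
  set ρ : ℝ := δ / (6 * ‖a‖) with hρ
  have hρ0 : 0 < ρ := by positivity
  have hBρ : 3 * ‖a‖ / 2 * ρ = δ / 4 := by
    rw [hρ]
    field_simp
    ring
  have hnd : ∀ w ∉ P, ‖g w - a‖ < δ → ‖deriv g w‖ ≤ 3 * ‖a‖ / 2 := by
    intro w hw hwa
    have h3 := h2 w hw hwa
    have h4 : ‖deriv g w‖ ≤ ‖deriv g w - a‖ + ‖a‖ := by
      simpa using norm_add_le (deriv g w - a) a
    linarith
  -- growth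
  have hgrow : ∀ z ∉ P, ‖g z - a‖ < δ / 4 → ∀ w ∈ ball z ρ, w ∉ P ∧ ‖g w - a‖ < δ := by
    intro z hz hza w hw
    have h3 := h.grow (b := a) (K := δ / 4) (L := δ / 2) (B := 3 * ‖a‖ / 2) (ρ := ρ) hz hza.le
      (by linarith) (fun w _ hw1 hw2 => hnd w hw1 (by linarith)) (by positivity)
      (by rw [hBρ]; linarith) w hw
    refine ⟨h3.1, h3.2.trans_lt ?_⟩
    have h4 : 3 * ‖a‖ / 2 * dist w z ≤ 3 * ‖a‖ / 2 * ρ := by
      have := (mem_ball.1 hw).le
      gcongr
    linarith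
  set r : ℝ := ρ / 4 with hr
  have hr0 : 0 < r := by positivity
  refine ⟨min (δ / 4) (‖a‖ * r / 4), lt_min (by positivity) (by positivity),
    (3 * ‖a‖ / 2 / r + 3 * ‖a‖ / 2) * (2 / ‖a‖), ?_⟩
  intro z hz hza
  have hza1 : ‖g z - a‖ < δ / 4 := hza.trans_le (min_le_left _ _)
  have hza2 : ‖g z - a‖ < ‖a‖ * r / 4 := hza.trans_le (min_le_right _ _)
  have hG := hgrow z hz hza1
  -- mean value estimate for `g w - a w`
  have hmv : ∀ w₁ ∈ ball z ρ, ∀ w₂ ∈ ball z ρ,
      ‖(g w₂ - a * w₂) - (g w₁ - a * w₁)‖ ≤ ‖a‖ / 2 * ‖w₂ - w₁‖ := by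
    intro w₁ hw₁ w₂ hw₂
    refine Convex.norm_image_sub_le_of_norm_hasDerivWithin_le (𝕜 := ℂ)
      (f := fun w => g w - a * w) (f' := fun w => deriv g w - a * 1) (s := ball z ρ)
      (fun w hw => ?_) (fun w hw => ?_) (convex_ball z ρ) hw₁ hw₂
    · exact (((h.differentiableAt (hG w hw).1).hasDerivAt).sub
        ((hasDerivAt_id w).const_mul a)).hasDerivWithinAt
    · rw [mul_one]
      exact h2 w (hG w hw).1 (hG w hw).2
  have hlow : ∀ w₁ ∈ ball z ρ, ∀ w₂ ∈ ball z ρ, ‖a‖ / 2 * ‖w₂ - w₁‖ ≤ ‖g w₂ - g w₁‖ := by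
    intro w₁ hw₁ w₂ hw₂
    have h3 := hmv w₁ hw₁ w₂ hw₂
    have h4 : a * (w₂ - w₁) = (g w₂ - g w₁) - ((g w₂ - a * w₂) - (g w₁ - a * w₁)) := by ring
    have h5 : ‖a‖ * ‖w₂ - w₁‖ ≤ ‖g w₂ - g w₁‖ + ‖(g w₂ - a * w₂) - (g w₁ - a * w₁)‖ := by
      rw [← norm_mul, h4]
      exact norm_sub_le _ _
    linarith
  have hzz : z ∈ ball z ρ := mem_ball_self hρ0
  have hrρ : closedBall z r ⊆ ball z ρ := closedBall_subset_ball (by rw [hr]; linarith)
  -- an `a`-point near `z`
  obtain ⟨ζ, hζ, hgζ⟩ : ∃ ζ ∈ closedBall z r, g ζ = a := by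
    have h3 : DiffContOnCl ℂ g (ball z r) := by
      refine DifferentiableOn.diffContOnCl (fun w hw => ?_)
      have hw' : w ∈ ball z ρ := hrρ (closure_ball_subset_closedBall hw)
      exact (h.differentiableAt (hG w hw').1).differentiableWithinAt
    have h4 : ∀ w ∈ sphere z r, ‖a‖ * r / 2 ≤ ‖g w - g z‖ := by
      intro w hw
      have h5 := hlow z hzz w (hrρ (sphere_subset_closedBall hw))
      rw [← dist_eq_norm w z, mem_sphere.1 hw] at h5
      linarith
    have h5 : ∃ᶠ w in 𝓝 z, g w ≠ g z := by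
      have h6 : ∀ᶠ w in 𝓝[≠] z, g w ≠ g z := by
        have h7 : ∀ᶠ w in 𝓝[≠] z, w ∈ ball z ρ := nhdsWithin_le_nhds (ball_mem_nhds z hρ0)
        filter_upwards [h7, self_mem_nhdsWithin] with w hw hwz
        intro heq
        have h8 := hlow z hzz w hw
        rw [heq, sub_self, norm_zero] at h8
        have h9 : 0 < ‖w - z‖ := norm_pos_iff.2 (sub_ne_zero.2 hwz)
        have : 0 < ‖a‖ / 2 * ‖w - z‖ := by positivity
        linarith
      exact h6.frequently.filter_mono nhdsWithin_le_nhds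
    have h6 := h3.ball_subset_image_closedBall hr0 h4 h5
    have h7 : a ∈ ball (g z) (‖a‖ * r / 2 / 2) := by
      rw [mem_ball, dist_comm, dist_eq_norm]
      linarith
    obtain ⟨ζ, hζ, hgζ⟩ := h6 h7
    exact ⟨ζ, hζ, hgζ⟩
  have hζρ : ζ ∈ ball z ρ := hrρ hζ
  have hdζ : deriv g ζ = a := h1 ζ (hG ζ hζρ).1 hgζ
  -- derivative bound for `g' - g`
  have hH : ‖(deriv g z - g z) - (deriv g ζ - g ζ)‖ ≤
      (3 * ‖a‖ / 2 / r + 3 * ‖a‖ / 2) * ‖z - ζ‖ := by
    refine Convex.norm_image_sub_le_of_norm_hasDerivWithin_le (𝕜 := ℂ)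
      (f := fun w => deriv g w - g w) (f' := fun w => deriv (deriv g) w - deriv g w)
      (s := closedBall z r) (fun w hw => ?_) (fun w hw => ?_) (convex_closedBall z r) hζ
      (mem_closedBall_self hr0.le)
    · exact (((h.anal w (hG w (hrρ hw)).1).deriv.differentiableAt.hasDerivAt).sub
        (h.differentiableAt (hG w (hrρ hw)).1).hasDerivAt).hasDerivWithinAt
    · have hw' := hG w (hrρ hw)
      refine (norm_sub_le _ _).trans (add_le_add ?_ (hnd w hw'.1 hw'.2))
      have hsub : closedBall w r ⊆ ball z ρ := by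
        intro u hu
        rw [mem_ball]
        have h3 := dist_triangle u w z
        have h4 := mem_closedBall.1 hu
        have h5 := mem_closedBall.1 hw
        have : ρ = 4 * r := by rw [hr]; ring
        linarith
      refine Complex.norm_deriv_le_of_forall_mem_sphere_norm_le hr0 ?_ (fun u hu => ?_)
      · refine DifferentiableOn.diffContOnCl (fun u hu => ?_)
        have hu' : u ∈ ball z ρ := hsub (closure_ball_subset_closedBall hu)
        exact (h.anal u (hG u hu').1).deriv.differentiableAt.differentiableWithinAt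
      · have hu' := hG u (hsub (sphere_subset_closedBall hu))
        exact hnd u hu'.1 hu'.2
  rw [hdζ, hgζ, sub_self, sub_zero] at hH
  refine hH.trans ?_
  have h6 := hlow ζ hζρ z hzz
  rw [hgζ] at h6
  have h7 : ‖z - ζ‖ ≤ 2 / ‖a‖ * ‖g z - a‖ := by
    rw [div_mul_eq_mul_div, le_div_iff₀ hna]
    linarith
  rw [mul_assoc]
  gcongr

end near

section main

variable {g : ℂ → ℂ} {P : Set ℂ}

/-- The poles and the `c`-points (for a nonzero value `c` with `g = c → g' = c`) do not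
accumulate. -/
lemma GoodFn.eventually_ne (h : GoodFn g P) {c : ℂ} (hc : c ≠ 0)
    (h1 : ∀ z ∉ P, g z = c → deriv g z = c) (z : ℂ) : ∀ᶠ w in 𝓝[≠] z, w ∉ P ∧ g w ≠ c := by
  by_cases hz : z ∈ P
  · filter_upwards [h.blow z hz ‖c‖] with w hw
    refine ⟨hw.1, fun h2 => ?_⟩
    rw [h2] at hw
    exact lt_irrefl _ hw.2
  · have h2 : ∀ᶠ w in 𝓝[≠] z, w ∉ P := (h.eventually_not_mem hz).filter_mono nhdsWithin_le_nhds
    rcases (h.anal z hz).eventually_eq_or_eventually_ne (analyticAt_const (v := c)) with h3 | h3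
    · exfalso
      have h4 : g z = c := h3.self_of_nhds
      have h5 : deriv g z = 0 := by
        rw [Filter.EventuallyEq.deriv_eq h3]
        simp
      rw [h1 z hz h4] at h5
      exact hc h5
    · exact h2.and h3

/-- The differential equation `g' = g + K (g - a) (g - b)`. -/
lemma GoodFn.riccati (h : GoodFn g P) {a b : ℂ} (ha0 : a ≠ 0) (hb0 : b ≠ 0) (hab : a ≠ b)
    (hup : ∃ C : ℝ, ∀ z ∉ P, ‖deriv g z‖ ≤ C * (1 + ‖g z‖ ^ 2))
    (ha : ∀ z ∉ P, g z = a → deriv g z = a) (hb : ∀ z ∉ P, g z = b → deriv g z = b)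
    (ha2 : ∃ δ > 0, ∀ z ∉ P, ‖g z - a‖ < δ → ‖deriv g z - a‖ ≤ ‖a‖ / 2)
    (hb2 : ∃ δ > 0, ∀ z ∉ P, ‖g z - b‖ < δ → ‖deriv g z - b‖ ≤ ‖b‖ / 2) :
    ∃ K : ℂ, ∀ z ∉ P, deriv g z = g z + K * (g z - a) * (g z - b) := by
  obtain ⟨δa, hδa, Ca, hCa⟩ := h.near_bound ha0 ha ha2
  obtain ⟨δb, hδb, Cb, hCb⟩ := h.near_bound hb0 hb hb2
  obtain ⟨C, hC⟩ := hup
  have hab' : 0 < ‖a - b‖ := norm_pos_iff.2 (sub_ne_zero.2 hab)
  set δ : ℝ := min (min δa δb) (‖a - b‖ / 2) with hδ
  have hδ0 : 0 < δ := lt_min (lt_min hδa hδb) (by positivity)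
  have hδδa : δ ≤ δa := (min_le_left _ _).trans (min_le_left _ _)
  have hδδb : δ ≤ δb := (min_le_left _ _).trans (min_le_right _ _)
  have hδab : δ ≤ ‖a - b‖ / 2 := min_le_right _ _
  set E : Set ℂ := {z | z ∈ P ∨ g z = a ∨ g z = b} with hE
  have hEd : ∀ z, ∀ᶠ w in 𝓝[≠] z, w ∉ E := by
    intro z
    filter_upwards [h.eventually_ne ha0 ha z, h.eventually_ne hb0 hb z] with w h1 h2
    rintro (h3 | h3 | h3)
    · exact h1.1 h3
    · exact h1.2 h3
    · exact h2.2 h3
  set ψ : ℂ → ℂ := fun z => (deriv g z - g z) / ((g z - a) * (g z - b)) with hψ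
  have hψd : ∀ z ∉ E, DifferentiableAt ℂ ψ z := by
    intro z hz
    have hzP : z ∉ P := fun h1 => hz (Or.inl h1)
    have hza : g z - a ≠ 0 := sub_ne_zero.2 fun h1 => hz (Or.inr (Or.inl h1))
    have hzb : g z - b ≠ 0 := sub_ne_zero.2 fun h1 => hz (Or.inr (Or.inr h1))
    have hd := h.differentiableAt hzP
    exact ((h.anal z hzP).deriv.differentiableAt.sub hd).div
      ((hd.sub_const a).mul (hd.sub_const b)) (mul_ne_zero hza hzb)
  -- bounds
  have hbound : ∀ z ∉ E, ‖ψ z‖ ≤ |Ca| / (‖a - b‖ / 2) + |Cb| / (‖a - b‖ / 2) +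
      (|C| + 1) * (((1 + ‖a‖) / δ + 1) * ((1 + ‖b‖) / δ + 1)) := by
    intro z hz
    have hzP : z ∉ P := fun h1 => hz (Or.inl h1)
    have hza : g z - a ≠ 0 := sub_ne_zero.2 fun h1 => hz (Or.inr (Or.inl h1))
    have hzb : g z - b ≠ 0 := sub_ne_zero.2 fun h1 => hz (Or.inr (Or.inr h1))
    have hza' : 0 < ‖g z - a‖ := norm_pos_iff.2 hza
    have hzb' : 0 < ‖g z - b‖ := norm_pos_iff.2 hzb
    have htri : ‖a - b‖ ≤ ‖g z - a‖ + ‖g z - b‖ := by
      have h1 : a - b = (g z - b) - (g z - a) := by ring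
      rw [h1]
      exact (norm_sub_le _ _).trans_eq (add_comm _ _)
    have hp1 : 0 ≤ |Ca| / (‖a - b‖ / 2) := by positivity
    have hp2 : 0 ≤ |Cb| / (‖a - b‖ / 2) := by positivity
    have hp3 : 0 ≤ (|C| + 1) * (((1 + ‖a‖) / δ + 1) * ((1 + ‖b‖) / δ + 1)) := by positivity
    have hψn : ‖ψ z‖ = ‖deriv g z - g z‖ / (‖g z - a‖ * ‖g z - b‖) := by
      rw [hψ]
      simp only [norm_div, norm_mul]
    rw [hψn]
    by_cases hca : ‖g z - a‖ < δ
    · have h1 := hCa z hzP (hca.trans_le hδδa)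
      have h2 : ‖a - b‖ / 2 ≤ ‖g z - b‖ := by linarith
      have h3 : ‖deriv g z - g z‖ / (‖g z - a‖ * ‖g z - b‖) ≤ |Ca| / (‖a - b‖ / 2) := by
        rw [div_le_div_iff₀ (by positivity) (by positivity)]
        have h4 : ‖deriv g z - g z‖ ≤ |Ca| * ‖g z - a‖ :=
          h1.trans (mul_le_mul_of_nonneg_right (le_abs_self _) hza'.le)
        calc ‖deriv g z - g z‖ * (‖a - b‖ / 2) ≤ (|Ca| * ‖g z - a‖) * ‖g z - b‖ := by gcongr
          _ = |Ca| * (‖g z - a‖ * ‖g z - b‖) := by ring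
      linarith
    by_cases hcb : ‖g z - b‖ < δ
    · have h1 := hCb z hzP (hcb.trans_le hδδb)
      have h2 : ‖a - b‖ / 2 ≤ ‖g z - a‖ := by linarith
      have h3 : ‖deriv g z - g z‖ / (‖g z - a‖ * ‖g z - b‖) ≤ |Cb| / (‖a - b‖ / 2) := by
        rw [div_le_div_iff₀ (by positivity) (by positivity)]
        have h4 : ‖deriv g z - g z‖ ≤ |Cb| * ‖g z - b‖ :=
          h1.trans (mul_le_mul_of_nonneg_right (le_abs_self _) hzb'.le)
        calc ‖deriv g z - g z‖ * (‖a - b‖ / 2) ≤ (|Cb| * ‖g z - b‖) * ‖g z - a‖ := by gcongr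
          _ = |Cb| * (‖g z - a‖ * ‖g z - b‖) := by ring
      linarith
    push Not at hca hcb
    have h1 : ‖deriv g z - g z‖ ≤ (|C| + 1) * (1 + ‖g z‖ ^ 2) := by
      have h2 := norm_sub_le (deriv g z) (g z)
      have h3 := hC z hzP
      have h4 : C * (1 + ‖g z‖ ^ 2) ≤ |C| * (1 + ‖g z‖ ^ 2) := by
        gcongr
        exact le_abs_self C
      have h5 : ‖g z‖ ≤ 1 + ‖g z‖ ^ 2 := by nlinarith [sq_nonneg (‖g z‖ - 1)]
      linarith
    have h2 : ∀ c : ℂ, δ ≤ ‖g z - c‖ → 1 + ‖g z‖ ≤ ((1 + ‖c‖) / δ + 1) * ‖g z - c‖ := by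
      intro c hc
      have h3 : ‖g z‖ ≤ ‖g z - c‖ + ‖c‖ := by simpa using norm_add_le (g z - c) c
      have h4 : 1 + ‖c‖ ≤ (1 + ‖c‖) / δ * ‖g z - c‖ := by
        rw [div_mul_eq_mul_div, le_div_iff₀ hδ0]
        gcongr
      linarith
    have h3 : 1 + ‖g z‖ ^ 2 ≤
        (((1 + ‖a‖) / δ + 1) * ((1 + ‖b‖) / δ + 1)) * (‖g z - a‖ * ‖g z - b‖) := by
      calc 1 + ‖g z‖ ^ 2 ≤ (1 + ‖g z‖) * (1 + ‖g z‖) := by nlinarith [norm_nonneg (g z)]
        _ ≤ (((1 + ‖a‖) / δ + 1) * ‖g z - a‖) * (((1 + ‖b‖) / δ + 1) * ‖g z - b‖) := by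
            have := h2 a hca
            have := h2 b hcb
            gcongr
        _ = _ := by ring
    have h4 : ‖deriv g z - g z‖ / (‖g z - a‖ * ‖g z - b‖) ≤
        (|C| + 1) * (((1 + ‖a‖) / δ + 1) * ((1 + ‖b‖) / δ + 1)) := by
      rw [div_le_iff₀ (by positivity)]
      refine h1.trans ?_
      rw [mul_assoc]
      gcongr
    linarith
  obtain ⟨K, hK⟩ := const_of_bounded_off hEd hψd hbound
  refine ⟨K, fun z hz => ?_⟩
  by_cases hzE : z ∈ E
  · rcases hzE with h1 | h1 | h1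
    · exact absurd h1 hz
    · rw [ha z hz h1, h1]
      ring
    · rw [hb z hz h1, h1]
      ring
  · have h1 := hK z hzE
    have hza : g z - a ≠ 0 := sub_ne_zero.2 fun h1 => hzE (Or.inr (Or.inl h1))
    have hzb : g z - b ≠ 0 := sub_ne_zero.2 fun h1 => hzE (Or.inr (Or.inr h1))
    have h2 : (deriv g z - g z) / ((g z - a) * (g z - b)) = K := h1
    rw [div_eq_iff (mul_ne_zero hza hzb)] at h2
    linear_combination h2

/-- If `g' = g` off the poles then there are no poles and `g` is an exponential. -/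
lemma GoodFn.exp_of_deriv_eq (h : GoodFn g P) (hd : ∀ z ∉ P, deriv g z = g z) {z₀ : ℂ} (w : ℂ) :
    w ∉ P ∧ g w = g z₀ * Complex.exp (w - z₀) := by
  have hP : ∀ p, p ∉ P := by
    intro p hp
    set F : ℂ → ℂ := fun z => phi g P 0 z * Complex.exp z with hF
    have hFa : AnalyticAt ℂ F p := (h.phi_anal 0 (fun h1 => absurd hp h1)).mul
      (Complex.differentiable_exp.analyticAt p)
    have hbl := h.blow p hp 1
    have hder : ∀ᶠ z in 𝓝[≠] p, deriv F z = 0 := by
      filter_upwards [hbl] with z hz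
      have hgz : g z ≠ 0 := by
        intro h0
        rw [h0, norm_zero] at hz
        linarith [hz.2]
      have h1 : F =ᶠ[𝓝 z] fun u => (g u)⁻¹ * Complex.exp u := by
        filter_upwards [h.eventually_not_mem hz.1] with u hu
        rw [hF]
        simp only [phi_of_not_mem hu, sub_zero]
      rw [h1.deriv_eq]
      have h2 : HasDerivAt g (g z) z := by
        have := (h.differentiableAt hz.1).hasDerivAt
        rwa [hd z hz.1] at this
      have h3 := (h2.inv hgz).mul (Complex.hasDerivAt_exp z)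
      have h4 : HasDerivAt (fun u => (g u)⁻¹ * Complex.exp u) 0 z := by
        refine h3.congr_deriv ?_
        simp only [Pi.inv_apply]
        field_simp
        ring
      exact h4.deriv
    have hder' : ∀ᶠ z in 𝓝 p, deriv F z = 0 :=
      hFa.deriv.frequently_zero_iff_eventually_zero.1 hder.frequently
    obtain ⟨ε, hε, hball⟩ := Metric.eventually_nhds_iff_ball.1
      (hder'.and hFa.eventually_analyticAt)
    have hconst : ∀ w ∈ ball p ε, F w = F p := by
      intro w hw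
      refine isOpen_ball.is_const_of_deriv_eq_zero (s := ball p ε) (convex_ball p ε).isPreconnected
        (fun u hu => (hball u hu).2.differentiableAt.differentiableWithinAt)
        (fun u hu => (hball u hu).1) hw (mem_ball_self hε)
    have h5 : ∀ᶠ w in 𝓝[≠] p, w ∈ ball p ε := nhdsWithin_le_nhds (ball_mem_nhds p hε)
    obtain ⟨w, hw1, hw2⟩ := (hbl.and h5).exists
    have h6 := hconst w hw2
    rw [hF] at h6
    simp only [phi_of_mem hp, phi_of_not_mem hw1.1, zero_mul, sub_zero] at h6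
    have hgw : g w ≠ 0 := by
      intro h0
      rw [h0, norm_zero] at hw1
      linarith [hw1.2]
    exact mul_ne_zero (inv_ne_zero hgw) (Complex.exp_ne_zero _) h6
  refine ⟨hP w, ?_⟩
  have hd' : ∀ u, HasDerivAt (fun u => g u * Complex.exp (-u)) 0 u := by
    intro u
    have h1 : HasDerivAt g (g u) u := by
      have := (h.differentiableAt (hP u)).hasDerivAt
      rwa [hd u (hP u)] at this
    have h2 := h1.mul ((hasDerivAt_id u).neg.cexp)
    refine h2.congr_deriv ?_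
    simp only [id, Pi.neg_apply]
    ring
  have hconst : g w * Complex.exp (-w) = g z₀ * Complex.exp (-z₀) :=
    is_const_of_deriv_eq_zero (fun w => (hd' w).differentiableAt) (fun w => (hd' w).deriv) w z₀
  calc g w = (g w * Complex.exp (-w)) * Complex.exp w := by
        rw [mul_assoc, ← Complex.exp_add]
        simp
    _ = g z₀ * Complex.exp (w - z₀) := by
        rw [hconst, mul_assoc, ← Complex.exp_add]
        congr 2
        ring

/-- Case (i): if two distinct nonzero values are shared, `g` is an exponential. -/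
theorem caseI_main (h : GoodFn g P) {a b : ℂ} (ha0 : a ≠ 0) (hb0 : b ≠ 0) (hab : a ≠ b)
    (hup : ∃ C : ℝ, ∀ z ∉ P, ‖deriv g z‖ ≤ C * (1 + ‖g z‖ ^ 2))
    (ha : ∀ z ∉ P, g z = a ↔ deriv g z = a) (hb : ∀ z ∉ P, g z = b ↔ deriv g z = b)
    (ha2 : ∃ δ > 0, ∀ z ∉ P, ‖g z - a‖ < δ → ‖deriv g z - a‖ ≤ ‖a‖ / 2)
    (hb2 : ∃ δ > 0, ∀ z ∉ P, ‖g z - b‖ < δ → ‖deriv g z - b‖ ≤ ‖b‖ / 2)
    {z₁ : ℂ} (hz₁ : z₁ ∉ P) (hd : deriv g z₁ ≠ 0) (z₀ w : ℂ) :
    w ∉ P ∧ g w = g z₀ * Complex.exp (w - z₀) := by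
  obtain ⟨K, hK⟩ := h.riccati ha0 hb0 hab hup (fun z hz => (ha z hz).1) (fun z hz => (hb z hz).1)
    ha2 hb2
  by_cases hK0 : K = 0
  · refine h.exp_of_deriv_eq (fun z hz => ?_) w
    rw [hK z hz, hK0]
    ring
  exfalso
  -- an omitted value
  obtain ⟨c, hc, hQc⟩ : ∃ c : ℂ, (∀ z ∉ P, g z ≠ c) ∧ c + K * (c - a) * (c - b) ≠ 0 := by
    have hQa : (b - 1 / K) + K * ((b - 1 / K) - a) * ((b - 1 / K) - b) = a := by
      field_simp
      ring
    have hQb : (a - 1 / K) + K * ((a - 1 / K) - a) * ((a - 1 / K) - b) = b := by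
      field_simp
      ring
    by_cases h1 : ∃ z ∉ P, g z = b - 1 / K
    · obtain ⟨z, hz, hgz⟩ := h1
      have h2 : deriv g z = a := by rw [hK z hz, hgz, hQa]
      have h3 : b - 1 / K = a := by rw [← hgz, (ha z hz).2 h2]
      refine ⟨a - 1 / K, fun u hu hgu => ?_, by rw [hQb]; exact hb0⟩
      have h4 : deriv g u = b := by rw [hK u hu, hgu, hQb]
      have h5 : a - 1 / K = b := by rw [← hgu, (hb u hu).2 h4]
      apply hab
      have h6 : a - b = b - a := by linear_combination h5 - h3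
      have h7 : 2 * (a - b) = 0 := by linear_combination h6
      have h8 := (mul_eq_zero.1 h7).resolve_left two_ne_zero
      exact sub_eq_zero.1 h8
    · push Not at h1
      exact ⟨b - 1 / K, h1, by rw [hQa]; exact ha0⟩
  set q : ℂ := c + K * (c - a) * (c - b) with hq
  set q' : ℂ := 1 + K * (2 * c - a - b) with hq'
  set Y : ℂ → ℂ := phi g P c with hY
  have hYa : ∀ z, AnalyticAt ℂ Y z := fun z => h.phi_anal c (fun hz => hc z hz)
  have hYd : Differentiable ℂ Y := fun z => (hYa z).differentiableAt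
  -- the equation off the poles
  have hY1 : ∀ z ∉ P, deriv Y z = -(q * Y z ^ 2 + q' * Y z + K) := by
    intro z hz
    have hgz : g z - c ≠ 0 := sub_ne_zero.2 (hc z hz)
    have h1 : Y =ᶠ[𝓝 z] fun u => (g u - c)⁻¹ := by
      filter_upwards [h.eventually_not_mem hz] with u hu
      rw [hY, phi_of_not_mem hu]
    have h2 : HasDerivAt (fun u => (g u - c)⁻¹) (-(deriv g z) / (g z - c) ^ 2) z :=
      (((h.differentiableAt hz).hasDerivAt).sub_const c).inv hgz
    rw [h1.deriv_eq, h2.deriv, show Y z = (g z - c)⁻¹ by rw [hY, phi_of_not_mem hz], hK z hz,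
      hq, hq']
    field_simp
    ring
  have hYc : Continuous (deriv Y) := by
    have : Differentiable ℂ (deriv Y) := fun z => (hYa z).deriv.differentiableAt
    exact this.continuous
  have hY2 : ∀ z, deriv Y z = -(q * Y z ^ 2 + q' * Y z + K) := by
    intro z
    by_cases hz : z ∈ P
    · have h1 : Tendsto (deriv Y) (𝓝[≠] z) (𝓝 (deriv Y z)) :=
        (hYc.tendsto z).mono_left nhdsWithin_le_nhds
      have h2 : Tendsto (fun u => -(q * Y u ^ 2 + q' * Y u + K)) (𝓝[≠] z)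
          (𝓝 (-(q * Y z ^ 2 + q' * Y z + K))) := by
        have hc2 : Continuous (fun u => -(q * Y u ^ 2 + q' * Y u + K)) := by
          have := hYd.continuous
          fun_prop
        exact (hc2.tendsto z).mono_left nhdsWithin_le_nhds
      refine tendsto_nhds_unique (h1.congr' ?_) h2
      filter_upwards [h.blow z hz 0] with u hu
      exact hY1 u hu.1
    · exact hY1 z hz
  -- factorisation
  obtain ⟨s, hs⟩ : ∃ s : ℂ, s ^ 2 = q' ^ 2 - 4 * q * K := IsAlgClosed.exists_pow_nat_eq _ two_pos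
  have hY3 : ∀ z, HasDerivAt Y
      ((-q) * (Y z - (-q' + s) / (2 * q)) * (Y z - (-q' - s) / (2 * q))) z := by
    intro z
    have h1 := (hYd z).hasDerivAt
    rw [hY2 z] at h1
    refine h1.congr_deriv ?_
    have hq0 : q ≠ 0 := hQc
    field_simp
    linear_combination (-1 : ℂ) * hs
  have hYconst := riccati_const (neg_ne_zero.2 hQc) hY3
  apply hd
  have h1 : g =ᶠ[𝓝 z₁] fun _ => g z₁ := by
    filter_upwards [h.eventually_not_mem hz₁] with u hu
    have h2 : Y u = Y z₁ := by rw [hYconst u, hYconst z₁]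
    rw [hY, phi_of_not_mem hu, phi_of_not_mem hz₁] at h2
    have h3 := inv_injective h2
    exact sub_left_injective h3
  rw [h1.deriv_eq]
  simp

end main

end MP_35e7b7_an
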