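import Mathlib
import Pool.Agent.Lib.MP_35e7b7_an.Sphere

/-!
# Assembly
-/

open Filter Topology Metric Set

namespace MP_35e7b7_an

/-- Near infinity, `v` is close to `c` (off `P`) where `u` is close to `c`. -/
def Imp (u v : ℂ → ℂ) (P : Set ℂ) (c : ℂ) : Prop :=
  ∀ ε > 0, ∃ δ > 0, ∃ R : ℝ, ∀ z ∉ P, R < ‖z‖ → ‖u z - c‖ < δ → ‖v z - c‖ < ε

/-- The consequence (E1) of the classification of the limit functions. -/
def E1 (g : ℂ → ℂ) (P : Set ℂ) (b : ℂ) : Prop :=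
  ∀ ε > 0, ∃ R : ℝ, ∀ β ∉ P, R < ‖β‖ → g β = b →
    (β + 2 * Real.pi * Complex.I ∉ P ∧ ‖g (β + 2 * Real.pi * Complex.I) - b‖ < ε) ∧
    (β - 2 * Real.pi * Complex.I ∉ P ∧ ‖g (β - 2 * Real.pi * Complex.I) - b‖ < ε)

/-- The consequence (E2) of the classification of the limit functions. -/
def E2 (g : ℂ → ℂ) (P : Set ℂ) (b : ℂ) : Prop :=
  ∃ δ₀ > 0, ∀ ε > 0, ∃ R : ℝ, ∀ z ∉ P, R < ‖z‖ → ‖g z - b‖ ≤ δ₀ → ‖deriv g z - g z‖ < ε

/-- The statement of the limit part. -/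
def EStatement : Prop :=
  ∀ (g : ℂ → ℂ) (P : Set ℂ) (a b : ℂ), GoodFn g P → a ≠ b → b ≠ 0 →
    Imp g (deriv g) P a → Imp (deriv g) g P a → Imp g (deriv g) P b → Imp (deriv g) g P b →
    E1 g P b ∧ E2 g P b

/-- The statement of the Casorati–Weierstrass part. -/
def CWStatement : Prop :=
  ∀ F : ℂ → OnePoint ℂ, IsMero F → ¬ IsRational F → ∀ b : ℂ, ∀ ε > 0, ∀ R : ℝ,
    ∃ z, R < ‖z‖ ∧ F z ≠ OnePoint.infty ∧ ‖toC (F z) - b‖ < ε

/-- The theorem, with a nonzero second value. -/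
theorem final_aux (hPL : PLStatement) (hE : EStatement) (hCW : CWStatement)
    {F : ℂ → OnePoint ℂ} (hF : IsMero F) (hFr : ¬ IsRational F) {a b : ℂ} (hab : a ≠ b)
    (hb0 : b ≠ 0) (ha : SharedLimitValue F (mderiv F) (a : OnePoint ℂ))
    (hb : SharedLimitValue F (mderiv F) (b : OnePoint ℂ)) (c : OnePoint ℂ) :
    SharedLimitValue F (mderiv F) c := by
  have hG := hF.goodFn
  obtain ⟨h1, h2⟩ := hE _ _ a b hG hab hb0 ha.fwd ha.bwd hb.fwd hb.bwd
  refine shared_all hb (fun δ hδ η hη => ?_) c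
  refine concl_main hPL hG hb0 ?_ hb.bwd h1 h2 ?_ hδ hη
  · have hbn : 0 < ‖b‖ / 2 := by
      have := norm_pos_iff.2 hb0
      positivity
    obtain ⟨δ, hδ, R, hR⟩ := hb.fwd (‖b‖ / 2) hbn
    exact ⟨δ, hδ, R, fun z hz hzR hzb => (hR z hz hzR hzb).le⟩
  · intro ε hε R
    obtain ⟨z, hz1, hz2, hz3⟩ := hCW F hF hFr b ε hε R
    exact ⟨z, hz2, hz1, hz3⟩

/-- Two distinct finite shared limit values force all limit values to be shared. -/
theorem final (hPL : PLStatement) (hE : EStatement) (hCW : CWStatement)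
    {F : ℂ → OnePoint ℂ} (hF : IsMero F) (hFr : ¬ IsRational F) {a b : ℂ} (hab : a ≠ b)
    (ha : SharedLimitValue F (mderiv F) (a : OnePoint ℂ))
    (hb : SharedLimitValue F (mderiv F) (b : OnePoint ℂ)) (c : OnePoint ℂ) :
    SharedLimitValue F (mderiv F) c := by
  by_cases hb0 : b = 0
  · have ha0 : a ≠ 0 := fun h => hab (by rw [h, hb0])
    exact final_aux hPL hE hCW hF hFr hab.symm ha0 hb ha c
  · exact final_aux hPL hE hCW hF hFr hab hb0 ha hb c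

end MP_35e7b7_an
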