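import Mathlib
import Pool.Agent.Lib.MP_35e7b7_an.Basic

/-!
# Case (ii): the exponential lift

Let `g` be (the finite part of) a meromorphic function on the plane whose derivative is bounded
below on every set `1/K ≤ |g| ≤ K` and satisfies `|g'| ≤ C (1 + |g|²)`, and such that
`g z = b ↔ g' z = b`.  Then `g z = c e^z`.
-/

open Filter Topology Metric Set

namespace MP_35e7b7_an

section local_solution

variable {g : ℂ → ℂ} {P : Set ℂ}

/-- Uniform local solutions of `g (Y ζ) = g z * exp ζ`. -/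
lemma GoodFn.local_sol (h : GoodFn g P)
    (hlow : ∀ K : ℝ, 0 < K → ∃ δ > 0, ∀ z ∉ P, 1 / K ≤ ‖g z‖ → ‖g z‖ ≤ K → δ ≤ ‖deriv g z‖)
    (hup : ∃ C : ℝ, ∀ z ∉ P, ‖deriv g z‖ ≤ C * (1 + ‖g z‖ ^ 2)) (K : ℝ) (hK : 1 ≤ K) :
    ∃ τ > 0, ∀ z ∉ P, 1 / K ≤ ‖g z‖ → ‖g z‖ ≤ K →
      ∃ Y : ℂ → ℂ, Y 0 = z ∧ DifferentiableOn ℂ Y (ball 0 τ) ∧
        ∀ ζ ∈ ball (0 : ℂ) τ, Y ζ ∉ P ∧ g (Y ζ) = g z * Complex.exp ζ := by
  obtain ⟨C, hC⟩ := hup
  obtain ⟨δ, hδ, hδ'⟩ := hlow K (by linarith)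
  have hK0 : 0 < K := by linarith
  set B : ℝ := (|C| + 1) * (1 + (2 * K) ^ 2) with hBdef
  have hB : 0 < B := by positivity
  have hBbound : ∀ w ∉ P, ‖g w‖ ≤ 2 * K → ‖deriv g w‖ ≤ B := by
    intro w hw hgw
    refine (hC w hw).trans ?_
    calc C * (1 + ‖g w‖ ^ 2) ≤ (|C| + 1) * (1 + ‖g w‖ ^ 2) := by
          apply mul_le_mul_of_nonneg_right _ (by positivity)
          linarith [le_abs_self C]
      _ ≤ B := by
          rw [hBdef]
          gcongr
  set ρ : ℝ := K / B with hρdef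
  have hρ : 0 < ρ := by positivity
  set D : ℝ := 2 * B with hD
  set ε : ℝ := min (ρ / 2) (δ * ρ / (2 * D)) with hε
  have hε0 : 0 < ε := by
    rw [hε]
    apply lt_min <;> positivity
  have hερ : ε < ρ := lt_of_le_of_lt (min_le_left _ _) (by linarith)
  have hεD : D / ρ * ε ≤ δ / 2 := by
    calc D / ρ * ε ≤ D / ρ * (δ * ρ / (2 * D)) := by
          gcongr
          exact min_le_right _ _
      _ = δ / 2 := by
          have hD0 : D ≠ 0 := by positivity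
          field_simp
  -- the radius
  set τ : ℝ := min 1 (δ * ε / (8 * K)) with hτ
  refine ⟨τ, by rw [hτ]; apply lt_min <;> positivity, ?_⟩
  intro z hz hz1 hz2
  have hgrow : ∀ w ∈ ball z ρ, w ∉ P ∧ ‖g w‖ ≤ 2 * K := by
    intro w hw
    have h1 := h.grow (b := 0) (z := z) (K := K) (L := 2 * K) (B := B) (ρ := ρ) hz
      (by simpa using hz2) (by linarith) (fun w _ hwP hgw => hBbound w hwP (by simpa using hgw))
      hB.le (by rw [hρdef]; field_simp; linarith) w hw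
    refine ⟨h1.1, ?_⟩
    have h2 : B * dist w z ≤ K := by
      have : dist w z ≤ ρ := (mem_ball.1 hw).le
      calc B * dist w z ≤ B * ρ := by gcongr
        _ = K := by rw [hρdef]; field_simp
    have h3 := h1.2
    rw [sub_zero] at h3
    linarith
  have hdiff : DifferentiableOn ℂ g (ball z ρ) := fun w hw =>
    (h.differentiableAt (hgrow w hw).1).differentiableWithinAt
  have hdiff' : DifferentiableOn ℂ (deriv g) (ball z ρ) := fun w hw =>
    ((h.anal w (hgrow w hw).1).deriv).differentiableAt.differentiableWithinAt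
  have hdb : ∀ w ∈ ball z ρ, ‖deriv g w‖ ≤ B := fun w hw =>
    hBbound w (hgrow w hw).1 (hgrow w hw).2
  have hclose : ∀ w ∈ ball z ε, ‖deriv g w - deriv g z‖ ≤ δ / 2 := by
    intro w hw
    have hwρ : w ∈ ball z ρ := ball_subset_ball hερ.le hw
    have h1 : dist (deriv g w) (deriv g z) ≤ D / ρ * dist w z := by
      apply Complex.dist_le_div_mul_dist_of_mapsTo_ball hdiff' _ hwρ
      intro v hv
      rw [mem_closedBall, dist_eq_norm]
      have := norm_sub_le (deriv g v) (deriv g z)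
      have h2 := hdb v hv
      have h3 := hdb z (mem_ball_self hρ)
      rw [hD]
      linarith
    rw [← dist_eq_norm]
    refine h1.trans (le_trans ?_ hεD)
    gcongr
    exact (mem_ball.1 hw).le
  have hδz : δ ≤ ‖deriv g z‖ := hδ' z hz hz1 hz2
  have hdz : deriv g z ≠ 0 := by
    rw [← norm_pos_iff]
    linarith
  -- lower bound on the derivative in the small ball
  have hdne : ∀ w ∈ ball z ε, deriv g w ≠ 0 := by
    intro w hw
    rw [← norm_pos_iff]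
    have h1 := hclose w hw
    have h2 : ‖deriv g z‖ ≤ ‖deriv g w‖ + ‖deriv g w - deriv g z‖ := by
      calc ‖deriv g z‖ = ‖deriv g w - (deriv g w - deriv g z)‖ := by congr 1; ring
        _ ≤ _ := norm_sub_le _ _
    linarith
  let f' : ℂ ≃L[ℂ] ℂ := ContinuousLinearEquiv.unitsEquivAut ℂ (Units.mk0 (deriv g z) hdz)
  have hf' : ∀ x, f' x = x * deriv g z := fun x => rfl
  have happ : ApproximatesLinearOn g (f' : ℂ →L[ℂ] ℂ) (ball z ε) ⟨δ / 2, by positivity⟩ := by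
    intro x hx y hy
    have h1 := (convex_ball z ε).norm_image_sub_le_of_norm_hasFDerivWithin_le'
      (f := g) (f' := fun w => (ContinuousLinearMap.toSpanSingleton ℂ (deriv g w)))
      (φ := (f' : ℂ →L[ℂ] ℂ)) (C := δ / 2) (fun w hw => ?_) (fun w hw => ?_) hy hx
    · exact h1
    · exact ((h.differentiableAt (hgrow w (ball_subset_ball hερ.le hw)).1).hasDerivAt.hasFDerivAt).hasFDerivWithinAt
    · have h2 : (ContinuousLinearMap.toSpanSingleton ℂ (deriv g w)) - (f' : ℂ →L[ℂ] ℂ)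
          = ContinuousLinearMap.toSpanSingleton ℂ (deriv g w - deriv g z) := by
        ext
        simp [hf']
      rw [h2, ContinuousLinearMap.norm_toSpanSingleton]
      exact hclose w hw
  have hsymm : (f'.symm : ℂ →L[ℂ] ℂ) = ContinuousLinearMap.toSpanSingleton ℂ (deriv g z)⁻¹ := by
    ext
    simp only [ContinuousLinearMap.toSpanSingleton_apply, one_smul, ContinuousLinearEquiv.coe_coe]
    rw [ContinuousLinearEquiv.symm_apply_eq, hf', inv_mul_cancel₀ hdz]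
  have hN : (‖(f'.symm : ℂ →L[ℂ] ℂ)‖₊)⁻¹ = ‖deriv g z‖₊ := by
    rw [hsymm]
    apply NNReal.eq
    rw [NNReal.coe_inv, coe_nnnorm, coe_nnnorm, ContinuousLinearMap.norm_toSpanSingleton, norm_inv,
      inv_inv]
  have hc : Subsingleton ℂ ∨ (⟨δ / 2, by positivity⟩ : NNReal) < (‖(f'.symm : ℂ →L[ℂ] ℂ)‖₊)⁻¹ := by
    right
    rw [hN]
    refine NNReal.coe_lt_coe.1 ?_
    show δ / 2 < ‖deriv g z‖
    linarith
  let e := happ.toOpenPartialHomeomorph g (ball z ε) hc isOpen_ball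
  have htarget : closedBall (g z) (δ * ε / 4) ⊆ e.target := by
    have h1 := happ.closedBall_subset_target hc isOpen_ball (b := z) (ε := ε / 2) (by positivity)
      (closedBall_subset_ball (by linarith))
    refine Subset.trans (closedBall_subset_closedBall ?_) h1
    rw [hN, coe_nnnorm]
    show δ * ε / 4 ≤ (‖deriv g z‖ - δ / 2) * (ε / 2)
    nlinarith
  have hmem : ∀ ζ ∈ ball (0 : ℂ) τ, g z * Complex.exp ζ ∈ e.target := by
    intro ζ hζ
    apply htarget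
    rw [mem_ball_zero_iff] at hζ
    have hζ1 : ‖ζ‖ ≤ 1 := hζ.le.trans (min_le_left _ _)
    have hζ2 : ‖ζ‖ < δ * ε / (8 * K) := lt_of_lt_of_le hζ (min_le_right _ _)
    rw [mem_closedBall, dist_eq_norm, show g z * Complex.exp ζ - g z = g z * (Complex.exp ζ - 1) by
      ring, norm_mul]
    calc ‖g z‖ * ‖Complex.exp ζ - 1‖ ≤ K * (2 * ‖ζ‖) := by
          gcongr
          exact Complex.norm_exp_sub_one_le hζ1
      _ ≤ K * (2 * (δ * ε / (8 * K))) := by gcongr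
      _ = δ * ε / 4 := by
          field_simp
          ring
  have hsource : ∀ ζ ∈ ball (0 : ℂ) τ, e.symm (g z * Complex.exp ζ) ∈ ball z ε := fun ζ hζ =>
    e.map_target (hmem ζ hζ)
  refine ⟨fun ζ => e.symm (g z * Complex.exp ζ), ?_, ?_, ?_⟩
  · simp only [Complex.exp_zero, mul_one]
    exact e.left_inv (mem_ball_self hε0)
  · intro ζ hζ
    have hw := hsource ζ hζ
    have hd : HasDerivAt g (deriv g (e.symm (g z * Complex.exp ζ))) (e.symm (g z * Complex.exp ζ)) :=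
      (h.differentiableAt (hgrow _ (ball_subset_ball hερ.le hw)).1).hasDerivAt
    have h1 : HasDerivAt e.symm (deriv g (e.symm (g z * Complex.exp ζ)))⁻¹ (g z * Complex.exp ζ) :=
      e.hasDerivAt_symm (hmem ζ hζ) (hdne _ hw) hd
    have h2 : HasDerivAt (fun ζ => g z * Complex.exp ζ) (g z * Complex.exp ζ) ζ :=
      (Complex.hasDerivAt_exp ζ).const_mul (g z)
    exact (h1.comp ζ h2).differentiableAt.differentiableWithinAt
  · intro ζ hζ
    exact ⟨(hgrow _ (ball_subset_ball hερ.le (hsource ζ hζ))).1, e.right_inv (hmem ζ hζ)⟩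

end local_solution

section global_solution

variable {g : ℂ → ℂ} {P : Set ℂ} {c : ℂ}

/-- `y` solves `g (y ζ) = c e^ζ` holomorphically on `s`. -/
structure IsSol (g : ℂ → ℂ) (P : Set ℂ) (c : ℂ) (y : ℂ → ℂ) (s : Set ℂ) : Prop where
  diff : DifferentiableOn ℂ y s
  not_mem : ∀ ζ ∈ s, y ζ ∉ P
  eq : ∀ ζ ∈ s, g (y ζ) = c * Complex.exp ζ

lemma IsSol.mono {y : ℂ → ℂ} {s t : Set ℂ} (h : IsSol g P c y s) (hts : t ⊆ s) :
    IsSol g P c y t :=
  ⟨h.diff.mono hts, fun ζ hζ => h.not_mem ζ (hts hζ), fun ζ hζ => h.eq ζ (hts hζ)⟩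

lemma sol_unique (h : GoodFn g P) (hne : ∀ z ∉ P, g z ≠ 0 → deriv g z ≠ 0) (hc : c ≠ 0)
    {s : Set ℂ} (hs : IsOpen s) (hs' : IsPreconnected s) {y₁ y₂ : ℂ → ℂ}
    (h₁ : IsSol g P c y₁ s) (h₂ : IsSol g P c y₂ s) {ζ₀ : ℂ} (hζ₀ : ζ₀ ∈ s)
    (heq : y₁ ζ₀ = y₂ ζ₀) : EqOn y₁ y₂ s := by
  have ha₁ := h₁.diff.analyticOnNhd hs
  have ha₂ := h₂.diff.analyticOnNhd hs
  apply ha₁.eqOn_of_preconnected_of_eventuallyEq ha₂ hs' hζ₀
  have hp : y₁ ζ₀ ∉ P := h₁.not_mem ζ₀ hζ₀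
  have hgne : g (y₁ ζ₀) ≠ 0 := by
    rw [h₁.eq ζ₀ hζ₀]
    exact mul_ne_zero hc (Complex.exp_ne_zero _)
  have hd : deriv g (y₁ ζ₀) ≠ 0 := hne _ hp hgne
  have hsd : HasStrictDerivAt g (deriv g (y₁ ζ₀)) (y₁ ζ₀) := (h.anal _ hp).hasStrictDerivAt
  have hsf := hsd.hasStrictFDerivAt_equiv hd
  have hsrc := hsf.mem_toOpenPartialHomeomorph_source
  have hopen := hsf.toOpenPartialHomeomorph g |>.open_source
  have hc₁ : ContinuousAt y₁ ζ₀ := (ha₁ ζ₀ hζ₀).continuousAt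
  have hc₂ : ContinuousAt y₂ ζ₀ := (ha₂ ζ₀ hζ₀).continuousAt
  have hev₁ : ∀ᶠ ζ in 𝓝 ζ₀, y₁ ζ ∈ (hsf.toOpenPartialHomeomorph g).source :=
    hc₁.eventually (hopen.mem_nhds hsrc)
  have hev₂ : ∀ᶠ ζ in 𝓝 ζ₀, y₂ ζ ∈ (hsf.toOpenPartialHomeomorph g).source :=
    hc₂.eventually (hopen.mem_nhds (heq ▸ hsrc))
  filter_upwards [hev₁, hev₂, hs.mem_nhds hζ₀] with ζ h3 h4 h5
  apply (hsf.toOpenPartialHomeomorph g).injOn h3 h4
  show g (y₁ ζ) = g (y₂ ζ)
  rw [h₁.eq ζ h5, h₂.eq ζ h5]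

lemma deriv_ne_of_low
    (hlow : ∀ K : ℝ, 0 < K → ∃ δ > 0, ∀ z ∉ P, 1 / K ≤ ‖g z‖ → ‖g z‖ ≤ K → δ ≤ ‖deriv g z‖) :
    ∀ z ∉ P, g z ≠ 0 → deriv g z ≠ 0 := by
  intro z hz hgz
  have hpos : 0 < ‖g z‖ := norm_pos_iff.2 hgz
  obtain ⟨δ, hδ, h1⟩ := hlow (max ‖g z‖ (1 / ‖g z‖)) (lt_of_lt_of_le hpos (le_max_left _ _))
  have h2 := h1 z hz (by
    rw [div_le_iff₀ (lt_of_lt_of_le hpos (le_max_left _ _)), ← div_le_iff₀' hpos]
    exact le_max_right _ _) (le_max_left _ _)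
  rw [← norm_pos_iff]
  linarith

lemma extend_sol (h : GoodFn g P)
    (hlow : ∀ K : ℝ, 0 < K → ∃ δ > 0, ∀ z ∉ P, 1 / K ≤ ‖g z‖ → ‖g z‖ ≤ K → δ ≤ ‖deriv g z‖)
    (hup : ∃ C : ℝ, ∀ z ∉ P, ‖deriv g z‖ ≤ C * (1 + ‖g z‖ ^ 2)) (hc : c ≠ 0) (R : ℝ) :
    ∃ τ > 0, ∀ r, 0 < r → r ≤ R → ∀ y : ℂ → ℂ, IsSol g P c y (ball 0 r) →
      ∃ y' : ℂ → ℂ, y' 0 = y 0 ∧ IsSol g P c y' (ball 0 (r + τ)) := by
  have hne := deriv_ne_of_low hlow
  have hcpos : 0 < ‖c‖ := norm_pos_iff.2 hc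
  set K : ℝ := max 1 (max (‖c‖ * Real.exp R) (Real.exp R / ‖c‖)) with hK
  have hK1 : 1 ≤ K := le_max_left _ _
  have hK2 : ‖c‖ * Real.exp R ≤ K := (le_max_left _ _).trans (le_max_right _ _)
  have hK3 : Real.exp R / ‖c‖ ≤ K := (le_max_right _ _).trans (le_max_right _ _)
  obtain ⟨τ, hτ, hloc⟩ := h.local_sol hlow hup K hK1
  refine ⟨τ / 2, by positivity, ?_⟩
  intro r hr hrR y hy
  -- local solutions around each point
  have hloc' : ∀ ζ₁ ∈ ball (0 : ℂ) r, ∃ Y : ℂ → ℂ, Y ζ₁ = y ζ₁ ∧ IsSol g P c Y (ball ζ₁ τ) := by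
    intro ζ₁ hζ₁
    have h1 : g (y ζ₁) = c * Complex.exp ζ₁ := hy.eq ζ₁ hζ₁
    have h2 : ‖g (y ζ₁)‖ = ‖c‖ * Real.exp ζ₁.re := by
      rw [h1, norm_mul, Complex.norm_exp]
    have h3 : |ζ₁.re| ≤ R := (Complex.abs_re_le_norm ζ₁).trans ((mem_ball_zero_iff.1 hζ₁).le.trans hrR)
    obtain ⟨Y, hY0, hYd, hY⟩ := hloc (y ζ₁) (hy.not_mem ζ₁ hζ₁)
      (by
        rw [h2, div_le_iff₀ (by linarith)]
        have h4 : Real.exp (-R) ≤ Real.exp ζ₁.re := Real.exp_le_exp.2 (abs_le.1 h3).1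
        calc (1 : ℝ) = (‖c‖ * Real.exp (-R)) * (Real.exp R / ‖c‖) := by
              rw [Real.exp_neg]
              field_simp
          _ ≤ (‖c‖ * Real.exp ζ₁.re) * K := by gcongr)
      (by
        rw [h2]
        refine le_trans ?_ hK2
        gcongr
        exact (abs_le.1 h3).2)
    refine ⟨fun ζ => Y (ζ - ζ₁), by simp [hY0], ?_, ?_, ?_⟩
    · apply hYd.comp (by fun_prop)
      intro ζ hζ
      rwa [mem_ball_zero_iff, ← dist_eq_norm]
    · intro ζ hζ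
      exact (hY (ζ - ζ₁) (by rwa [mem_ball_zero_iff, ← dist_eq_norm])).1
    · intro ζ hζ
      rw [(hY (ζ - ζ₁) (by rwa [mem_ball_zero_iff, ← dist_eq_norm])).2, h1, mul_assoc,
        ← Complex.exp_add]
      congr 2
      ring
  choose! Y hY1 hY2 using hloc'
  -- agreement with `y`
  have hYy : ∀ ζ₁ ∈ ball (0 : ℂ) r, EqOn (Y ζ₁) y (ball ζ₁ τ ∩ ball 0 r) := by
    intro ζ₁ hζ₁
    exact sol_unique h hne hc (isOpen_ball.inter isOpen_ball)
      ((convex_ball _ _).inter (convex_ball _ _)).isPreconnected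
      ((hY2 ζ₁ hζ₁).mono inter_subset_left) (hy.mono inter_subset_right)
      ⟨mem_ball_self hτ, hζ₁⟩ (hY1 ζ₁ hζ₁)
  -- the contraction
  set l : ℝ := r / (r + τ / 2) with hl
  have hl0 : 0 < l := by positivity
  have hl1 : l < 1 := by
    rw [hl, div_lt_one (by positivity)]
    linarith
  have hlr : l * (r + τ / 2) = r := by
    rw [hl]
    field_simp
  have hmem : ∀ ζ ∈ ball (0 : ℂ) (r + τ / 2), (l : ℂ) * ζ ∈ ball (0 : ℂ) r := by
    intro ζ hζ
    rw [mem_ball_zero_iff] at hζ ⊢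
    rw [norm_mul, Complex.norm_real, Real.norm_eq_abs, abs_of_pos hl0, ← hlr]
    gcongr
  have hdist : ∀ ζ ∈ ball (0 : ℂ) (r + τ / 2), dist ζ ((l : ℂ) * ζ) < τ / 2 := by
    intro ζ hζ
    rw [mem_ball_zero_iff] at hζ
    rw [dist_eq_norm, show ζ - (l : ℂ) * ζ = ((1 - l : ℝ) : ℂ) * ζ by push_cast; ring, norm_mul,
      Complex.norm_real, Real.norm_eq_abs, abs_of_pos (by linarith)]
    calc (1 - l) * ‖ζ‖ < (1 - l) * (r + τ / 2) := by
          apply mul_lt_mul_of_pos_left hζ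
          linarith
      _ = τ / 2 := by linarith
  -- local constancy of the branch
  have hagree : ∀ ζ ∈ ball (0 : ℂ) (r + τ / 2), ∀ ζ' ∈ ball (0 : ℂ) (r + τ / 2),
      dist ζ' ζ < τ / 2 → Y ((l : ℂ) * ζ') ζ' = Y ((l : ℂ) * ζ) ζ' := by
    intro ζ hζ ζ' hζ' hd
    have h1 : dist ((l : ℂ) * ζ') ((l : ℂ) * ζ) < τ := by
      rw [dist_eq_norm, ← mul_sub, norm_mul, Complex.norm_real, Real.norm_eq_abs, abs_of_pos hl0,
        ← dist_eq_norm]
      nlinarith [dist_nonneg (x := ζ') (y := ζ)]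
    have h2 : dist ζ' ((l : ℂ) * ζ) < τ := by
      calc dist ζ' ((l : ℂ) * ζ) ≤ dist ζ' ζ + dist ζ ((l : ℂ) * ζ) := dist_triangle _ _ _
        _ < τ / 2 + τ / 2 := add_lt_add hd (hdist ζ hζ)
        _ = τ := by ring
    have h3 : dist ζ' ((l : ℂ) * ζ') < τ := lt_trans (hdist ζ' hζ') (by linarith)
    have h4 := sol_unique h hne hc (isOpen_ball.inter isOpen_ball)
      ((convex_ball ((l : ℂ) * ζ') τ).inter (convex_ball ((l : ℂ) * ζ) τ)).isPreconnected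
      ((hY2 _ (hmem ζ' hζ')).mono inter_subset_left) ((hY2 _ (hmem ζ hζ)).mono inter_subset_right)
      (ζ₀ := (l : ℂ) * ζ') ⟨mem_ball_self hτ, mem_ball.2 h1⟩
      (by rw [hY1 _ (hmem ζ' hζ'), hYy _ (hmem ζ hζ) ⟨mem_ball.2 h1, hmem ζ' hζ'⟩])
    exact h4 ⟨mem_ball.2 h3, mem_ball.2 h2⟩
  refine ⟨fun ζ => Y ((l : ℂ) * ζ) ζ, ?_, ?_, ?_, ?_⟩
  · show Y ((l : ℂ) * 0) 0 = y 0
    rw [mul_zero]
    exact hY1 0 (mem_ball_self hr)
  · intro ζ hζ
    have h1 : DifferentiableAt ℂ (Y ((l : ℂ) * ζ)) ζ :=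
      (hY2 _ (hmem ζ hζ)).diff.differentiableAt (isOpen_ball.mem_nhds
        (mem_ball.2 (lt_trans (hdist ζ hζ) (by linarith))))
    refine (h1.congr_of_eventuallyEq ?_).differentiableWithinAt
    filter_upwards [isOpen_ball.mem_nhds hζ, ball_mem_nhds ζ (by positivity : 0 < τ / 2)]
      with ζ' h2 h3
    exact hagree ζ hζ ζ' h2 (mem_ball.1 h3)
  · intro ζ hζ
    exact (hY2 _ (hmem ζ hζ)).not_mem ζ (mem_ball.2 (lt_trans (hdist ζ hζ) (by linarith)))
  · intro ζ hζ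
    exact (hY2 _ (hmem ζ hζ)).eq ζ (mem_ball.2 (lt_trans (hdist ζ hζ) (by linarith)))

lemma sol_on_ball (h : GoodFn g P)
    (hlow : ∀ K : ℝ, 0 < K → ∃ δ > 0, ∀ z ∉ P, 1 / K ≤ ‖g z‖ → ‖g z‖ ≤ K → δ ≤ ‖deriv g z‖)
    (hup : ∃ C : ℝ, ∀ z ∉ P, ‖deriv g z‖ ≤ C * (1 + ‖g z‖ ^ 2)) {z₀ : ℂ} (hz₀ : z₀ ∉ P)
    (hgz₀ : g z₀ ≠ 0) (R : ℝ) :
    ∃ y : ℂ → ℂ, y 0 = z₀ ∧ IsSol g P (g z₀) y (ball 0 R) := by
  obtain ⟨τ, hτ, hext⟩ := extend_sol h hlow hup hgz₀ R
  -- start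
  have hpos : 0 < ‖g z₀‖ := norm_pos_iff.2 hgz₀
  set K : ℝ := max 1 (max ‖g z₀‖ (1 / ‖g z₀‖)) with hK
  obtain ⟨τ₀, hτ₀, hloc⟩ := h.local_sol hlow hup K (le_max_left _ _)
  obtain ⟨Y, hY0, hYd, hY⟩ := hloc z₀ hz₀
    (by
      rw [div_le_iff₀ (lt_of_lt_of_le zero_lt_one (le_max_left _ _)), ← div_le_iff₀' hpos]
      exact (le_max_right _ _).trans (le_max_right _ _))
    ((le_max_left _ _).trans (le_max_right _ _))
  have hind : ∀ n : ℕ, ∃ r, (min (τ₀ + n * τ) R ≤ r ∧ 0 < r) ∧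
      ∃ y : ℂ → ℂ, y 0 = z₀ ∧ IsSol g P (g z₀) y (ball 0 r) := by
    intro n
    induction n with
    | zero =>
      refine ⟨τ₀, ⟨by simp, hτ₀⟩, Y, hY0, hYd, fun ζ hζ => (hY ζ hζ).1, fun ζ hζ => (hY ζ hζ).2⟩
    | succ n ih =>
      obtain ⟨r, ⟨hr1, hr2⟩, y, hy0, hy⟩ := ih
      by_cases hrR : r ≤ R
      · obtain ⟨y', hy'0, hy'⟩ := hext r hr2 hrR y hy
        refine ⟨r + τ, ⟨?_, by positivity⟩, y', hy'0.trans hy0, hy'⟩
        rcases min_le_iff.1 hr1 with h1 | h1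
        · refine (min_le_left _ _).trans ?_
          push_cast
          linarith
        · refine (min_le_right _ _).trans ?_
          linarith
      · exact ⟨r, ⟨(min_le_right _ _).trans (le_of_not_ge hrR), hr2⟩, y, hy0, hy⟩
  obtain ⟨n, hn⟩ := exists_nat_ge (R / τ)
  obtain ⟨r, ⟨hr1, -⟩, y, hy0, hy⟩ := hind n
  refine ⟨y, hy0, hy.mono (ball_subset_ball (le_trans ?_ hr1))⟩
  apply le_min _ le_rfl
  rw [div_le_iff₀ hτ] at hn
  linarith

/-- The entire solution. -/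
lemma entire_sol (h : GoodFn g P)
    (hlow : ∀ K : ℝ, 0 < K → ∃ δ > 0, ∀ z ∉ P, 1 / K ≤ ‖g z‖ → ‖g z‖ ≤ K → δ ≤ ‖deriv g z‖)
    (hup : ∃ C : ℝ, ∀ z ∉ P, ‖deriv g z‖ ≤ C * (1 + ‖g z‖ ^ 2)) {z₀ : ℂ} (hz₀ : z₀ ∉ P)
    (hgz₀ : g z₀ ≠ 0) :
    ∃ y : ℂ → ℂ, y 0 = z₀ ∧ IsSol g P (g z₀) y univ := by
  have hne := deriv_ne_of_low hlow
  have hball := fun n : ℕ => sol_on_ball h hlow hup hz₀ hgz₀ ((n : ℝ) + 1)
  choose y hy0 hy using hball
  have hagree : ∀ n m : ℕ, n ≤ m → EqOn (y n) (y m) (ball 0 ((n : ℝ) + 1)) := by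
    intro n m hnm
    have hnm' : (n : ℝ) ≤ m := by exact_mod_cast hnm
    exact sol_unique h hne hgz₀ isOpen_ball (convex_ball _ _).isPreconnected (hy n)
      ((hy m).mono (ball_subset_ball (by linarith))) (mem_ball_self (by positivity))
      (by rw [hy0, hy0])
  let Y : ℂ → ℂ := fun ζ => y ⌊‖ζ‖⌋₊ ζ
  have hY : ∀ n : ℕ, EqOn Y (y n) (ball 0 ((n : ℝ) + 1)) := by
    intro n ζ hζ
    rw [mem_ball_zero_iff] at hζ
    have h1 : ζ ∈ ball (0 : ℂ) ((⌊‖ζ‖⌋₊ : ℝ) + 1) := by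
      rw [mem_ball_zero_iff]
      exact Nat.lt_floor_add_one _
    have h2 : ⌊‖ζ‖⌋₊ ≤ n := by
      rw [← Nat.lt_succ_iff, Nat.floor_lt (norm_nonneg _)]
      push_cast
      exact hζ
    exact hagree _ _ h2 h1
  have hmem : ∀ ζ : ℂ, ζ ∈ ball (0 : ℂ) ((⌊‖ζ‖⌋₊ : ℝ) + 1) := fun ζ => by
    rw [mem_ball_zero_iff]
    exact Nat.lt_floor_add_one _
  refine ⟨Y, ?_, ?_, ?_, ?_⟩
  · rw [hY 0 (mem_ball_self (by positivity))]
    exact hy0 0
  · intro ζ _
    have h1 : DifferentiableAt ℂ (y ⌊‖ζ‖⌋₊) ζ :=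
      (hy _).diff.differentiableAt (isOpen_ball.mem_nhds (hmem ζ))
    refine (h1.congr_of_eventuallyEq ?_).differentiableWithinAt
    filter_upwards [isOpen_ball.mem_nhds (hmem ζ)] with ζ' hζ'
    exact hY _ hζ'
  · intro ζ _
    exact (hy _).not_mem ζ (hmem ζ)
  · intro ζ _
    exact (hy _).eq ζ (hmem ζ)

end global_solution

section zero_free

/-- An entire function without zeros and with `|k ζ| ≤ C e^{2|ζ|}` is `k 0 * e^{α ζ}`. -/
lemma exp_of_zero_free {k : ℂ → ℂ} (hk : Differentiable ℂ k) (hk0 : ∀ ζ, k ζ ≠ 0) {C : ℝ}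
    (hC : ∀ ζ, ‖k ζ‖ ≤ C * Real.exp (2 * ‖ζ‖)) :
    ∃ α : ℂ, ∀ ζ, k ζ = k 0 * Complex.exp (α * ζ) := by
  -- a logarithm
  have hk' : Differentiable ℂ (deriv k) := fun z =>
    ((hk.analyticAt z).deriv).differentiableAt
  have hquot : Differentiable ℂ (fun ζ => deriv k ζ / k ζ) := hk'.div hk hk0
  obtain ⟨q, hq⟩ := hquot.isExactOn_univ
  have hq' : ∀ ζ, HasDerivAt q (deriv k ζ / k ζ) ζ := fun ζ => hq ζ (mem_univ _)
  have hqd : Differentiable ℂ q := fun ζ => (hq' ζ).differentiableAt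
  have hconst : ∀ ζ, k ζ * Complex.exp (-q ζ) = k 0 * Complex.exp (-q 0) := by
    intro ζ
    have hd : ∀ w, HasDerivAt (fun w => k w * Complex.exp (-q w)) 0 w := by
      intro w
      have h1 : HasDerivAt (fun w => k w * Complex.exp (-q w))
          (deriv k w * Complex.exp (-q w) + k w * (Complex.exp (-q w) * (-(deriv k w / k w)))) w :=
        (hk w).hasDerivAt.mul ((hq' w).neg.cexp)
      refine h1.congr_deriv ?_
      have := hk0 w
      field_simp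
      ring
    exact is_const_of_deriv_eq_zero (fun w => (hd w).differentiableAt) (fun w => (hd w).deriv) ζ 0
  set Q : ℂ → ℂ := fun ζ => q ζ - q 0 with hQ
  have hkQ : ∀ ζ, k ζ = k 0 * Complex.exp (Q ζ) := by
    intro ζ
    have h1 := hconst ζ
    have h2 : k ζ = (k ζ * Complex.exp (-q ζ)) * Complex.exp (q ζ) := by
      rw [mul_assoc, ← Complex.exp_add]
      simp
    rw [h2, h1, mul_assoc, ← Complex.exp_add]
    congr 2
    rw [hQ]
    ring
  have hQ0 : Q 0 = 0 := by simp [hQ]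
  have hQd : Differentiable ℂ Q := hqd.sub_const _
  have hk00 : 0 < ‖k 0‖ := norm_pos_iff.2 (hk0 0)
  -- upper bound of the real part
  have hCpos : 0 < C := by
    have h1 := hC 0
    simp only [norm_zero, mul_zero, Real.exp_zero, mul_one] at h1
    linarith
  set A : ℝ := |Real.log (C / ‖k 0‖)| + 1 with hA
  have hA0 : 0 < A := by positivity
  have hre : ∀ ζ, (Q ζ).re ≤ A + 2 * ‖ζ‖ := by
    intro ζ
    have h1 := hC ζ
    rw [hkQ ζ, norm_mul, Complex.norm_exp] at h1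
    have h2 : Real.exp (Q ζ).re ≤ C / ‖k 0‖ * Real.exp (2 * ‖ζ‖) := by
      rw [div_mul_eq_mul_div, le_div_iff₀ hk00]
      linarith
    have h3 : (Q ζ).re ≤ Real.log (C / ‖k 0‖ * Real.exp (2 * ‖ζ‖)) := by
      rw [Real.le_log_iff_exp_le (by positivity)]
      exact h2
    rw [Real.log_mul (by positivity) (Real.exp_ne_zero _), Real.log_exp] at h3
    have := le_abs_self (Real.log (C / ‖k 0‖))
    linarith
  -- linear growth
  have hgrowth : ∀ ζ, ‖Q ζ‖ ≤ 2 * (A + 2) * (1 + 2 * ‖ζ‖) := by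
    intro ζ
    set R : ℝ := 2 * ‖ζ‖ + 1 with hR
    have hR0 : 0 < R := by positivity
    have hz : ζ ∈ ball (0 : ℂ) R := by
      rw [mem_ball_zero_iff, hR]
      linarith [norm_nonneg ζ]
    have h1 := Complex.borelCaratheodory (f := Q) (M := A + 2 * R) (R := R) (z := ζ) (by positivity)
      hQd.differentiableOn (fun w hw => ?_) hR0 hz
    · rw [hQ0, norm_zero, zero_mul, zero_div, add_zero] at h1
      refine h1.trans ?_
      rw [div_le_iff₀ (by linarith [norm_nonneg ζ])]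
      have h2 : R - ‖ζ‖ = ‖ζ‖ + 1 := by rw [hR]; ring
      rw [h2, hR]
      have h3 := norm_nonneg ζ
      nlinarith [mul_nonneg h3 h3, mul_nonneg hA0.le h3, mul_nonneg hA0.le (mul_nonneg h3 h3)]
    · show (Q w).re ≤ A + 2 * R
      have h2 := hre w
      rw [mem_ball_zero_iff] at hw
      linarith
  -- the derivative is bounded
  have hbd : ∀ ζ, ‖deriv Q ζ‖ ≤ 2 * (A + 2) * 4 := by
    intro ζ
    have h3 := norm_nonneg ζ
    have h1 := Complex.norm_deriv_le_of_forall_mem_sphere_norm_le (f := Q) (c := ζ)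
      (R := ‖ζ‖ + 1) (C := 2 * (A + 2) * (1 + 2 * (2 * ‖ζ‖ + 1))) (by positivity)
      hQd.diffContOnCl (fun w hw => ?_)
    · refine h1.trans ?_
      rw [div_le_iff₀ (by positivity)]
      nlinarith
    · refine (hgrowth w).trans ?_
      have h4 : ‖w‖ ≤ 2 * ‖ζ‖ + 1 := by
        rw [mem_sphere, dist_eq_norm] at hw
        have := norm_le_norm_sub_add w ζ
        linarith
      gcongr
  have hQd' : Differentiable ℂ (deriv Q) := fun z =>
    ((hQd.analyticAt z).deriv).differentiableAt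
  have hdc : ∀ ζ, deriv Q ζ = deriv Q 0 := fun ζ =>
    hQd'.apply_eq_apply_of_bounded (isBounded_iff_forall_norm_le.2 ⟨_, by
      rintro _ ⟨w, rfl⟩
      exact hbd w⟩) ζ 0
  refine ⟨deriv Q 0, fun ζ => ?_⟩
  rw [hkQ ζ]
  congr 2
  have hlin : ∀ w, HasDerivAt (fun w => Q w - deriv Q 0 * w) 0 w := by
    intro w
    have h1 := (hQd w).hasDerivAt.sub ((hasDerivAt_id w).const_mul (deriv Q 0))
    rw [hdc w, mul_one, sub_self] at h1
    exact h1
  have h5 := is_const_of_deriv_eq_zero (fun w => (hlin w).differentiableAt)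
    (fun w => (hlin w).deriv) ζ 0
  simp only [hQ0, mul_zero, sub_zero] at h5
  exact sub_eq_zero.1 h5

end zero_free

section main

variable {g : ℂ → ℂ} {P : Set ℂ} {b : ℂ}

lemma exp_two_pi_mul_eq {x : ℂ} (h : Complex.exp (x * (2 * Real.pi * Complex.I)) = 1) :
    ∃ n : ℤ, x = n := by
  obtain ⟨n, hn⟩ := Complex.exp_eq_one_iff.1 h
  refine ⟨n, ?_⟩
  have h2 : (2 * Real.pi * Complex.I : ℂ) ≠ 0 := Complex.two_pi_I_ne_zero
  exact mul_right_cancel₀ h2 hn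

/-- From a `b`-point. -/
lemma lift_from_b (h : GoodFn g P)
    (hlow : ∀ K : ℝ, 0 < K → ∃ δ > 0, ∀ z ∉ P, 1 / K ≤ ‖g z‖ → ‖g z‖ ≤ K → δ ≤ ‖deriv g z‖)
    (hup : ∃ C : ℝ, ∀ z ∉ P, ‖deriv g z‖ ≤ C * (1 + ‖g z‖ ^ 2))
    (hb0 : b ≠ 0) (hb : ∀ z ∉ P, g z = b ↔ deriv g z = b) {z₀ : ℂ} (hz₀ : z₀ ∉ P)
    (hgz₀ : g z₀ = b) (w : ℂ) : w ∉ P ∧ g w = b * Complex.exp (w - z₀) := by
  obtain ⟨y, hy0, hy⟩ := entire_sol h hlow hup hz₀ (by rw [hgz₀]; exact hb0)
  rw [hgz₀] at hy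
  have hyd : Differentiable ℂ y := fun ζ => (hy.diff ζ (mem_univ _)).differentiableAt univ_mem
  have hyP : ∀ ζ, y ζ ∉ P := fun ζ => hy.not_mem ζ (mem_univ _)
  have hyg : ∀ ζ, g (y ζ) = b * Complex.exp ζ := fun ζ => hy.eq ζ (mem_univ _)
  -- chain rule
  have hchain : ∀ ζ, deriv g (y ζ) * deriv y ζ = b * Complex.exp ζ := by
    intro ζ
    have h1 : HasDerivAt (fun ζ => g (y ζ)) (deriv g (y ζ) * deriv y ζ) ζ :=
      ((h.differentiableAt (hyP ζ)).hasDerivAt).comp ζ (hyd ζ).hasDerivAt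
    have h2 : HasDerivAt (fun ζ => g (y ζ)) (b * Complex.exp ζ) ζ := by
      have : (fun ζ => g (y ζ)) = fun ζ => b * Complex.exp ζ := funext hyg
      rw [this]
      exact (Complex.hasDerivAt_exp ζ).const_mul b
    exact h1.unique h2
  set k : ℂ → ℂ := fun ζ => deriv g (y ζ) with hk
  have hk0 : ∀ ζ, k ζ ≠ 0 := by
    intro ζ h0
    have h1 := hchain ζ
    rw [show deriv g (y ζ) = 0 from h0, zero_mul] at h1
    exact mul_ne_zero hb0 (Complex.exp_ne_zero _) h1.symm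
  have hkd : Differentiable ℂ k := fun ζ =>
    (((h.anal (y ζ) (hyP ζ)).deriv).differentiableAt).comp ζ (hyd ζ)
  obtain ⟨C, hC⟩ := hup
  have hkb : ∀ ζ, ‖k ζ‖ ≤ (|C| * (1 + ‖b‖ ^ 2)) * Real.exp (2 * ‖ζ‖) := by
    intro ζ
    refine (hC (y ζ) (hyP ζ)).trans ?_
    rw [hyg, norm_mul, Complex.norm_exp, mul_pow, ← Real.exp_nat_mul]
    have h1 : Real.exp (((2 : ℕ) : ℝ) * ζ.re) ≤ Real.exp (2 * ‖ζ‖) := by
      apply Real.exp_le_exp.2
      push_cast
      have := (le_abs_self _).trans (Complex.abs_re_le_norm ζ)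
      linarith
    have h2 : 1 ≤ Real.exp (2 * ‖ζ‖) := Real.one_le_exp (by positivity)
    calc C * (1 + ‖b‖ ^ 2 * Real.exp (((2 : ℕ) : ℝ) * ζ.re))
        ≤ |C| * (1 + ‖b‖ ^ 2 * Real.exp (((2 : ℕ) : ℝ) * ζ.re)) := by
          gcongr
          exact le_abs_self C
      _ ≤ |C| * (Real.exp (2 * ‖ζ‖) + ‖b‖ ^ 2 * Real.exp (2 * ‖ζ‖)) := by gcongr
      _ = _ := by ring
  obtain ⟨α, hα⟩ := exp_of_zero_free hkd hk0 hkb
  have hk00 : k 0 = b := by
    show deriv g (y 0) = b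
    rw [hy0]
    exact (hb z₀ hz₀).1 hgz₀
  rw [hk00] at hα
  have hyder : ∀ ζ, deriv y ζ = Complex.exp ((1 - α) * ζ) := by
    intro ζ
    have h1 := hchain ζ
    rw [show deriv g (y ζ) = b * Complex.exp (α * ζ) from hα ζ, mul_assoc] at h1
    have h2 := mul_left_cancel₀ hb0 h1
    have h3 : Complex.exp ζ = Complex.exp (α * ζ) * Complex.exp ((1 - α) * ζ) := by
      rw [← Complex.exp_add]
      congr 1
      ring
    rw [h3] at h2
    exact mul_left_cancel₀ (Complex.exp_ne_zero _) h2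
  -- `α = 1`
  have hα1 : α = 1 := by
    by_contra hne
    have hμ : 1 - α ≠ 0 := fun h0 => hne (sub_eq_zero.1 h0).symm
    have hy1 : ∀ ζ, y ζ = z₀ + (Complex.exp ((1 - α) * ζ) - 1) / (1 - α) := by
      intro ζ
      have hd : ∀ w, HasDerivAt (fun w => y w - Complex.exp ((1 - α) * w) / (1 - α)) 0 w := by
        intro w
        have h1 : HasDerivAt (fun w => Complex.exp ((1 - α) * w) / (1 - α))
            (Complex.exp ((1 - α) * w) * ((1 - α) * 1) / (1 - α)) w :=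
          (((hasDerivAt_id w).const_mul (1 - α)).cexp).div_const (1 - α)
        have h2 := (hyd w).hasDerivAt.sub h1
        rw [hyder w, mul_one, mul_div_assoc, div_self hμ, mul_one, sub_self] at h2
        exact h2
      have h3 := is_const_of_deriv_eq_zero (fun w => (hd w).differentiableAt)
        (fun w => (hd w).deriv) ζ 0
      simp only [hy0, mul_zero, Complex.exp_zero] at h3
      field_simp at h3 ⊢
      linear_combination h3
    -- `α` is an integer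
    have h2pi : g (y (2 * Real.pi * Complex.I)) = b := by
      rw [hyg, Complex.exp_two_pi_mul_I, mul_one]
    have h1 := (hb _ (hyP _)).1 h2pi
    rw [show deriv g (y (2 * Real.pi * Complex.I)) = b * Complex.exp (α * (2 * Real.pi * Complex.I))
      from hα _] at h1
    have h2 : Complex.exp (α * (2 * Real.pi * Complex.I)) = 1 :=
      mul_left_cancel₀ hb0 (by rw [h1, mul_one])
    obtain ⟨n, hn⟩ := exp_two_pi_mul_eq h2
    by_cases hα0 : α = 0
    · -- `α = 0`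
      have h3 : deriv g (y 1) = b := by
        rw [show deriv g (y 1) = b * Complex.exp (α * 1) from hα 1, hα0]
        simp
      have h4 := (hb _ (hyP 1)).2 h3
      rw [hyg] at h4
      have h5 : Complex.exp 1 = 1 := mul_left_cancel₀ hb0 (by rw [h4, mul_one])
      have h6 : Real.exp 1 = 1 := by
        have h7 := congrArg norm h5
        rw [Complex.norm_exp, norm_one, Complex.one_re] at h7
        exact h7
      have h7 := Real.add_one_lt_exp (x := 1) one_ne_zero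
      linarith
    · -- `1/α` is an integer
      have h3 : deriv g (y (1 / α * (2 * Real.pi * Complex.I))) = b := by
        rw [show deriv g (y (1 / α * (2 * Real.pi * Complex.I)))
          = b * Complex.exp (α * (1 / α * (2 * Real.pi * Complex.I))) from hα _, ← mul_assoc,
          mul_one_div_cancel hα0, one_mul, Complex.exp_two_pi_mul_I, mul_one]
      have h4 := (hb _ (hyP _)).2 h3
      rw [hyg] at h4
      have h5 : Complex.exp (1 / α * (2 * Real.pi * Complex.I)) = 1 :=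
        mul_left_cancel₀ hb0 (by rw [h4, mul_one])
      obtain ⟨m, hm⟩ := exp_two_pi_mul_eq h5
      have h6 : n * m = 1 := by
        have h7 : (n : ℂ) * m = 1 := by
          rw [← hn, ← hm, mul_one_div_cancel hα0]
        exact_mod_cast h7
      rcases Int.mul_eq_one_iff_eq_one_or_neg_one.1 h6 with ⟨h7, -⟩ | ⟨h7, -⟩
      · apply hne
        rw [hn, h7]
        simp
      · -- `α = -1`
        have hα' : α = -1 := by
          rw [hn, h7]
          simp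
        have h8 : y (Real.pi * Complex.I) = z₀ := by
          rw [hy1, hα', show (1 - (-1 : ℂ)) * (Real.pi * Complex.I) = 2 * Real.pi * Complex.I by
            ring, Complex.exp_two_pi_mul_I]
          simp
        have h9 := hyg (Real.pi * Complex.I)
        rw [h8, hgz₀, Complex.exp_pi_mul_I] at h9
        apply hb0
        have : b + b = 0 := by linear_combination h9
        have h10 : 2 * b = 0 := by linear_combination this
        exact (mul_eq_zero.1 h10).resolve_left two_ne_zero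
  have hy1 : ∀ ζ, y ζ = z₀ + ζ := by
    intro ζ
    have hd : ∀ w, HasDerivAt (fun w => y w - w) 0 w := by
      intro w
      have h2 := (hyd w).hasDerivAt.sub (hasDerivAt_id w)
      rw [hyder w, hα1, sub_self, zero_mul, Complex.exp_zero, sub_self] at h2
      exact h2
    have h3 := is_const_of_deriv_eq_zero (fun w => (hd w).differentiableAt)
      (fun w => (hd w).deriv) ζ 0
    simp only [hy0, sub_zero] at h3
    linear_combination h3
  have h1 : y (w - z₀) = w := by rw [hy1]; ring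
  exact ⟨h1 ▸ hyP (w - z₀), by rw [← hyg (w - z₀), h1]⟩

/-- **Case (ii).** -/
theorem lift_main (h : GoodFn g P)
    (hlow : ∀ K : ℝ, 0 < K → ∃ δ > 0, ∀ z ∉ P, 1 / K ≤ ‖g z‖ → ‖g z‖ ≤ K → δ ≤ ‖deriv g z‖)
    (hup : ∃ C : ℝ, ∀ z ∉ P, ‖deriv g z‖ ≤ C * (1 + ‖g z‖ ^ 2))
    (hb0 : b ≠ 0) (hb : ∀ z ∉ P, g z = b ↔ deriv g z = b) {z₀ : ℂ} (hz₀ : z₀ ∉ P)
    (hgz₀ : g z₀ ≠ 0) (w : ℂ) : w ∉ P ∧ g w = g z₀ * Complex.exp (w - z₀) := by
  obtain ⟨y, hy0, hy⟩ := entire_sol h hlow hup hz₀ hgz₀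
  -- a `b`-point
  set ζ₁ : ℂ := Complex.log (b / g z₀) with hζ₁
  have h1 : g (y ζ₁) = b := by
    rw [hy.eq ζ₁ (mem_univ _), hζ₁, Complex.exp_log (div_ne_zero hb0 hgz₀)]
    field_simp
  have h2 := lift_from_b h hlow hup hb0 hb (hy.not_mem ζ₁ (mem_univ _)) h1
  refine ⟨(h2 w).1, ?_⟩
  rw [(h2 w).2, (h2 z₀).2, mul_assoc, ← Complex.exp_add]
  congr 2
  ring

end main

end MP_35e7b7_an
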