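import Mathlib
import Pool.Agent.Lib.MP_35e7b7_an.Basic

/-!
# Limit functions of translates along an ultrafilter
-/

open Filter Topology Metric Set

namespace MP_35e7b7_an

/-- Pointwise convergence of uniformly bounded holomorphic functions is locally uniform. -/
theorem tlu_of_bounded {l : Filter ℕ} [l.NeBot] {h : ℕ → ℂ → ℂ} {H : ℂ → ℂ} {w₀ : ℂ} {ρ C : ℝ}
    (hd : ∀ᶠ n in l, DifferentiableOn ℂ (h n) (ball w₀ ρ) ∧ ∀ w ∈ ball w₀ ρ, ‖h n w‖ ≤ C)
    (hlim : ∀ w ∈ ball w₀ ρ, Tendsto (fun n => h n w) l (𝓝 (H w))) :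
    TendstoLocallyUniformlyOn h H l (ball w₀ ρ) := by
  rw [Metric.tendstoLocallyUniformlyOn_iff]
  intro ε hε w₁ hw₁
  obtain ⟨η', hη', hsub⟩ := Metric.isOpen_ball.mem_nhds hw₁ |> Metric.mem_nhds_iff.mp
  set η := η' / 2 with hη
  have hη0 : 0 < η := by positivity
  -- Lipschitz estimate
  have hlip : ∀ᶠ n in l, ∀ w ∈ ball w₁ η, ‖h n w - h n w₁‖ ≤ (max C 0 / (η / 2)) * ‖w - w₁‖ := by
    filter_upwards [hd] with n hn w hw
    have hder : ∀ v ∈ ball w₁ η, ‖deriv (h n) v‖ ≤ max C 0 / (η / 2) := by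
      intro v hv
      have hcl : closedBall v (η / 2) ⊆ ball w₀ ρ := by
        intro u hu
        apply hsub
        rw [mem_ball] at hv ⊢
        rw [mem_closedBall] at hu
        calc dist u w₁ ≤ dist u v + dist v w₁ := dist_triangle _ _ _
          _ < η' := by linarith
      apply Complex.norm_deriv_le_of_forall_mem_sphere_norm_le (by positivity)
      · apply DifferentiableOn.diffContOnCl
        rw [closure_ball _ (by positivity)]
        exact hn.1.mono hcl
      · intro u hu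
        exact (hn.2 u (hcl (sphere_subset_closedBall hu))).trans (le_max_left _ _)
    have hdv : ∀ v ∈ ball w₁ η, DifferentiableAt ℂ (h n) v := by
      intro v hv
      apply hn.1.differentiableAt
      apply Metric.isOpen_ball.mem_nhds
      apply hsub
      rw [mem_ball] at hv ⊢
      linarith
    exact (convex_ball w₁ η).norm_image_sub_le_of_norm_deriv_le hdv hder (mem_ball_self hη0) hw
  have hballsub : ball w₁ η ⊆ ball w₀ ρ := by
    intro v hv
    apply hsub
    rw [mem_ball] at hv ⊢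
    linarith
  have hlipH : ∀ w ∈ ball w₁ η, ‖H w - H w₁‖ ≤ (max C 0 / (η / 2)) * ‖w - w₁‖ := by
    intro w hw
    have h1 : Tendsto (fun n => ‖h n w - h n w₁‖) l (𝓝 ‖H w - H w₁‖) :=
      ((hlim w (hballsub hw)).sub (hlim w₁ hw₁)).norm
    refine le_of_tendsto h1 ?_
    filter_upwards [hlip] with n hn
    exact hn w hw
  set Λ := max C 0 / (η / 2) with hΛ
  have hΛ0 : 0 ≤ Λ := by positivity
  set r := min η (ε / (3 * (Λ + 1))) with hr
  have hr0 : 0 < r := by positivity
  refine ⟨ball w₁ r, mem_nhdsWithin_of_mem_nhds (ball_mem_nhds _ hr0), ?_⟩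
  have hconv : ∀ᶠ n in l, dist (h n w₁) (H w₁) < ε / 3 :=
    (Metric.tendsto_nhds.mp (hlim w₁ hw₁)) _ (by positivity)
  filter_upwards [hlip, hconv] with n hn hn' w hw
  have hwη : w ∈ ball w₁ η := ball_subset_ball (min_le_left _ _) hw
  have hwr : ‖w - w₁‖ < ε / (3 * (Λ + 1)) := by
    rw [mem_ball, dist_eq_norm] at hw
    exact hw.trans_le (min_le_right _ _)
  have h3 : Λ * ‖w - w₁‖ < ε / 3 := by
    have : Λ * ‖w - w₁‖ ≤ Λ * (ε / (3 * (Λ + 1))) :=
      mul_le_mul_of_nonneg_left hwr.le hΛ0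
    have h4 : Λ * (ε / (3 * (Λ + 1))) = (ε / 3) * (Λ / (Λ + 1)) := by
      field_simp
    have h5 : Λ / (Λ + 1) < 1 := by
      rw [div_lt_one (by positivity)]; linarith
    have h6 : (ε / 3) * (Λ / (Λ + 1)) < ε / 3 := by
      have : (0 : ℝ) < ε / 3 := by positivity
      nlinarith
    linarith
  rw [dist_eq_norm] at hn' ⊢
  have e1 : H w - h n w = (H w - H w₁) - (h n w₁ - H w₁) - (h n w - h n w₁) := by ring
  rw [e1]
  calc ‖(H w - H w₁) - (h n w₁ - H w₁) - (h n w - h n w₁)‖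
      ≤ ‖(H w - H w₁) - (h n w₁ - H w₁)‖ + ‖h n w - h n w₁‖ := norm_sub_le _ _
    _ ≤ ‖H w - H w₁‖ + ‖h n w₁ - H w₁‖ + ‖h n w - h n w₁‖ := by
        gcongr; exact norm_sub_le _ _
    _ < ε := by
        have := hlipH w hwη
        have := hn w hwη
        linarith

/-- Uniform dichotomy near infinity: on each disc of radius `ρ` centred outside the disc of
radius `R`, either `g` is bounded away from `b` or `g` is finite and close to `b`. -/
def Dich (g : ℂ → ℂ) (P : Set ℂ) (b : ℂ) (δ ρ R : ℝ) : Prop :=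
  ∀ z, R < ‖z‖ → (∀ w ∈ ball z ρ, w ∈ P ∨ δ / 2 ≤ ‖g w - b‖) ∨
    (∀ w ∈ ball z ρ, w ∉ P ∧ ‖g w - b‖ ≤ 2 * δ)

/-- Lemma 1 of the proof. -/
theorem GoodFn.dich {g : ℂ → ℂ} {P : Set ℂ} (h : GoodFn g P) {b : ℂ} {δ A R : ℝ} (hδ : 0 < δ)
    (hA : 0 < A)
    (hder : ∀ z ∉ P, R < ‖z‖ → ‖g z - b‖ ≤ 2 * δ → ‖deriv g z‖ ≤ A) :
    Dich g P b δ (min (1 / 2) (δ / (2 * A))) (R + 1) := by
  intro z hz
  set ρ := min (1 / 2) (δ / (2 * A)) with hρ
  have hρ0 : 0 < ρ := by positivity
  have hρ1 : ρ ≤ 1 / 2 := min_le_left _ _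
  have hρ2 : A * ρ ≤ δ / 2 := by
    have : ρ ≤ δ / (2 * A) := min_le_right _ _
    calc A * ρ ≤ A * (δ / (2 * A)) := mul_le_mul_of_nonneg_left this hA.le
      _ = δ / 2 := by field_simp
  by_cases hcase : z ∉ P ∧ ‖g z - b‖ ≤ δ
  · right
    intro w hw
    have hg := h.grow (b := b) (z := z) (K := δ) (L := 2 * δ) (B := A) (ρ := ρ) hcase.1 hcase.2
      (by linarith) (fun v hv hvP hvb => hder v hvP ?_ hvb) hA.le (by linarith) w hw
    · refine ⟨hg.1, hg.2.trans ?_⟩
      have : dist w z < ρ := mem_ball.mp hw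
      have : A * dist w z ≤ A * ρ := mul_le_mul_of_nonneg_left this.le hA.le
      linarith
    · rw [mem_ball, dist_eq_norm] at hv
      have := norm_sub_norm_le z v
      rw [norm_sub_rev] at this
      linarith
  · left
    intro w hw
    by_contra hcon
    push Not at hcon
    apply hcase
    have hzw : z ∈ ball w ρ := by rwa [mem_ball_comm] 
    have hwn : R + 1 / 2 < ‖w‖ := by
      rw [mem_ball, dist_eq_norm] at hw
      have := norm_sub_norm_le z w
      rw [norm_sub_rev] at this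
      linarith
    have hg := h.grow (b := b) (z := w) (K := δ / 2) (L := δ) (B := A) (ρ := ρ) hcon.1 hcon.2.le
      (by linarith) (fun v hv hvP hvb => hder v hvP ?_ (by linarith)) hA.le (by linarith) z hzw
    · refine ⟨hg.1, hg.2.trans ?_⟩
      have : dist z w < ρ := mem_ball.mp hzw
      have : A * dist z w ≤ A * ρ := mul_le_mul_of_nonneg_left this.le hA.le
      linarith
    · rw [mem_ball, dist_eq_norm] at hv
      have := norm_sub_norm_le w v
      rw [norm_sub_rev] at this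
      linarith

section limit

variable (g : ℂ → ℂ) (P : Set ℂ) (z : ℕ → ℂ) (U : Ultrafilter ℕ)

/-- `c` is the (finite) limit of `g (z n + w)` along the ultrafilter. -/
def FinLim (w c : ℂ) : Prop :=
  Tendsto (fun n => g (z n + w)) U (𝓝 c) ∧ ∀ᶠ n in (U : Filter ℕ), z n + w ∉ P

/-- poles of the limit function -/
def limP : Set ℂ := {w | ¬ ∃ c, FinLim g P z U w c}

/-- the limit function -/
noncomputable def limG (w : ℂ) : ℂ :=
  open Classical in if h : ∃ c, FinLim g P z U w c then h.choose else 0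

variable {g P z U}

lemma limG_spec {w : ℂ} (hw : w ∉ limP g P z U) : FinLim g P z U w (limG g P z U w) := by
  have h : ∃ c, FinLim g P z U w c := by
    simpa [limP] using hw
  unfold limG
  rw [dif_pos h]
  exact h.choose_spec

lemma FinLim.limG_eq {w c : ℂ} (h : FinLim g P z U w c) :
    w ∉ limP g P z U ∧ limG g P z U w = c := by
  have h1 : w ∉ limP g P z U := by
    intro hw
    exact hw ⟨c, h⟩
  exact ⟨h1, tendsto_nhds_unique (limG_spec h1).1 h.1⟩

lemma finLim_of_bounded {w b : ℂ} {C : ℝ}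
    (h : ∀ᶠ n in (U : Filter ℕ), z n + w ∉ P ∧ ‖g (z n + w) - b‖ ≤ C) :
    w ∉ limP g P z U ∧ Tendsto (fun n => g (z n + w)) U (𝓝 (limG g P z U w)) := by
  have hc : ∃ c, Tendsto (fun n => g (z n + w)) U (𝓝 c) := by
    have hmem : (closedBall b C) ∈ U.map (fun n => g (z n + w)) := by
      rw [Ultrafilter.mem_map]
      filter_upwards [h] with n hn
      rw [mem_preimage, mem_closedBall, dist_eq_norm]
      exact hn.2
    obtain ⟨c, -, hc⟩ := (isCompact_closedBall b C).ultrafilter_le_nhds' _ hmem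
    exact ⟨c, hc⟩
  obtain ⟨c, hc⟩ := hc
  have hfl : FinLim g P z U w c := ⟨hc, h.mono fun n hn => hn.1⟩
  obtain ⟨h1, h2⟩ := hfl.limG_eq
  exact ⟨h1, by rw [h2]; exact hc⟩

lemma tendsto_phi {w b : ℂ} {δ : ℝ} (hδ : 0 < δ)
    (h : ∀ᶠ n in (U : Filter ℕ), z n + w ∈ P ∨ δ ≤ ‖g (z n + w) - b‖) :
    Tendsto (fun n => phi g P b (z n + w)) U (𝓝 (phi (limG g P z U) (limP g P z U) b w)) := by
  have hbd : ∀ᶠ n in (U : Filter ℕ), ‖phi g P b (z n + w)‖ ≤ δ⁻¹ := by
    filter_upwards [h] with n hn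
    by_cases hP : z n + w ∈ P
    · rw [phi_of_mem hP, norm_zero]; positivity
    · rw [phi_of_not_mem hP, norm_inv]
      exact inv_anti₀ hδ (hn.resolve_left hP)
  have hc : ∃ c, Tendsto (fun n => phi g P b (z n + w)) U (𝓝 c) := by
    have hmem : (closedBall (0 : ℂ) δ⁻¹) ∈ U.map (fun n => phi g P b (z n + w)) := by
      rw [Ultrafilter.mem_map]
      filter_upwards [hbd] with n hn
      rwa [mem_preimage, mem_closedBall, dist_zero_right]
    obtain ⟨c, -, hc⟩ := (isCompact_closedBall (0 : ℂ) δ⁻¹).ultrafilter_le_nhds' _ hmem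
    exact ⟨c, hc⟩
  obtain ⟨c, hc⟩ := hc
  suffices phi (limG g P z U) (limP g P z U) b w = c by rw [this]; exact hc
  by_cases hc0 : c = 0
  · subst hc0
    have hw : w ∈ limP g P z U := by
      rintro ⟨c', hc', hP⟩
      have h1 : Tendsto (fun n => phi g P b (z n + w) * (g (z n + w) - b)) U
          (𝓝 (0 * (c' - b))) := hc.mul (hc'.sub_const b)
      have h2 : (fun n => phi g P b (z n + w) * (g (z n + w) - b)) =ᶠ[(U : Filter ℕ)]
          fun _ => (1 : ℂ) := by
        filter_upwards [h, hP] with n hn hPn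
        rw [phi_of_not_mem hPn]
        apply inv_mul_cancel₀
        intro h0
        have := hn.resolve_left hPn
        rw [h0, norm_zero] at this
        linarith
      have h3 := tendsto_nhds_unique (h1.congr' h2) tendsto_const_nhds
      simp at h3
    rw [phi_of_mem hw]
  · have hne : ∀ᶠ n in (U : Filter ℕ), phi g P b (z n + w) ≠ 0 := hc.eventually_ne hc0
    have hP : ∀ᶠ n in (U : Filter ℕ), z n + w ∉ P := by
      filter_upwards [hne] with n hn hP
      exact hn (phi_of_mem hP)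
    have hg : Tendsto (fun n => g (z n + w)) U (𝓝 (b + c⁻¹)) := by
      have h1 : Tendsto (fun n => b + (phi g P b (z n + w))⁻¹) U (𝓝 (b + c⁻¹)) :=
        (hc.inv₀ hc0).const_add b
      refine h1.congr' ?_
      filter_upwards [hP] with n hn
      rw [phi_of_not_mem hn, inv_inv]
      ring
    obtain ⟨h1, h2⟩ := FinLim.limG_eq (P := P) ⟨hg, hP⟩
    rw [phi_of_not_mem h1, h2]
    simp

variable {b : ℂ} {δ ρ R : ℝ}

/-- The two types of charts of the limit function. -/
lemma charts (hD : Dich g P b δ ρ R) (hz : Tendsto (fun n => ‖z n‖) U atTop) (w : ℂ) :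
    (∀ᶠ n in (U : Filter ℕ), ∀ v ∈ ball w ρ, z n + v ∈ P ∨ δ / 2 ≤ ‖g (z n + v) - b‖) ∨
    (∀ᶠ n in (U : Filter ℕ), ∀ v ∈ ball w ρ, z n + v ∉ P ∧ ‖g (z n + v) - b‖ ≤ 2 * δ) := by
  rw [← Ultrafilter.eventually_or]
  have h1 : ∀ᶠ n in (U : Filter ℕ), R < ‖z n + w‖ := by
    filter_upwards [hz.eventually_gt_atTop (R + ‖w‖)] with n hn
    have := norm_sub_norm_le (z n) (-w)
    rw [norm_neg, sub_neg_eq_add] at this
    linarith
  filter_upwards [h1] with n hn
  have htr : ∀ v ∈ ball w ρ, z n + v ∈ ball (z n + w) ρ := by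
    intro v hv
    rw [mem_ball, dist_eq_norm] at hv ⊢
    have : z n + v - (z n + w) = v - w := by ring
    rwa [this]
  rcases hD _ hn with h | h
  · exact Or.inl fun v hv => h _ (htr v hv)
  · exact Or.inr fun v hv => h _ (htr v hv)

lemma tlu_two (hg : GoodFn g P) {w : ℂ}
    (h : ∀ᶠ n in (U : Filter ℕ), ∀ v ∈ ball w ρ, z n + v ∉ P ∧ ‖g (z n + v) - b‖ ≤ 2 * δ) :
    (∀ v ∈ ball w ρ, v ∉ limP g P z U) ∧
    TendstoLocallyUniformlyOn (fun n v => g (z n + v)) (limG g P z U) U (ball w ρ) := by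
  have hpt : ∀ v ∈ ball w ρ, v ∉ limP g P z U ∧
      Tendsto (fun n => g (z n + v)) U (𝓝 (limG g P z U v)) := fun v hv =>
    finLim_of_bounded (h.mono fun n hn => hn v hv)
  refine ⟨fun v hv => (hpt v hv).1, ?_⟩
  apply tlu_of_bounded (C := ‖b‖ + 2 * δ) _ (fun v hv => (hpt v hv).2)
  filter_upwards [h] with n hn
  refine ⟨fun v hv => ?_, fun v hv => ?_⟩
  · apply DifferentiableAt.differentiableWithinAt
    have h1 : DifferentiableAt ℂ g (z n + v) := hg.differentiableAt (hn v hv).1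
    exact DifferentiableAt.comp v h1 (by fun_prop)
  · have := (hn v hv).2
    have h2 := norm_add_le (g (z n + v) - b) b
    rw [sub_add_cancel] at h2
    linarith

lemma tlu_one (hg : GoodFn g P) (hδ : 0 < δ) {w : ℂ}
    (h : ∀ᶠ n in (U : Filter ℕ), ∀ v ∈ ball w ρ, z n + v ∈ P ∨ δ / 2 ≤ ‖g (z n + v) - b‖) :
    TendstoLocallyUniformlyOn (fun n v => phi g P b (z n + v))
      (phi (limG g P z U) (limP g P z U) b) U (ball w ρ) := by
  have hpt : ∀ v ∈ ball w ρ, Tendsto (fun n => phi g P b (z n + v)) U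
      (𝓝 (phi (limG g P z U) (limP g P z U) b v)) := fun v hv =>
    tendsto_phi (half_pos hδ) (h.mono fun n hn => hn v hv)
  apply tlu_of_bounded (C := (δ / 2)⁻¹) _ hpt
  filter_upwards [h] with n hn
  refine ⟨fun v hv => ?_, fun v hv => ?_⟩
  · apply DifferentiableAt.differentiableWithinAt
    have h1 : DifferentiableAt ℂ (phi g P b) (z n + v) := by
      apply (hg.phi_anal b _).differentiableAt
      intro hP h0
      have := (hn v hv).resolve_left hP
      rw [h0, sub_self, norm_zero] at this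
      linarith
    exact DifferentiableAt.comp v h1 (by fun_prop)
  · by_cases hP : z n + v ∈ P
    · rw [phi_of_mem hP, norm_zero]; positivity
    · rw [phi_of_not_mem hP, norm_inv]
      exact inv_anti₀ (by positivity) ((hn v hv).resolve_left hP)

end limit

end MP_35e7b7_an
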