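import Mathlib
import Pool.Agent.Lib.MP_35e7b7_an.Limit

/-!
# The limit function is meromorphic, with convergence of derivatives
-/

open Filter Topology Metric Set

namespace MP_35e7b7_an

lemma GoodFn.deriv_phi {g : ℂ → ℂ} {P : Set ℂ} (h : GoodFn g P) {b z : ℂ} (hz : z ∉ P)
    (hb : g z ≠ b) : deriv (phi g P b) z = -deriv g z / (g z - b) ^ 2 := by
  have h1 : phi g P b =ᶠ[𝓝 z] fun u => (g u - b)⁻¹ := by
    filter_upwards [h.eventually_not_mem hz] with u hu
    rw [phi_of_not_mem hu]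
  rw [h1.deriv_eq]
  have h2 : HasDerivAt (fun u => g u - b) (deriv g z) z :=
    (h.differentiableAt hz).hasDerivAt.sub_const b
  exact (h2.inv (sub_ne_zero.mpr hb)).deriv

lemma GoodFn.deriv_eq {g : ℂ → ℂ} {P : Set ℂ} (h : GoodFn g P) {b z : ℂ} (hz : z ∉ P)
    (hb : g z ≠ b) : deriv g z = -deriv (phi g P b) z * (g z - b) ^ 2 := by
  rw [h.deriv_phi hz hb]
  have : (g z - b) ^ 2 ≠ 0 := pow_ne_zero _ (sub_ne_zero.mpr hb)
  field_simp

section limit

variable {g : ℂ → ℂ} {P : Set ℂ} {z : ℕ → ℂ} {U : Ultrafilter ℕ} {b : ℂ} {δ ρ R : ℝ}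

lemma lim_far {w : ℂ}
    (h : ∀ᶠ n in (U : Filter ℕ), ∀ v ∈ ball w ρ, z n + v ∈ P ∨ δ / 2 ≤ ‖g (z n + v) - b‖) :
    ∀ v ∈ ball w ρ, v ∉ limP g P z U → δ / 2 ≤ ‖limG g P z U v - b‖ := by
  intro v hv hvP
  obtain ⟨h1, h2⟩ := limG_spec hvP
  have h3 : Tendsto (fun n => ‖g (z n + v) - b‖) U (𝓝 ‖limG g P z U v - b‖) :=
    (h1.sub_const b).norm
  refine ge_of_tendsto h3 ?_
  filter_upwards [h, h2] with n hn hn2
  exact (hn v hv).resolve_left hn2

lemma phi_lim_zero_iff (hδ : 0 < δ) {w : ℂ}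
    (h : ∀ᶠ n in (U : Filter ℕ), ∀ v ∈ ball w ρ, z n + v ∈ P ∨ δ / 2 ≤ ‖g (z n + v) - b‖) :
    ∀ v ∈ ball w ρ, phi (limG g P z U) (limP g P z U) b v = 0 ↔ v ∈ limP g P z U := by
  intro v hv
  constructor
  · intro h0
    by_contra hvP
    rw [phi_of_not_mem hvP, inv_eq_zero] at h0
    have := lim_far h v hv hvP
    rw [h0, norm_zero] at this
    linarith
  · exact fun h => phi_of_mem h

lemma phi_differentiable (hg : GoodFn g P) (hδ : 0 < δ) {w : ℂ}
    (h : ∀ᶠ n in (U : Filter ℕ), ∀ v ∈ ball w ρ, z n + v ∈ P ∨ δ / 2 ≤ ‖g (z n + v) - b‖) :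
    ∀ᶠ n in (U : Filter ℕ), DifferentiableOn ℂ (fun v => phi g P b (z n + v)) (ball w ρ) := by
  filter_upwards [h] with n hn v hv
  apply DifferentiableAt.differentiableWithinAt
  have h1 : DifferentiableAt ℂ (phi g P b) (z n + v) := by
    apply (hg.phi_anal b _).differentiableAt
    intro hP h0
    have := (hn v hv).resolve_left hP
    rw [h0, sub_self, norm_zero] at this
    linarith
  exact DifferentiableAt.comp v h1 (by fun_prop)

lemma phi_lim_anal (hg : GoodFn g P) (hδ : 0 < δ) {w : ℂ}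
    (h : ∀ᶠ n in (U : Filter ℕ), ∀ v ∈ ball w ρ, z n + v ∈ P ∨ δ / 2 ≤ ‖g (z n + v) - b‖) :
    AnalyticOnNhd ℂ (phi (limG g P z U) (limP g P z U) b) (ball w ρ) := by
  have h1 := tlu_one hg hδ h
  exact (h1.differentiableOn (phi_differentiable hg hδ h) isOpen_ball).analyticOnNhd isOpen_ball

lemma g_differentiable (hg : GoodFn g P) {w : ℂ}
    (h : ∀ᶠ n in (U : Filter ℕ), ∀ v ∈ ball w ρ, z n + v ∉ P ∧ ‖g (z n + v) - b‖ ≤ 2 * δ) :
    ∀ᶠ n in (U : Filter ℕ), DifferentiableOn ℂ (fun v => g (z n + v)) (ball w ρ) := by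
  filter_upwards [h] with n hn v hv
  apply DifferentiableAt.differentiableWithinAt
  have h1 : DifferentiableAt ℂ g (z n + v) := hg.differentiableAt (hn v hv).1
  exact DifferentiableAt.comp v h1 (by fun_prop)

lemma lim_anal_two (hg : GoodFn g P) {w : ℂ}
    (h : ∀ᶠ n in (U : Filter ℕ), ∀ v ∈ ball w ρ, z n + v ∉ P ∧ ‖g (z n + v) - b‖ ≤ 2 * δ) :
    AnalyticOnNhd ℂ (limG g P z U) (ball w ρ) := by
  have h1 := (tlu_two hg h).2
  exact (h1.differentiableOn (g_differentiable hg h) isOpen_ball).analyticOnNhd isOpen_ball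

lemma limP_closed (hg : GoodFn g P) (hD : Dich g P b δ ρ R) (hδ : 0 < δ) (hρ : 0 < ρ)
    (hz : Tendsto (fun n => ‖z n‖) U atTop) : IsClosed (limP g P z U) := by
  rw [← isOpen_compl_iff, isOpen_iff_mem_nhds]
  intro w hw
  rcases charts hD hz w with h | h
  · have h1 : phi (limG g P z U) (limP g P z U) b w ≠ 0 := fun h0 =>
      hw ((phi_lim_zero_iff hδ h w (mem_ball_self hρ)).mp h0)
    have h2 := (phi_lim_anal hg hδ h w (mem_ball_self hρ)).continuousAt
    filter_upwards [h2.eventually_ne h1] with v hv hvP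
    exact hv (phi_of_mem hvP)
  · filter_upwards [ball_mem_nhds w hρ] with v hv
    exact (tlu_two hg h).1 v hv

lemma lim_anal (hg : GoodFn g P) (hD : Dich g P b δ ρ R) (hδ : 0 < δ) (hρ : 0 < ρ)
    (hz : Tendsto (fun n => ‖z n‖) U atTop) {w : ℂ} (hw : w ∉ limP g P z U) :
    AnalyticAt ℂ (limG g P z U) w := by
  rcases charts hD hz w with h | h
  · have h1 : phi (limG g P z U) (limP g P z U) b w ≠ 0 := fun h0 =>
      hw ((phi_lim_zero_iff hδ h w (mem_ball_self hρ)).mp h0)
    have h2 := phi_lim_anal hg hδ h w (mem_ball_self hρ)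
    have h3 : AnalyticAt ℂ (fun v => b + (phi (limG g P z U) (limP g P z U) b v)⁻¹) w :=
      analyticAt_const.add (h2.inv h1)
    refine h3.congr ?_
    filter_upwards [h2.continuousAt.eventually_ne h1] with v hv
    have hvP : v ∉ limP g P z U := fun hvP => hv (phi_of_mem hvP)
    rw [phi_of_not_mem hvP, inv_inv]
    ring
  · exact lim_anal_two hg h w (mem_ball_self hρ)

/-- The poles of the limit function are isolated (if it is not identically infinite). -/
lemma limP_not_eventually (hg : GoodFn g P) (hD : Dich g P b δ ρ R) (hδ : 0 < δ) (hρ : 0 < ρ)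
    (hz : Tendsto (fun n => ‖z n‖) U atTop) {w₀ : ℂ} (hw₀ : w₀ ∉ limP g P z U) (w : ℂ) :
    ¬ ∀ᶠ v in 𝓝 w, v ∈ limP g P z U := by
  let E : Set ℂ := {w | ∀ᶠ v in 𝓝 w, v ∈ limP g P z U}
  have hEo : IsOpen E := by
    rw [isOpen_iff_mem_nhds]
    intro w hw
    exact eventually_eventually_nhds.mpr hw
  have hEc : IsClosed E := by
    rw [← closure_subset_iff_isClosed]
    intro w hw
    rw [mem_closure_iff_nhds] at hw
    obtain ⟨v, hv, hvE⟩ := hw _ (ball_mem_nhds w hρ)
    have hvP : v ∈ limP g P z U := hvE.self_of_nhds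
    rcases charts hD hz w with h | h
    · have han := phi_lim_anal hg hδ h
      have h0 : phi (limG g P z U) (limP g P z U) b =ᶠ[𝓝 v] 0 := by
        filter_upwards [hvE] with u hu
        exact phi_of_mem hu
      have h1 := han.eqOn_zero_of_preconnected_of_eventuallyEq_zero
        (convex_ball w ρ).isPreconnected hv h0
      change ∀ᶠ v in 𝓝 w, v ∈ limP g P z U
      filter_upwards [ball_mem_nhds w hρ] with u hu
      exact (phi_lim_zero_iff hδ h u hu).mp (h1 hu)
    · exact absurd hvP ((tlu_two hg h).1 v hv)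
  have hE : E = ∅ ∨ E = univ := isClopen_iff.mp ⟨hEc, hEo⟩
  intro hw
  rcases hE with hE | hE
  · have : w ∈ E := hw
    rw [hE] at this
    exact this
  · have : w₀ ∈ E := by rw [hE]; exact mem_univ _
    exact hw₀ (Filter.Eventually.self_of_nhds this)

theorem lim_good (hg : GoodFn g P) (hD : Dich g P b δ ρ R) (hδ : 0 < δ) (hρ : 0 < ρ)
    (hz : Tendsto (fun n => ‖z n‖) U atTop) {w₀ : ℂ} (hw₀ : w₀ ∉ limP g P z U) :
    GoodFn (limG g P z U) (limP g P z U) := by
  refine ⟨limP_closed hg hD hδ hρ hz, fun w hw => lim_anal hg hD hδ hρ hz hw, ?_⟩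
  intro p hp K
  rcases charts hD hz p with h | h
  · have han := phi_lim_anal hg hδ h p (mem_ball_self hρ)
    have h1 : ∀ᶠ v in 𝓝[≠] p, phi (limG g P z U) (limP g P z U) b v ≠ 0 := by
      rcases han.eventually_eq_zero_or_eventually_ne_zero with h0 | h0
      · exfalso
        apply limP_not_eventually hg hD hδ hρ hz hw₀ p
        filter_upwards [h0, ball_mem_nhds p hρ] with v hv hvb
        exact (phi_lim_zero_iff hδ h v hvb).mp hv
      · exact h0
    have h2 : ∀ᶠ v in 𝓝 p, ‖phi (limG g P z U) (limP g P z U) b v‖ < (|K| + ‖b‖ + 1)⁻¹ := by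
      have h3 : Tendsto (fun v => ‖phi (limG g P z U) (limP g P z U) b v‖) (𝓝 p) (𝓝 0) := by
        have := han.continuousAt.norm
        rw [ContinuousAt, phi_of_mem hp, norm_zero] at this
        exact this
      exact h3.eventually_lt_const (by positivity)
    filter_upwards [h1, nhdsWithin_le_nhds h2] with v hv hv2
    have hvP : v ∉ limP g P z U := fun hvP => hv (phi_of_mem hvP)
    refine ⟨hvP, ?_⟩
    rw [phi_of_not_mem hvP, norm_inv] at hv2
    have hpos : 0 < ‖limG g P z U v - b‖ := by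
      rw [norm_pos_iff]
      intro h0
      apply hv
      rw [phi_of_not_mem hvP, h0, inv_zero]
    have h4 : |K| + ‖b‖ + 1 < ‖limG g P z U v - b‖ := by
      exact (inv_lt_inv₀ hpos (by positivity)).mp hv2
    have h5 := norm_sub_le (limG g P z U v) b
    have := le_abs_self K
    linarith
  · exact absurd hp ((tlu_two hg h).1 p (mem_ball_self hρ))

/-- Pointwise convergence of values and derivatives. -/
theorem lim_point (hg : GoodFn g P) (hD : Dich g P b δ ρ R) (hδ : 0 < δ) (hρ : 0 < ρ)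
    (hz : Tendsto (fun n => ‖z n‖) U atTop) {w : ℂ} (hw : w ∉ limP g P z U) :
    (∀ᶠ n in (U : Filter ℕ), z n + w ∉ P) ∧
    Tendsto (fun n => g (z n + w)) U (𝓝 (limG g P z U w)) ∧
    Tendsto (fun n => deriv g (z n + w)) U (𝓝 (deriv (limG g P z U) w)) := by
  obtain ⟨h1, h2⟩ := limG_spec hw
  refine ⟨h2, h1, ?_⟩
  have hG := lim_good hg hD hδ hρ hz hw
  rcases charts hD hz w with h | h
  · have h3 := (tlu_one hg hδ h).deriv (phi_differentiable hg hδ h) isOpen_ball
    have h4 := h3.tendsto_at (mem_ball_self hρ)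
    have h5 : Tendsto (fun n => deriv (phi g P b) (z n + w)) U
        (𝓝 (deriv (phi (limG g P z U) (limP g P z U) b) w)) := by
      refine h4.congr fun n => ?_
      simp only [Function.comp_apply]
      rw [deriv_comp_const_add]
    have hGb : limG g P z U w ≠ b := by
      intro h0
      have := lim_far h w (mem_ball_self hρ) hw
      rw [h0, sub_self, norm_zero] at this
      linarith
    rw [hG.deriv_eq hw hGb]
    have h6 : Tendsto (fun n => -deriv (phi g P b) (z n + w) * (g (z n + w) - b) ^ 2) U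
        (𝓝 (-deriv (phi (limG g P z U) (limP g P z U) b) w * (limG g P z U w - b) ^ 2)) :=
      h5.neg.mul ((h1.sub_const b).pow 2)
    refine h6.congr' ?_
    filter_upwards [h2, h] with n hn hn2
    rw [hg.deriv_eq hn]
    intro h0
    have := (hn2 w (mem_ball_self hρ)).resolve_left hn
    rw [h0, sub_self, norm_zero] at this
    linarith
  · have h3 := (tlu_two hg h).2.deriv (g_differentiable hg h) isOpen_ball
    have h4 := h3.tendsto_at (mem_ball_self hρ)
    refine h4.congr fun n => ?_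
    simp only [Function.comp_apply]
    rw [deriv_comp_const_add]

end limit

end MP_35e7b7_an
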