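import Mathlib
import Pool.Agent.Lib.MP_35e7b7_an.Limit2
import Pool.Agent.Lib.MP_35e7b7_an.Lift
import Pool.Agent.Lib.MP_35e7b7_an.CaseI

/-!
# Limit functions are exponentials near the `b`-points; consequences (E1), (E2)
-/

open Filter Topology Metric Set

namespace MP_35e7b7_an

section

variable {g : ℂ → ℂ} {P : Set ℂ} {a b : ℂ}

/-- the limit-sharing condition, forward direction -/
def Fwd (g : ℂ → ℂ) (P : Set ℂ) (c : ℂ) : Prop :=
  ∀ ε > 0, ∃ δ > 0, ∃ R : ℝ, ∀ z ∉ P, R < ‖z‖ → ‖g z - c‖ < δ → ‖deriv g z - c‖ < ε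

/-- the limit-sharing condition, backward direction -/
def Bwd (g : ℂ → ℂ) (P : Set ℂ) (c : ℂ) : Prop :=
  ∀ ε > 0, ∃ δ > 0, ∃ R : ℝ, ∀ z ∉ P, R < ‖z‖ → ‖deriv g z - c‖ < δ → ‖g z - c‖ < ε

/-- constants for the charts -/
lemma exists_dich (hg : GoodFn g P) (hb : b ≠ 0) (hfb : Fwd g P b) :
    ∃ δ ρ R A : ℝ, 0 < δ ∧ 0 < ρ ∧ 0 ≤ A ∧ Dich g P b δ ρ R ∧
      (∀ z ∉ P, R < ‖z‖ → ‖g z - b‖ ≤ 2 * δ → ‖deriv g z - b‖ ≤ ‖b‖ / 2) := by
  have hb' : 0 < ‖b‖ := norm_pos_iff.mpr hb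
  obtain ⟨δ₁, hδ₁, R₁, h₁⟩ := hfb (‖b‖ / 2) (by positivity)
  have hder : ∀ z ∉ P, R₁ < ‖z‖ → ‖g z - b‖ ≤ 2 * (δ₁ / 4) → ‖deriv g z - b‖ ≤ ‖b‖ / 2 := by
    intro z hz hR h
    exact (h₁ z hz hR (by linarith)).le
  have hA : ∀ z ∉ P, R₁ < ‖z‖ → ‖g z - b‖ ≤ 2 * (δ₁ / 4) → ‖deriv g z‖ ≤ 3 / 2 * ‖b‖ := by
    intro z hz hR h
    have h2 := hder z hz hR h
    have h3 := norm_add_le (deriv g z - b) b
    rw [sub_add_cancel] at h3
    linarith
  refine ⟨δ₁ / 4, _, R₁ + 1, 3 / 2 * ‖b‖, by positivity, ?_, by positivity,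
    hg.dich (by positivity) (by positivity) hA, fun z hz hR => hder z hz (by linarith)⟩
  positivity

/-- bound for the derivative near infinity -/
lemma exists_up {δ ρ R A : ℝ} (hg : GoodFn g P) (hδ : 0 < δ) (hρ : 0 < ρ) (hA : 0 ≤ A)
    (hD : Dich g P b δ ρ R)
    (hder : ∀ z ∉ P, R < ‖z‖ → ‖g z - b‖ ≤ 2 * δ → ‖deriv g z‖ ≤ A) :
    ∃ C : ℝ, ∀ z ∉ P, R < ‖z‖ → ‖deriv g z‖ ≤ C * (1 + ‖g z‖ ^ 2) := by
  set C₁ : ℝ := (2 / δ) / (ρ / 2) with hC₁
  have hC₁0 : 0 < C₁ := by positivity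
  refine ⟨A + 2 * C₁ * (1 + ‖b‖ ^ 2), fun z hz hR => ?_⟩
  have hsq : 0 ≤ ‖g z‖ ^ 2 := by positivity
  have hbsq : 0 ≤ ‖b‖ ^ 2 := by positivity
  rcases hD z hR with h | h
  · -- chart with `phi`
    have hgz : δ / 2 ≤ ‖g z - b‖ := (h z (mem_ball_self hρ)).resolve_left hz
    have hgb : g z ≠ b := by
      intro h0
      rw [h0, sub_self, norm_zero] at hgz
      linarith
    have hphid : ∀ w ∈ ball z ρ, DifferentiableAt ℂ (phi g P b) w := by
      intro w hw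
      apply (hg.phi_anal b _).differentiableAt
      intro hP h0
      have := (h w hw).resolve_left hP
      rw [h0, sub_self, norm_zero] at this
      linarith
    have hphib : ∀ w ∈ ball z ρ, ‖phi g P b w‖ ≤ 2 / δ := by
      intro w hw
      by_cases hP : w ∈ P
      · rw [phi_of_mem hP, norm_zero]; positivity
      · rw [phi_of_not_mem hP, norm_inv]
        have := (h w hw).resolve_left hP
        calc ‖g w - b‖⁻¹ ≤ (δ / 2)⁻¹ := inv_anti₀ (by positivity) this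
          _ = 2 / δ := by rw [inv_div]
    have hcl : closedBall z (ρ / 2) ⊆ ball z ρ := closedBall_subset_ball (by linarith)
    have h1 : ‖deriv (phi g P b) z‖ ≤ C₁ := by
      apply Complex.norm_deriv_le_of_forall_mem_sphere_norm_le (by positivity)
      · apply DifferentiableOn.diffContOnCl
        rw [closure_ball _ (by positivity)]
        exact fun w hw => (hphid w (hcl hw)).differentiableWithinAt
      · intro u hu
        exact hphib u (hcl (sphere_subset_closedBall hu))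
    rw [hg.deriv_eq hz hgb, norm_mul, norm_neg, norm_pow]
    have h2 : ‖g z - b‖ ^ 2 ≤ 2 * (‖g z‖ ^ 2 + ‖b‖ ^ 2) := by
      have h3 := norm_sub_le (g z) b
      have h4 : ‖g z - b‖ ^ 2 ≤ (‖g z‖ + ‖b‖) ^ 2 := by
        apply pow_le_pow_left₀ (norm_nonneg _) h3
      nlinarith [sq_nonneg (‖g z‖ - ‖b‖)]
    calc ‖deriv (phi g P b) z‖ * ‖g z - b‖ ^ 2 ≤ C₁ * (2 * (‖g z‖ ^ 2 + ‖b‖ ^ 2)) := by
          apply mul_le_mul h1 h2 (by positivity) hC₁0.le
      _ ≤ (A + 2 * C₁ * (1 + ‖b‖ ^ 2)) * (1 + ‖g z‖ ^ 2) := by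
          have e1 : 0 ≤ C₁ * ‖g z‖ ^ 2 * ‖b‖ ^ 2 := by positivity
          have e2 : 0 ≤ A * (1 + ‖g z‖ ^ 2) := by positivity
          nlinarith
  · have h1 := hder z hz hR (h z (mem_ball_self hρ)).2
    have e1 : 0 ≤ C₁ * (1 + ‖b‖ ^ 2) * (1 + ‖g z‖ ^ 2) := by positivity
    have e2 : 0 ≤ A * ‖g z‖ ^ 2 := by positivity
    nlinarith

variable {z : ℕ → ℂ} {U : Ultrafilter ℕ}

lemma tendsto_shift (hz : Tendsto (fun n => ‖z n‖) U atTop) (w : ℂ) :
    Tendsto (fun n => ‖z n + w‖) U atTop := by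
  apply tendsto_atTop_mono (f := fun n => ‖z n‖ - ‖w‖)
  · intro n
    have := norm_sub_norm_le (z n) (-w)
    rwa [norm_neg, sub_neg_eq_add] at this
  · exact tendsto_atTop_add_const_right _ _ hz

/-- sharing passes to the limit function -/
lemma lim_fwd {δ ρ R : ℝ} (hg : GoodFn g P) (hD : Dich g P b δ ρ R) (hδ : 0 < δ) (hρ : 0 < ρ)
    (hz : Tendsto (fun n => ‖z n‖) U atTop) {c : ℂ} (hf : Fwd g P c) :
    ∀ ε > 0, ∃ δ' > 0, ∀ w ∉ limP g P z U, ‖limG g P z U w - c‖ < δ' →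
      ‖deriv (limG g P z U) w - c‖ ≤ ε := by
  intro ε hε
  obtain ⟨δ', hδ', R', h⟩ := hf ε hε
  refine ⟨δ', hδ', fun w hw hwδ => ?_⟩
  obtain ⟨h1, h2, h3⟩ := lim_point hg hD hδ hρ hz hw
  have h4 : ∀ᶠ n in (U : Filter ℕ), ‖g (z n + w) - c‖ < δ' :=
    ((h2.sub_const c).norm).eventually_lt_const hwδ
  have h5 : Tendsto (fun n => ‖deriv g (z n + w) - c‖) U
      (𝓝 ‖deriv (limG g P z U) w - c‖) := (h3.sub_const c).norm
  refine le_of_tendsto h5 ?_
  filter_upwards [h1, h4, (tendsto_shift hz w).eventually_gt_atTop R'] with n e1 e2 e3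
  exact (h _ e1 e3 e2).le

lemma lim_bwd {δ ρ R : ℝ} (hg : GoodFn g P) (hD : Dich g P b δ ρ R) (hδ : 0 < δ) (hρ : 0 < ρ)
    (hz : Tendsto (fun n => ‖z n‖) U atTop) {c : ℂ} (hf : Bwd g P c) :
    ∀ ε > 0, ∃ δ' > 0, ∀ w ∉ limP g P z U, ‖deriv (limG g P z U) w - c‖ < δ' →
      ‖limG g P z U w - c‖ ≤ ε := by
  intro ε hε
  obtain ⟨δ', hδ', R', h⟩ := hf ε hε
  refine ⟨δ', hδ', fun w hw hwδ => ?_⟩
  obtain ⟨h1, h2, h3⟩ := lim_point hg hD hδ hρ hz hw
  have h4 : ∀ᶠ n in (U : Filter ℕ), ‖deriv g (z n + w) - c‖ < δ' :=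
    ((h3.sub_const c).norm).eventually_lt_const hwδ
  have h5 : Tendsto (fun n => ‖g (z n + w) - c‖) U
      (𝓝 ‖limG g P z U w - c‖) := (h2.sub_const c).norm
  refine le_of_tendsto h5 ?_
  filter_upwards [h1, h4, (tendsto_shift hz w).eventually_gt_atTop R'] with n e1 e2 e3
  exact (h _ e1 e3 e2).le

lemma eq_of_norm_le {x c : ℂ} (h : ∀ ε > 0, ‖x - c‖ ≤ ε) : x = c := by
  have : ‖x - c‖ ≤ 0 := le_of_forall_pos_le_add fun ε hε => by simpa using h ε hε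
  exact sub_eq_zero.mp (norm_le_zero_iff.mp this)

lemma lim_share {δ ρ R : ℝ} (hg : GoodFn g P) (hD : Dich g P b δ ρ R) (hδ : 0 < δ) (hρ : 0 < ρ)
    (hz : Tendsto (fun n => ‖z n‖) U atTop) {c : ℂ} (hf : Fwd g P c) (hf' : Bwd g P c) :
    ∀ w ∉ limP g P z U, limG g P z U w = c ↔ deriv (limG g P z U) w = c := by
  intro w hw
  constructor
  · intro h
    apply eq_of_norm_le
    intro ε hε
    obtain ⟨δ', hδ', h'⟩ := lim_fwd hg hD hδ hρ hz hf ε hε
    exact h' w hw (by rw [h, sub_self, norm_zero]; exact hδ')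
  · intro h
    apply eq_of_norm_le
    intro ε hε
    obtain ⟨δ', hδ', h'⟩ := lim_bwd hg hD hδ hρ hz hf' ε hε
    exact h' w hw (by rw [h, sub_self, norm_zero]; exact hδ')

/-- **Theorem T**: limit functions near `b`-points are exponentials. -/
theorem lim_exp {δ ρ R A : ℝ} (hg : GoodFn g P) (hb : b ≠ 0) (hab : a ≠ b)
    (hfa : Fwd g P a) (hba : Bwd g P a) (hfb : Fwd g P b) (hbb : Bwd g P b)
    (hδ : 0 < δ) (hρ : 0 < ρ) (hA : 0 ≤ A) (hD : Dich g P b δ ρ R)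
    (hder : ∀ z ∉ P, R < ‖z‖ → ‖g z - b‖ ≤ 2 * δ → ‖deriv g z - b‖ ≤ ‖b‖ / 2)
    (hz : Tendsto (fun n => ‖z n‖) U atTop) (h0 : (0 : ℂ) ∉ limP g P z U)
    (h0b : ‖limG g P z U 0 - b‖ < 2 * δ) (w : ℂ) :
    w ∉ limP g P z U ∧ limG g P z U w = limG g P z U 0 * Complex.exp w := by
  have hb' : 0 < ‖b‖ := norm_pos_iff.mpr hb
  have hG := lim_good hg hD hδ hρ hz h0
  have hderA : ∀ z ∉ P, R < ‖z‖ → ‖g z - b‖ ≤ 2 * δ → ‖deriv g z‖ ≤ 3 / 2 * ‖b‖ := by
    intro z hz hR h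
    have h2 := hder z hz hR h
    have h3 := norm_add_le (deriv g z - b) b
    rw [sub_add_cancel] at h3
    linarith
  obtain ⟨C, hC⟩ := exists_up hg hδ hρ (by positivity) hD hderA
  have hup : ∃ C : ℝ, ∀ w ∉ limP g P z U,
      ‖deriv (limG g P z U) w‖ ≤ C * (1 + ‖limG g P z U w‖ ^ 2) := by
    refine ⟨C, fun w hw => ?_⟩
    obtain ⟨h1, h2, h3⟩ := lim_point hg hD hδ hρ hz hw
    have h4 : Tendsto (fun n => C * (1 + ‖g (z n + w)‖ ^ 2)) U
        (𝓝 (C * (1 + ‖limG g P z U w‖ ^ 2))) := ((h2.norm.pow 2).const_add 1).const_mul C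
    refine le_of_tendsto_of_tendsto h3.norm h4 ?_
    filter_upwards [h1, (tendsto_shift hz w).eventually_gt_atTop R] with n e1 e2
    exact hC _ e1 e2
  have hsa := lim_share hg hD hδ hρ hz hfa hba
  have hsb := lim_share hg hD hδ hρ hz hfb hbb
  by_cases ha : a = 0
  · subst ha
    have hlow : ∀ K : ℝ, 0 < K → ∃ δ > 0, ∀ w ∉ limP g P z U, 1 / K ≤ ‖limG g P z U w‖ →
        ‖limG g P z U w‖ ≤ K → δ ≤ ‖deriv (limG g P z U) w‖ := by
      intro K hK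
      obtain ⟨δ', hδ', h'⟩ := lim_bwd hg hD hδ hρ hz hba (1 / (2 * K)) (by positivity)
      refine ⟨δ', hδ', fun w hw hw1 _ => ?_⟩
      by_contra hlt
      push Not at hlt
      have h2 := h' w hw (by rwa [sub_zero])
      rw [sub_zero] at h2
      have h3 : 1 / (2 * K) < 1 / K := by
        apply one_div_lt_one_div_of_lt hK; linarith
      linarith
    have hG0 : limG g P z U 0 ≠ 0 := by
      intro h
      have h1 := (hsa 0 h0).mp h
      obtain ⟨e1, e2, e3⟩ := lim_point hg hD hδ hρ hz h0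
      -- derivative at `0` is close to `b`
      have h4 : ∀ᶠ n in (U : Filter ℕ), ‖g (z n + 0) - b‖ < 2 * δ :=
        ((e2.sub_const b).norm).eventually_lt_const h0b
      have h5 : ‖deriv (limG g P z U) 0 - b‖ ≤ ‖b‖ / 2 := by
        refine le_of_tendsto (e3.sub_const b).norm ?_
        filter_upwards [e1, h4, (tendsto_shift hz 0).eventually_gt_atTop R] with n f1 f2 f3
        exact hder _ f1 f3 f2.le
      rw [h1, zero_sub, norm_neg] at h5
      linarith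
    have := lift_main hG hlow hup hb hsb h0 hG0 w
    rwa [sub_zero] at this
  · have ha' : 0 < ‖a‖ := norm_pos_iff.mpr ha
    have hd : deriv (limG g P z U) 0 ≠ 0 := by
      obtain ⟨e1, e2, e3⟩ := lim_point hg hD hδ hρ hz h0
      have h4 : ∀ᶠ n in (U : Filter ℕ), ‖g (z n + 0) - b‖ < 2 * δ :=
        ((e2.sub_const b).norm).eventually_lt_const h0b
      have h5 : ‖deriv (limG g P z U) 0 - b‖ ≤ ‖b‖ / 2 := by
        refine le_of_tendsto (e3.sub_const b).norm ?_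
        filter_upwards [e1, h4, (tendsto_shift hz 0).eventually_gt_atTop R] with n f1 f2 f3
        exact hder _ f1 f3 f2.le
      intro h1
      rw [h1, zero_sub, norm_neg] at h5
      linarith
    have := caseI_main hG ha hb hab hup hsa hsb
      (lim_fwd hg hD hδ hρ hz hfa (‖a‖ / 2) (by positivity))
      (lim_fwd hg hD hδ hρ hz hfb (‖b‖ / 2) (by positivity)) h0 hd 0 w
    rwa [sub_zero] at this

/-- a sequence avoiding a conclusion gives an ultrafilter limit -/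
lemma exists_lim {δ ρ R A : ℝ} (hg : GoodFn g P) (hb : b ≠ 0) (hab : a ≠ b)
    (hfa : Fwd g P a) (hba : Bwd g P a) (hfb : Fwd g P b) (hbb : Bwd g P b)
    (hδ : 0 < δ) (hρ : 0 < ρ) (hA : 0 ≤ A) (hD : Dich g P b δ ρ R)
    (hder : ∀ z ∉ P, R < ‖z‖ → ‖g z - b‖ ≤ 2 * δ → ‖deriv g z - b‖ ≤ ‖b‖ / 2)
    {z : ℕ → ℂ} (hz : ∀ n : ℕ, (n : ℝ) < ‖z n‖) (hzP : ∀ n, z n ∉ P)
    (hzb : ∀ n, ‖g (z n) - b‖ ≤ δ) :
    ∃ (U : Ultrafilter ℕ) (c : ℂ), ‖c - b‖ ≤ δ ∧ Tendsto (fun n => g (z n)) U (𝓝 c) ∧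
      Tendsto (fun n => deriv g (z n)) U (𝓝 c) ∧
      ∀ w, (∀ᶠ n in (U : Filter ℕ), z n + w ∉ P) ∧
        Tendsto (fun n => g (z n + w)) U (𝓝 (c * Complex.exp w)) := by
  let U : Ultrafilter ℕ := Filter.hyperfilter ℕ
  have hU : (U : Filter ℕ) ≤ atTop := Nat.hyperfilter_le_atTop
  have hzn : Tendsto (fun n => ‖z n‖) U atTop := by
    apply Tendsto.mono_left _ hU
    exact tendsto_atTop_mono (fun n => (hz n).le) tendsto_natCast_atTop_atTop
  have h1 : ∀ᶠ n in (U : Filter ℕ), z n + 0 ∉ P ∧ ‖g (z n + 0) - b‖ ≤ δ :=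
    Eventually.of_forall fun n => by simpa using ⟨hzP n, hzb n⟩
  obtain ⟨h0, hlim⟩ := finLim_of_bounded h1
  have h0b : ‖limG g P z U 0 - b‖ ≤ δ := by
    refine le_of_tendsto (hlim.sub_const b).norm ?_
    filter_upwards [h1] with n hn
    exact hn.2
  have hT := lim_exp hg hb hab hfa hba hfb hbb hδ hρ hA hD hder hzn h0 (by linarith)
  obtain ⟨e1, e2, e3⟩ := lim_point hg hD hδ hρ hzn h0
  simp only [add_zero] at e2 e3
  have hd : deriv (limG g P z U) 0 = limG g P z U 0 := by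
    have h2 : limG g P z U = fun w => limG g P z U 0 * Complex.exp w := by
      funext w; exact (hT w).2
    have h3 : HasDerivAt (fun w => limG g P z U 0 * Complex.exp w)
        (limG g P z U 0 * Complex.exp 0) 0 := (Complex.hasDerivAt_exp 0).const_mul _
    rw [Complex.exp_zero, mul_one] at h3
    calc deriv (limG g P z U) 0 = deriv (fun w => limG g P z U 0 * Complex.exp w) 0 := by
          rw [← h2]
      _ = limG g P z U 0 := h3.deriv
  rw [hd] at e3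
  refine ⟨U, limG g P z U 0, h0b, e2, e3, fun w => ?_⟩
  obtain ⟨f1, f2, -⟩ := lim_point hg hD hδ hρ hzn (hT w).1
  refine ⟨f1, ?_⟩
  rw [← (hT w).2]
  exact f2

/-- (E1) and (E2). -/
theorem E_main (hg : GoodFn g P) (hab : a ≠ b) (hb : b ≠ 0)
    (hfa : Fwd g P a) (hba : Bwd g P a) (hfb : Fwd g P b) (hbb : Bwd g P b) :
    (∀ ε > 0, ∃ R : ℝ, ∀ β ∉ P, R < ‖β‖ → g β = b →
      (β + 2 * Real.pi * Complex.I ∉ P ∧ ‖g (β + 2 * Real.pi * Complex.I) - b‖ < ε) ∧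
      (β - 2 * Real.pi * Complex.I ∉ P ∧ ‖g (β - 2 * Real.pi * Complex.I) - b‖ < ε)) ∧
    (∃ δ₀ > 0, ∀ ε > 0, ∃ R : ℝ, ∀ z ∉ P, R < ‖z‖ → ‖g z - b‖ ≤ δ₀ →
      ‖deriv g z - g z‖ < ε) := by
  obtain ⟨δ, ρ, R, A, hδ, hρ, hA, hD, hder⟩ := exists_dich hg hb hfb
  constructor
  · intro ε hε
    by_contra hcon
    push Not at hcon
    choose β hβP hβn hβb hβ using fun n : ℕ => hcon (n : ℝ)
    obtain ⟨U, c, -, hc1, -, hc⟩ := exists_lim hg hb hab hfa hba hfb hbb hδ hρ hA hD hder hβn hβP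
      (fun n => by rw [hβb n, sub_self, norm_zero]; exact hδ.le)
    have hcb : c = b := by
      refine tendsto_nhds_unique hc1 ?_
      simp only [hβb]
      exact tendsto_const_nhds
    subst hcb
    have hp := hc (2 * Real.pi * Complex.I)
    have hm := hc (-(2 * Real.pi * Complex.I))
    have e1 : Complex.exp (2 * Real.pi * Complex.I) = 1 := Complex.exp_two_pi_mul_I
    have e2 : Complex.exp (-(2 * Real.pi * Complex.I)) = 1 := by
      rw [Complex.exp_neg, e1, inv_one]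
    rw [e1, mul_one] at hp
    rw [e2, mul_one] at hm
    have hp2 := (Metric.tendsto_nhds.mp hp.2) ε hε
    have hm2 := (Metric.tendsto_nhds.mp hm.2) ε hε
    obtain ⟨n, ⟨⟨h1, h2⟩, h3⟩, h4⟩ := (((hp.1.and hp2).and hm.1).and hm2).exists
    have h5 := hβ n ⟨h1, by rwa [dist_eq_norm] at h2⟩
    rw [dist_eq_norm] at h4
    rw [← sub_eq_add_neg] at h3 h4
    exact absurd h4 (not_lt.mpr (h5 h3))
  · refine ⟨δ, hδ, fun ε hε => ?_⟩
    by_contra hcon
    push Not at hcon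
    choose z hzP hzn hzb hz using fun n : ℕ => hcon (n : ℝ)
    obtain ⟨U, c, -, hc1, hc2, -⟩ := exists_lim hg hb hab hfa hba hfb hbb hδ hρ hA hD hder hzn hzP
      hzb
    have h1 : Tendsto (fun n => ‖deriv g (z n) - g (z n)‖) U (𝓝 ‖c - c‖) := (hc2.sub hc1).norm
    rw [sub_self, norm_zero] at h1
    have h2 := h1.eventually_lt_const hε
    obtain ⟨n, hn⟩ := h2.exists
    exact absurd hn (not_lt.mpr (hz n))

end

end MP_35e7b7_an
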