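import Mathlib

/-!
# A Phragmén–Lindelöf lemma with charges
-/

open Filter Topology Metric Set

namespace MP_35e7b7_an

/-- distance pattern from the index `k₀` -/
def tdist (k₀ k : ℕ) : ℕ := if k < k₀ then k₀ - k else if k = k₀ then 1 else k - k₀

lemma prod_tdist (k₀ m : ℕ) :
    ∏ k ∈ Finset.range (k₀ + 1 + m), tdist k₀ k = k₀.factorial * m.factorial := by
  rw [Finset.prod_range_add, Finset.prod_range_succ]
  have h1 : ∏ k ∈ Finset.range k₀, tdist k₀ k = k₀.factorial := by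
    rw [← Finset.prod_range_reflect, ← Finset.prod_range_add_one_eq_factorial]
    apply Finset.prod_congr rfl
    intro k hk
    rw [Finset.mem_range] at hk
    unfold tdist
    rw [if_pos (by omega)]
    omega
  have h2 : tdist k₀ k₀ = 1 := by simp [tdist]
  have h3 : ∏ k ∈ Finset.range m, tdist k₀ (k₀ + 1 + k) = m.factorial := by
    rw [← Finset.prod_range_add_one_eq_factorial]
    apply Finset.prod_congr rfl
    intro k _
    unfold tdist
    rw [if_neg (by omega), if_neg (by omega)]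
    omega
  rw [h1, h2, h3, mul_one]

lemma factorial_bound (k₀ m : ℕ) :
    (((k₀ + 1 + m : ℕ) : ℝ) / 12) ^ (k₀ + 1 + m) ≤ (k₀.factorial * m.factorial : ℕ) := by
  set N := k₀ + 1 + m with hN
  have h1 : ((N : ℝ) ^ N) / (N.factorial : ℝ) ≤ Real.exp N :=
    Real.pow_div_factorial_le_exp (N : ℝ) (by positivity) N
  have hfac : N.factorial = N * (k₀ + m).factorial := by
    have : N = (k₀ + m) + 1 := by omega
    rw [this, Nat.factorial_succ]
  have h2 : (k₀ + m).factorial ≤ 2 ^ (k₀ + m) * (k₀.factorial * m.factorial) := by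
    have h3 := Nat.add_choose_mul_factorial_mul_factorial k₀ m
    rw [← h3, mul_assoc]
    exact Nat.mul_le_mul_right _ (Nat.choose_le_two_pow _ _)
  have h4 : (N.factorial : ℝ) ≤ 2 ^ N * 2 ^ N * (k₀.factorial * m.factorial : ℕ) := by
    have h5 : N.factorial ≤ 2 ^ N * 2 ^ N * (k₀.factorial * m.factorial) := by
      rw [hfac]
      have h6 : N ≤ 2 ^ N := Nat.lt_two_pow_self.le
      have h7 : 2 ^ (k₀ + m) ≤ 2 ^ N := Nat.pow_le_pow_right (by norm_num) (by omega)
      calc N * (k₀ + m).factorial ≤ 2 ^ N * (2 ^ (k₀ + m) * (k₀.factorial * m.factorial)) :=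
            Nat.mul_le_mul h6 h2
        _ ≤ 2 ^ N * (2 ^ N * (k₀.factorial * m.factorial)) :=
            Nat.mul_le_mul_left _ (Nat.mul_le_mul_right _ h7)
        _ = _ := by ring
    exact_mod_cast h5
  have hexp : Real.exp N ≤ 3 ^ N := by
    have : Real.exp (N : ℝ) = Real.exp 1 ^ N := by
      rw [← Real.exp_nat_mul, mul_one]
    rw [this]
    apply pow_le_pow_left₀ (Real.exp_pos 1).le
    have := Real.exp_one_lt_d9
    linarith
  have hfpos : (0 : ℝ) < N.factorial := by positivity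
  have h8 : (N : ℝ) ^ N ≤ 3 ^ N * (2 ^ N * 2 ^ N * (k₀.factorial * m.factorial : ℕ)) := by
    rw [div_le_iff₀ hfpos] at h1
    calc (N : ℝ) ^ N ≤ Real.exp N * N.factorial := h1
      _ ≤ 3 ^ N * (2 ^ N * 2 ^ N * (k₀.factorial * m.factorial : ℕ)) :=
          mul_le_mul hexp h4 hfpos.le (by positivity)
  have h9 : (3 : ℝ) ^ N * (2 ^ N * 2 ^ N * (k₀.factorial * m.factorial : ℕ)) =
      12 ^ N * (k₀.factorial * m.factorial : ℕ) := by
    have : (12 : ℝ) ^ N = 3 ^ N * (2 ^ N * 2 ^ N) := by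
      rw [← mul_pow, ← mul_pow]; norm_num
    rw [this]; ring
  rw [h9] at h8
  rw [div_pow, div_le_iff₀ (by positivity)]
  linarith

/-- lower bound for the product of the distances to the charges -/
lemma prod_lower {β : ℕ → ℂ} {ρ r : ℝ} {N : ℕ} (hN : 0 < N) (hρ : 0 < ρ) (hr : 0 < r)
    (hrN : r ≤ 14 * N) (hsep : ∀ j k : ℕ, 6 * |(j : ℝ) - k| ≤ ‖β j - β k‖) {ζ : ℂ}
    (hζ : ∀ k, ρ ≤ ‖ζ - β k‖) :
    ((min ρ 3) / 168 * r) ^ N ≤ ∏ k ∈ Finset.range N, ‖ζ - β k‖ := by
  have hne : (Finset.range N).Nonempty := Finset.nonempty_range_iff.mpr (by omega)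
  obtain ⟨k₀, hk₀, hmin⟩ := Finset.exists_min_image (Finset.range N) (fun k => ‖ζ - β k‖) hne
  rw [Finset.mem_range] at hk₀
  obtain ⟨m, hm⟩ : ∃ m, N = k₀ + 1 + m := ⟨N - (k₀ + 1), by omega⟩
  set ρ' := min ρ 3 with hρ'
  have hρ'0 : 0 < ρ' := lt_min hρ (by norm_num)
  have hterm : ∀ k ∈ Finset.range N, ρ' * (tdist k₀ k : ℝ) ≤ ‖ζ - β k‖ := by
    intro k hk
    have hfar : k ≠ k₀ → 3 * |(k : ℝ) - k₀| ≤ ‖ζ - β k‖ := by
      intro _
      have h1 := hsep k k₀
      have h2 : ‖β k - β k₀‖ ≤ ‖ζ - β k‖ + ‖ζ - β k₀‖ := by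
        have : β k - β k₀ = (ζ - β k₀) - (ζ - β k) := by ring
        rw [this]
        refine (norm_sub_le _ _).trans ?_
        linarith
      have h3 := hmin k hk
      linarith
    unfold tdist
    split_ifs with h1 h2
    · have h3 := hfar (by omega)
      have h4 : |(k : ℝ) - k₀| = ((k₀ - k : ℕ) : ℝ) := by
        rw [Nat.cast_sub h1.le, abs_sub_comm, abs_of_nonneg]
        have : (k : ℝ) < k₀ := by exact_mod_cast h1
        linarith
      rw [h4] at h3
      have h5 : ρ' ≤ 3 := min_le_right _ _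
      have h6 : (0 : ℝ) ≤ ((k₀ - k : ℕ) : ℝ) := by positivity
      nlinarith
    · rw [Nat.cast_one, mul_one]
      exact (min_le_left _ _).trans (hζ k)
    · have h3 := hfar h2
      have h1' : k₀ ≤ k := by omega
      have h4 : |(k : ℝ) - k₀| = ((k - k₀ : ℕ) : ℝ) := by
        rw [Nat.cast_sub h1', abs_of_nonneg]
        have : (k₀ : ℝ) ≤ k := by exact_mod_cast h1'
        linarith
      rw [h4] at h3
      have h5 : ρ' ≤ 3 := min_le_right _ _
      have h6 : (0 : ℝ) ≤ ((k - k₀ : ℕ) : ℝ) := by positivity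
      nlinarith
  have hprod : ∏ k ∈ Finset.range N, (ρ' * (tdist k₀ k : ℝ)) ≤
      ∏ k ∈ Finset.range N, ‖ζ - β k‖ := by
    apply Finset.prod_le_prod
    · intro k _; positivity
    · exact hterm
  rw [Finset.prod_mul_distrib, Finset.prod_const, Finset.card_range] at hprod
  refine le_trans ?_ hprod
  have h7 : (∏ k ∈ Finset.range N, (tdist k₀ k : ℝ)) = ((k₀.factorial * m.factorial : ℕ) : ℝ) := by
    rw [← prod_tdist k₀ m, hm]
    push_cast
    rfl
  rw [h7]
  have h8 := factorial_bound k₀ m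
  rw [← hm] at h8
  calc (ρ' / 168 * r) ^ N ≤ (ρ' * ((N : ℝ) / 12)) ^ N := by
        apply pow_le_pow_left₀ (by positivity)
        have : ρ' / 168 * r ≤ ρ' / 168 * (14 * N) := by
          apply mul_le_mul_of_nonneg_left hrN (by positivity)
        calc ρ' / 168 * r ≤ ρ' / 168 * (14 * N) := this
          _ = ρ' * ((N : ℝ) / 12) := by ring
    _ = ρ' ^ N * ((N : ℝ) / 12) ^ N := by rw [mul_pow]
    _ ≤ ρ' ^ N * ((k₀.factorial * m.factorial : ℕ) : ℝ) :=
        mul_le_mul_of_nonneg_left h8 (by positivity)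

lemma frac_bound {x X p Z : ℝ} {N s : ℕ} (hx : 0 ≤ x) (hxX : x ≤ X) (hZ : 0 < Z)
    (hp : Z ^ N ≤ p) : x ^ N / p ^ s ≤ (X / Z ^ s) ^ N := by
  have h1 : 0 < Z ^ N := by positivity
  rw [div_pow, ← pow_mul, mul_comm s N, pow_mul]
  apply div_le_div₀ (pow_nonneg (hx.trans hxX) N) (pow_le_pow_left₀ hx hxX N) (by positivity)
  exact pow_le_pow_left₀ h1.le hp s

/-- **Phragmén–Lindelöf with charges.** -/
theorem PL_main (U : Set ℂ) (Ψ : ℂ → ℂ) (C : ℝ) (β : ℕ → ℂ) (ρ B : ℝ) (hU : IsOpen U)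
    (hd : DifferentiableOn ℂ Ψ U) (hc : ContinuousOn Ψ (closure U))
    (hC : ∀ z ∈ closure U, ‖Ψ z‖ ≤ C)
    (hbd : ∀ ε > 0, ∃ R : ℝ, ∀ z ∈ frontier U, R < ‖z‖ → ‖Ψ z‖ ≤ ε) (hρ : 0 < ρ)
    (hβ : ∀ z ∈ U, ∀ k, ρ ≤ ‖z - β k‖) (hsep : ∀ j k : ℕ, 6 * |(j : ℝ) - k| ≤ ‖β j - β k‖)
    (hgr : ∀ k : ℕ, ‖β k‖ ≤ 7 * k + B) : ∀ η > 0, ∃ R : ℝ, ∀ z ∈ U, R < ‖z‖ → ‖Ψ z‖ ≤ η := by
  intro η hη
  -- the distance bound on the closure
  have hβc : ∀ z ∈ closure U, ∀ k, ρ ≤ ‖z - β k‖ := by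
    intro z hz k
    have hcl : IsClosed {z : ℂ | ρ ≤ ‖z - β k‖} :=
      isClosed_le continuous_const (by fun_prop)
    exact closure_minimal (fun z hz => hβ z hz k) hcl hz
  set C' := max C 1 with hC'
  have hC'0 : 0 < C' := lt_of_lt_of_le one_pos (le_max_right _ _)
  have hCc : ∀ z ∈ closure U, ‖Ψ z‖ ≤ C' := fun z hz => (hC z hz).trans (le_max_left _ _)
  set c := (min ρ 3) / 168 with hcdef
  have hc0 : 0 < c := by
    have : 0 < min ρ 3 := lt_min hρ (by norm_num)
    positivity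
  -- choice of `s`
  obtain ⟨s, hs⟩ : ∃ s : ℕ, 5 * C' * (1 / 2 : ℝ) ^ s ≤ η := by
    have h1 : Tendsto (fun s : ℕ => 5 * C' * (1 / 2 : ℝ) ^ s) atTop (𝓝 (5 * C' * 0)) :=
      (tendsto_pow_atTop_nhds_zero_of_lt_one (by norm_num) (by norm_num)).const_mul _
    rw [mul_zero] at h1
    obtain ⟨s, hs⟩ := (h1.eventually_lt_const hη).exists
    exact ⟨s, hs.le⟩
  -- choice of `ε`
  set ε := η / (5 * (2 / c) ^ s) with hε
  have hε0 : 0 < ε := by positivity
  obtain ⟨R₁', hR₁'⟩ := hbd ε hε0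
  set R₁ := max R₁' 1 with hR₁
  have hR₁0 : 0 < R₁ := lt_of_lt_of_le one_pos (le_max_right _ _)
  refine ⟨max (max (2 * |B| + 14) (R₁ + 1)) (C' * R₁ * (2 / c) ^ s / η), fun z hz hzR => ?_⟩
  set r := ‖z‖ with hr
  have hr1 : 2 * |B| + 14 < r := lt_of_le_of_lt ((le_max_left _ _).trans (le_max_left _ _)) hzR
  have hr2 : R₁ + 1 < r := lt_of_le_of_lt ((le_max_right _ _).trans (le_max_left _ _)) hzR
  have hr3 : C' * R₁ * (2 / c) ^ s / η < r := lt_of_le_of_lt (le_max_right _ _) hzR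
  have hBabs := abs_nonneg B
  have hBle := le_abs_self B
  have hBle' := neg_abs_le B
  have hr0 : 0 < r := by linarith
  set N := ⌊(r - B) / 7⌋₊ with hN
  have hNle : (N : ℝ) ≤ (r - B) / 7 := Nat.floor_le (by
    have : 0 < r - B := by linarith
    positivity)
  have hNgt : (r - B) / 7 < N + 1 := Nat.lt_floor_add_one _
  have hN0 : 0 < N := by
    rw [hN, Nat.floor_pos]
    rw [le_div_iff₀ (by norm_num)]
    linarith
  have hrN : r ≤ 14 * N := by
    rw [div_lt_iff₀ (by norm_num)] at hNgt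
    linarith
  have hβr : ∀ k ∈ Finset.range N, ‖β k‖ ≤ r := by
    intro k hk
    rw [Finset.mem_range] at hk
    have h1 := hgr k
    have h2 : (k : ℝ) ≤ N := by exact_mod_cast hk.le
    rw [le_div_iff₀ (by norm_num)] at hNle
    linarith
  -- the auxiliary function
  set F : ℂ → ℂ := fun ζ => (Ψ ζ * ζ) ^ N / (∏ k ∈ Finset.range N, (ζ - β k)) ^ s with hF
  have hFn : ∀ ζ, ‖F ζ‖ = (‖Ψ ζ‖ * ‖ζ‖) ^ N / (∏ k ∈ Finset.range N, ‖ζ - β k‖) ^ s := by
    intro ζ
    simp only [hF, norm_div, norm_pow, norm_mul, norm_prod]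
  set D : Set ℂ := U ∩ {ζ | R₁ < ‖ζ‖ ∧ ‖ζ‖ < 5 * r} with hD
  have hDU : D ⊆ U := inter_subset_left
  have hDcl : closure D ⊆ closure U := closure_mono hDU
  have hprodne : ∀ ζ ∈ closure U, (∏ k ∈ Finset.range N, (ζ - β k)) ≠ 0 := by
    intro ζ hζ
    rw [Finset.prod_ne_zero_iff]
    intro k _ h0
    have := hβc ζ hζ k
    rw [h0, norm_zero] at this
    linarith
  have hDbdd : Bornology.IsBounded D := by
    rw [isBounded_iff_forall_norm_le]
    exact ⟨5 * r, fun ζ hζ => hζ.2.2.le⟩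
  have hdiff : DiffContOnCl ℂ F D := by
    constructor
    · intro ζ hζ
      have h1 : DifferentiableWithinAt ℂ Ψ D ζ := (hd ζ (hDU hζ)).mono hDU
      apply DifferentiableWithinAt.fun_div
      · exact (h1.mul differentiableWithinAt_id).pow N
      · apply DifferentiableWithinAt.pow
        apply DifferentiableWithinAt.fun_finsetProd
        intro k _
        fun_prop
      · exact pow_ne_zero _ (hprodne ζ (subset_closure (hDU hζ)))
    · apply ContinuousOn.div
      · exact ((hc.mono hDcl).mul continuousOn_id).pow N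
      · fun_prop
      · intro ζ hζ
        exact pow_ne_zero _ (hprodne ζ (hDcl hζ))
  have hDsub : closure D ⊆ {ζ | R₁ ≤ ‖ζ‖ ∧ ‖ζ‖ ≤ 5 * r} := by
    apply closure_minimal
    · rintro ζ ⟨-, h1, h2⟩
      exact ⟨h1.le, h2.le⟩
    · exact (isClosed_le continuous_const continuous_norm).inter
        (isClosed_le continuous_norm continuous_const)
  -- bound on the frontier
  set T := (η * r / (2 * r) ^ s) ^ N with hT
  have hfr : ∀ ζ ∈ frontier D, ‖F ζ‖ ≤ T := by
    intro ζ hζ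
    have hζc : ζ ∈ closure D := frontier_subset_closure hζ
    have hζU : ζ ∈ closure U := hDcl hζc
    obtain ⟨hn1, hn2⟩ := hDsub hζc
    have hlow := prod_lower hN0 hρ hr0 hrN hsep (hβc ζ hζU)
    rw [hFn]
    have hcr : 0 < c * r := by positivity
    rcases hn2.eq_or_lt with heq | hlt
    · -- outer circle
      have hfar : (4 * r) ^ N ≤ ∏ k ∈ Finset.range N, ‖ζ - β k‖ := by
        have h1 : ∏ _k ∈ Finset.range N, (4 * r) ≤ ∏ k ∈ Finset.range N, ‖ζ - β k‖ := by
          apply Finset.prod_le_prod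
          · intro k _; positivity
          · intro k hk
            have h2 := hβr k hk
            have h3 := norm_sub_norm_le ζ (β k)
            linarith
        rwa [Finset.prod_const, Finset.card_range] at h1
      have h4 : ‖Ψ ζ‖ * ‖ζ‖ ≤ C' * (5 * r) :=
        mul_le_mul (hCc ζ hζU) hn2 (norm_nonneg _) hC'0.le
      refine (frac_bound (by positivity) h4 (by positivity) hfar).trans ?_
      apply pow_le_pow_left₀ (by positivity)
      rw [div_le_div_iff₀ (by positivity) (by positivity)]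
      have h5 : (4 * r) ^ s = 2 ^ s * (2 * r) ^ s := by rw [← mul_pow]; ring_nf
      rw [h5]
      have h6 : 5 * C' ≤ η * 2 ^ s := by
        rw [one_div, inv_pow] at hs
        have h7 : (0 : ℝ) < 2 ^ s := by positivity
        calc 5 * C' = 5 * C' * (2 ^ s)⁻¹ * 2 ^ s := by field_simp
          _ ≤ η * 2 ^ s := mul_le_mul_of_nonneg_right hs h7.le
      have h8 : 0 ≤ r * (2 * r) ^ s := by positivity
      calc C' * (5 * r) * (2 * r) ^ s = (5 * C') * (r * (2 * r) ^ s) := by ring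
        _ ≤ (η * 2 ^ s) * (r * (2 * r) ^ s) := mul_le_mul_of_nonneg_right h6 h8
        _ = η * r * (2 ^ s * (2 * r) ^ s) := by ring
    rcases hn1.eq_or_lt with heq | hlt'
    · -- inner circle
      have h4 : ‖Ψ ζ‖ * ‖ζ‖ ≤ C' * R₁ := by
        rw [← heq]
        exact mul_le_mul_of_nonneg_right (hCc ζ hζU) hR₁0.le
      refine (frac_bound (by positivity) h4 hcr hlow).trans ?_
      apply pow_le_pow_left₀ (by positivity)
      rw [div_le_div_iff₀ (by positivity) (by positivity)]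
      have h5 : (2 * r) ^ s = (2 / c) ^ s * (c * r) ^ s := by
        rw [← mul_pow]; congr 1; field_simp
      rw [h5]
      rw [div_lt_iff₀ hη] at hr3
      have h8 : 0 ≤ (c * r) ^ s := by positivity
      calc C' * R₁ * ((2 / c) ^ s * (c * r) ^ s) = (C' * R₁ * (2 / c) ^ s) * (c * r) ^ s := by ring
        _ ≤ (r * η) * (c * r) ^ s := mul_le_mul_of_nonneg_right hr3.le h8
        _ = η * r * (c * r) ^ s := by ring
    · -- frontier of `U`
      have hζD : ζ ∉ D := by
        have hDo : IsOpen D := hU.inter ((isOpen_lt continuous_const continuous_norm).inter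
          (isOpen_lt continuous_norm continuous_const))
        rw [hDo.frontier_eq] at hζ
        exact hζ.2
      have hζnU : ζ ∉ U := fun h => hζD ⟨h, hlt', hlt⟩
      have hζf : ζ ∈ frontier U := by
        rw [hU.frontier_eq]
        exact ⟨hζU, hζnU⟩
      have h1 : ‖Ψ ζ‖ ≤ ε := hR₁' ζ hζf (lt_of_le_of_lt (le_max_left _ _) hlt')
      have h4 : ‖Ψ ζ‖ * ‖ζ‖ ≤ ε * (5 * r) := mul_le_mul h1 hn2 (norm_nonneg _) hε0.le
      refine (frac_bound (by positivity) h4 hcr hlow).trans ?_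
      apply pow_le_pow_left₀ (by positivity)
      rw [div_le_div_iff₀ (by positivity) (by positivity)]
      have h5 : (2 * r) ^ s = (2 / c) ^ s * (c * r) ^ s := by
        rw [← mul_pow]; congr 1; field_simp
      rw [h5]
      have h6 : ε * (5 * (2 / c) ^ s) = η := by
        rw [hε]; field_simp
      calc ε * (5 * r) * ((2 / c) ^ s * (c * r) ^ s)
          = (ε * (5 * (2 / c) ^ s)) * (r * (c * r) ^ s) := by ring
        _ = η * r * (c * r) ^ s := by rw [h6]; ring
        _ ≤ _ := le_rfl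
  have hzD : z ∈ closure D := by
    apply subset_closure
    refine ⟨hz, ?_, ?_⟩
    · change R₁ < r
      linarith
    · change r < 5 * r
      linarith
  have hkey := Complex.norm_le_of_forall_mem_frontier_norm_le hDbdd hdiff hfr hzD
  rw [hFn] at hkey
  -- upper bound for the product at `z`
  have hup : (∏ k ∈ Finset.range N, ‖z - β k‖) ≤ (2 * r) ^ N := by
    have h1 : ∏ k ∈ Finset.range N, ‖z - β k‖ ≤ ∏ _k ∈ Finset.range N, (2 * r) := by
      apply Finset.prod_le_prod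
      · intro k _; positivity
      · intro k hk
        have h2 := hβr k hk
        have h3 := norm_sub_le z (β k)
        linarith
    rwa [Finset.prod_const, Finset.card_range] at h1
  have hppos : 0 < ∏ k ∈ Finset.range N, ‖z - β k‖ := by
    apply Finset.prod_pos
    intro k _
    have := hβ z hz k
    linarith
  have h1 : (‖Ψ z‖ * r) ^ N ≤ (η * r) ^ N := by
    have h2 : (‖Ψ z‖ * r) ^ N ≤ T * (∏ k ∈ Finset.range N, ‖z - β k‖) ^ s := by
      rwa [div_le_iff₀ (by positivity)] at hkey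
    refine h2.trans ?_
    have h3 : (∏ k ∈ Finset.range N, ‖z - β k‖) ^ s ≤ ((2 * r) ^ s) ^ N := by
      calc (∏ k ∈ Finset.range N, ‖z - β k‖) ^ s ≤ ((2 * r) ^ N) ^ s :=
            pow_le_pow_left₀ hppos.le hup s
        _ = ((2 * r) ^ s) ^ N := by rw [← pow_mul, ← pow_mul, mul_comm N s]
    calc T * (∏ k ∈ Finset.range N, ‖z - β k‖) ^ s ≤ T * ((2 * r) ^ s) ^ N :=
          mul_le_mul_of_nonneg_left h3 (by positivity)
      _ = (η * r) ^ N := by
          rw [hT, ← mul_pow, div_mul_cancel₀ _ (by positivity)]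
  have h2 : ‖Ψ z‖ * r ≤ η * r := le_of_pow_le_pow_left₀ (by omega) (by positivity) h1
  exact le_of_mul_le_mul_right h2 hr0

end MP_35e7b7_an
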