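import Mathlib

/-!
# A lower bound for a product of distances to well separated points
-/

open Finset

namespace MP_35e7b7_an

lemma prod_lower_aux (f : ℕ → ℝ) (N k0 : ℕ) (hk0 : k0 < N) (ρ : ℝ) (hρ : 0 < ρ)
    (h0 : ρ ≤ f k0) (h : ∀ k, k < N → |(k : ℝ) - k0| ≤ f k) :
    ρ * ((k0.factorial : ℝ) * ((N - 1 - k0).factorial : ℝ)) ≤ ∏ k ∈ range N, f k := by
  obtain ⟨m, rfl⟩ : ∃ m, N = k0 + (m + 1) := ⟨N - 1 - k0, by omega⟩
  rw [prod_range_add, prod_range_succ']
  have h1 : (k0.factorial : ℝ) ≤ ∏ k ∈ range k0, f k := by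
    rw [← Finset.prod_range_add_one_eq_factorial, ← Finset.prod_range_reflect]
    push_cast
    apply Finset.prod_le_prod
    · intro i _
      positivity
    · intro i hi
      rw [Finset.mem_range] at hi
      have h3 := h i (by omega)
      rw [abs_sub_comm, abs_of_nonneg (by
        have : (i : ℝ) < k0 := by exact_mod_cast hi
        linarith)] at h3
      have h4 : ((k0 - 1 - i : ℕ) : ℝ) + 1 = k0 - i := by
        have : (k0 - 1 - i : ℕ) + 1 + i = k0 := by omega
        have h5 : (((k0 - 1 - i : ℕ) : ℝ) + 1 + i) = k0 := by exact_mod_cast this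
        linarith
      rw [h4]
      exact h3
  have h2 : (m.factorial : ℝ) ≤ ∏ k ∈ range m, f (k0 + (k + 1)) := by
    rw [← Finset.prod_range_add_one_eq_factorial]
    push_cast
    apply Finset.prod_le_prod
    · intro i _
      positivity
    · intro i hi
      rw [Finset.mem_range] at hi
      have h3 := h (k0 + (i + 1)) (by omega)
      rw [abs_of_nonneg (by push_cast; linarith [(Nat.cast_nonneg i : (0 : ℝ) ≤ i)])] at h3
      push_cast at h3
      linarith
  have e1 : k0 + (m + 1) - 1 - k0 = m := by omega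
  rw [e1]
  have p1 : (0 : ℝ) < k0.factorial := by exact_mod_cast Nat.factorial_pos _
  have p2 : (0 : ℝ) < m.factorial := by exact_mod_cast Nat.factorial_pos _
  calc ρ * ((k0.factorial : ℝ) * (m.factorial : ℝ))
      = (k0.factorial : ℝ) * ((m.factorial : ℝ) * ρ) := by ring
    _ ≤ (∏ k ∈ range k0, f k) * ((∏ k ∈ range m, f (k0 + (k + 1))) * f (k0 + 0)) := by
        rw [add_zero]
        gcongr
        · exact p1.le.trans h1
        · exact p2.le.trans h2

/-- The product of the normalized distances of a point to `N` points which are separated like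
integers is at least exponentially small. -/
theorem prod_lower {ρ : ℝ} (hρ : 0 < ρ) : ∃ c : ℝ, 0 < c ∧ c ≤ 1 ∧ ∀ (β : ℕ → ℂ),
    (∀ j k : ℕ, 6 * |(j : ℝ) - k| ≤ ‖β j - β k‖) → ∀ (z : ℂ) (N : ℕ), 1 ≤ N →
    (∀ k < N, ρ ≤ ‖z - β k‖) →
    ∀ r : ℝ, 0 < r → r ≤ 14 * N → c ^ N ≤ ∏ k ∈ range N, (‖z - β k‖ / r) := by
  set e : ℝ := Real.exp 1 with he
  have he1 : (1 : ℝ) ≤ e := Real.one_le_exp (by norm_num)
  have he0 : 0 < e := by linarith
  refine ⟨min ρ 1 / (56 * e), by positivity, ?_, ?_⟩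
  · rw [div_le_one (by positivity)]
    linarith [min_le_right ρ 1]
  intro β hβ z N hN hz r hr hrN
  obtain ⟨k0, hk0, hmin⟩ := Finset.exists_min_image (range N) (fun k => ‖z - β k‖)
    ⟨0, by rw [Finset.mem_range]; omega⟩
  rw [Finset.mem_range] at hk0
  have h1 : ∀ k, k < N → |(k : ℝ) - k0| ≤ ‖z - β k‖ := by
    intro k hk
    have h2 := hβ k k0
    have h3 := hmin k (by simpa using hk)
    have h4 : ‖β k - β k0‖ ≤ ‖z - β k‖ + ‖z - β k0‖ := by
      have : β k - β k0 = (z - β k0) - (z - β k) := by ring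
      rw [this]
      exact (norm_sub_le _ _).trans (by linarith)
    have h5 : 0 ≤ |(k : ℝ) - k0| := abs_nonneg _
    linarith
  have h2 := prod_lower_aux (fun k => ‖z - β k‖) N k0 hk0 ρ hρ (hz k0 hk0) h1
  rw [Finset.prod_div_distrib, Finset.prod_const, Finset.card_range, le_div_iff₀ (by positivity)]
  have h3 : ((N - 1).factorial : ℝ) ≤ 2 ^ N * ((k0.factorial : ℝ) * ((N - 1 - k0).factorial : ℝ)) := by
    have h4 : (N - 1).choose k0 * k0.factorial * (N - 1 - k0).factorial = (N - 1).factorial :=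
      Nat.choose_mul_factorial_mul_factorial (by omega)
    have h5 : (N - 1).choose k0 ≤ 2 ^ N :=
      (Nat.choose_le_two_pow _ _).trans (Nat.pow_le_pow_right (by norm_num) (by omega))
    have h6 : (N - 1).factorial ≤ 2 ^ N * (k0.factorial * (N - 1 - k0).factorial) := by
      rw [← h4, mul_assoc]
      exact Nat.mul_le_mul_right _ h5
    exact_mod_cast h6
  have h7 : (N : ℝ) ^ N ≤ e ^ N * (2 ^ N * ((N - 1).factorial : ℝ)) := by
    have h8 := Real.pow_div_factorial_le_exp (N : ℝ) (Nat.cast_nonneg N) N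
    rw [div_le_iff₀ (by exact_mod_cast Nat.factorial_pos _)] at h8
    have h9 : Real.exp (N : ℝ) = e ^ N := by
      rw [he, ← Real.exp_nat_mul, mul_one]
    rw [h9] at h8
    have h10 : (N.factorial : ℝ) = N * ((N - 1).factorial : ℝ) := by
      have : N * (N - 1).factorial = N.factorial := Nat.mul_factorial_pred (by omega)
      exact_mod_cast this.symm
    have h11 : (N : ℝ) ≤ 2 ^ N := by
      exact_mod_cast Nat.lt_two_pow_self.le
    rw [h10] at h8
    refine h8.trans ?_
    gcongr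
  have h12 : r ^ N ≤ 14 ^ N * (e ^ N * (2 ^ N * (2 ^ N * ((k0.factorial : ℝ) *
      ((N - 1 - k0).factorial : ℝ))))) := by
    calc r ^ N ≤ (14 * N) ^ N := by gcongr
      _ = 14 ^ N * (N : ℝ) ^ N := by rw [mul_pow]
      _ ≤ 14 ^ N * (e ^ N * (2 ^ N * ((N - 1).factorial : ℝ))) := by gcongr
      _ ≤ _ := by gcongr
  have h13 : (min ρ 1) ^ N ≤ ρ := by
    calc (min ρ 1) ^ N ≤ (min ρ 1) ^ 1 := by
          apply pow_le_pow_of_le_one (by positivity) (min_le_right _ _) hN
      _ ≤ ρ := by rw [pow_one]; exact min_le_left _ _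
  set Q : ℝ := (k0.factorial : ℝ) * ((N - 1 - k0).factorial : ℝ) with hQ
  have hQ0 : 0 ≤ Q := by positivity
  calc (min ρ 1 / (56 * e)) ^ N * r ^ N
      ≤ (min ρ 1 / (56 * e)) ^ N * (14 ^ N * (e ^ N * (2 ^ N * (2 ^ N * Q)))) := by gcongr
    _ = (min ρ 1) ^ N * Q := by
        have : (14 : ℝ) ^ N * (e ^ N * (2 ^ N * (2 ^ N * Q))) = (56 * e) ^ N * Q := by
          rw [show (56 : ℝ) = 14 * 2 * 2 by norm_num, mul_pow, mul_pow, mul_pow]
          ring
        rw [this, div_pow]
        have h14 : (56 * e) ^ N ≠ 0 := by positivity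
        field_simp
    _ ≤ ρ * Q := by gcongr
    _ ≤ _ := h2

end MP_35e7b7_an
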